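import Pool.Agent.H49.RH.Sets

/-!
# Mixtures with a bounded part of primes
-/

set_option autoImplicit false

open Complex MeasureTheory Filter Topology Set

namespace Pool.Agent.H49.RH

open Pool.Agent.H49.BP (gint one_le_gint fin_le ht)

/-- the weighted sum over the part in `U` -/
noncomputable def WS (b : ℕ → ℝ) (U : Set ℝ) (s : ℂ) : ℂ := ∑' j, wt b U j * (b j : ℂ) ^ (-s)

theorem Fam.fin {b : ℕ → ℝ} {b0 : ℝ} (hb : Fam b b0) (V : ℝ) : {j : ℕ | b j ≤ V}.Finite :=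
  fin_le (l := b) (fun n => (hb.one_lt n).le) (hb.sum 2 (by norm_num)) V

theorem wt_zero {b : ℕ → ℝ} {U : Set ℝ} {V : ℝ} (hU : ∀ x ∈ U, x ≤ V) {j : ℕ} (hj : ¬ b j ≤ V) : wt b U j = 0 := by
  unfold wt
  rw [if_neg]
  intro h
  exact hj (hU _ h)

theorem WS_sum {b : ℕ → ℝ} {b0 : ℝ} (hb : Fam b b0) {U : Set ℝ} {V : ℝ} (hU : ∀ x ∈ U, x ≤ V) (s : ℂ) :
    HasSum (fun j => wt b U j * (b j : ℂ) ^ (-s)) (WS b U s) ∧
    WS b U s = ∑ j ∈ (hb.fin V).toFinset, wt b U j * (b j : ℂ) ^ (-s) := by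
  have h : ∀ j ∉ (hb.fin V).toFinset, wt b U j * (b j : ℂ) ^ (-s) = 0 := by
    intro j hj
    rw [Set.Finite.mem_toFinset] at hj
    rw [wt_zero hU hj, zero_mul]
  have h1 : HasSum (fun j => wt b U j * (b j : ℂ) ^ (-s))
      (∑ j ∈ (hb.fin V).toFinset, wt b U j * (b j : ℂ) ^ (-s)) := hasSum_sum_of_ne_finset_zero h
  exact ⟨h1.summable.hasSum, h1.tsum_eq⟩

theorem WS_diff {b : ℕ → ℝ} {b0 : ℝ} (hb : Fam b b0) {U : Set ℝ} {V : ℝ} (hU : ∀ x ∈ U, x ≤ V) :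
    Differentiable ℂ (WS b U) := by
  have e : WS b U = fun s => ∑ j ∈ (hb.fin V).toFinset, wt b U j * (b j : ℂ) ^ (-s) := by
    funext s
    exact (WS_sum hb hU s).2
  rw [e]
  intro s
  refine DifferentiableAt.fun_sum fun j _ => ?_
  have hn0 : (b j : ℂ) ≠ 0 := by exact_mod_cast (hb.pos j).ne'
  exact (differentiableAt_id.neg.const_cpow (Or.inl hn0)).const_mul _

theorem WS_norm {b : ℕ → ℝ} {b0 : ℝ} (hb : Fam b b0) {U : Set ℝ} {V : ℝ} (hU : ∀ x ∈ U, x ≤ V) {s : ℂ}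
    (hs : 0 ≤ s.re) : ‖WS b U s‖ ≤ (hb.fin V).toFinset.card := by
  rw [(WS_sum hb hU s).2]
  refine (norm_sum_le _ _).trans ?_
  rw [← nsmul_one, ← Finset.sum_const]
  refine Finset.sum_le_sum fun j _ => ?_
  rw [norm_mul, hb.norm]
  have h1 : (b j) ^ (-s.re) ≤ 1 := Real.rpow_le_one_of_one_le_of_nonpos (hb.one_lt j).le (by linarith)
  have h2 : 0 ≤ (b j) ^ (-s.re) := Real.rpow_nonneg (hb.pos j).le _
  calc ‖wt b U j‖ * (b j) ^ (-s.re) ≤ 1 * 1 := mul_le_mul (wt_le b U j) h1 h2 zero_le_one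
    _ = 1 := one_mul _

/-- the exponent of the density -/
noncomputable def Ex (b : ℕ → ℝ) (G : ℂ → ℂ) (U : Set ℝ) : ℂ :=
  G 1 + ((WS pr U 1 - WS b U 1) + (hv pr (wt pr U) 1 - hv b (wt b U) 1))

theorem bdd_density {b : ℕ → ℝ} {b0 : ℝ} {G : ℂ → ℂ} (hb : Dat b b0 G) (hbi : Function.Injective b) {U : Set ℝ}
    {V : ℝ} (hU : ∀ x ∈ U, x ≤ V) : ∃ ρ : ℝ, 0 < ρ ∧ Complex.exp (Ex b G U) = (ρ : ℂ) ∧
      (∀ ε : ℝ, 0 < ε → ε < 1 / 2 → ∃ C : ℝ, ∀ x : ℝ, 1 ≤ x → |(ints (mixS b U) x : ℝ) - ρ * x| ≤ C * x ^ (1 / 2 + ε)) ∧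
      Tendsto (fun x : ℝ => (ints (mixS b U) x : ℝ) / x) atTop (𝓝 ρ) := by
  obtain ⟨m, hm, hr⟩ := enum_bdd hb.fam hU
  set D : ℂ → ℂ := fun s => WS pr U s - WS b U s with hD
  have hDd : Differentiable ℂ D := (WS_diff pr_fam hU).sub (WS_diff hb.fam hU)
  set N : ℝ := (pr_fam.fin V).toFinset.card + (hb.fam.fin V).toFinset.card with hN
  have hN0 : 0 ≤ N := by positivity
  have hDb : ∀ s : ℂ, 0 ≤ s.re → ‖D s‖ ≤ N := fun s hs =>
    (norm_sub_le _ _).trans (add_le_add (WS_norm pr_fam hU hs) (WS_norm hb.fam hU hs))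
  have hmain : ∀ ε : ℝ, 0 < ε → ε < 1 / 2 → ∃ ρ : ℝ, 0 < ρ ∧ Complex.exp (Ex b G U) = (ρ : ℂ) ∧
      ∃ C : ℝ, ∀ x : ℝ, 1 ≤ x → |(ints (mixS b U) x : ℝ) - ρ * x| ≤ C * x ^ (1 / 2 + ε) := by
    intro ε hε hε1
    obtain ⟨K, hK0, hK⟩ := mix_count hb hbi (θ := 1 / 2) (ε := ε) le_rfl hε (by linarith)
    obtain ⟨ρ, hρ0, hρe, hρ⟩ := hK U m D N hm hr hDd.differentiableOn (fun s _ => rfl)
      (fun σ δ hσ hδ => ⟨N, hN0, fun s hs => by
        have := hDb s (by linarith)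
        have h2 := log_ge_one s.im
        have : 0 ≤ δ * Real.log (|s.im| + 3) := by positivity
        linarith⟩) (fun s hs => by
        have := hDb s (by linarith)
        have h2 := log_ge_one s.im
        have : 0 ≤ ε / 8 * Real.log (|s.im| + 3) := by positivity
        linarith)
    refine ⟨ρ, hρ0, hρe, K * Real.exp N, fun x hx => ?_⟩
    rw [ints_eq hm hr]
    exact hρ x hx
  obtain ⟨ρ, hρ0, hρe, C, hC⟩ := hmain (1 / 4) (by norm_num) (by norm_num)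
  refine ⟨ρ, hρ0, hρe, fun ε hε hε1 => ?_, ?_⟩
  · obtain ⟨ρ', hρ0', hρe', C', hC'⟩ := hmain ε hε hε1
    have : ρ' = ρ := by
      rw [hρe] at hρe'
      exact_mod_cast hρe'.symm
    rw [this] at hC'
    exact ⟨C', hC'⟩
  · rw [tendsto_iff_norm_sub_tendsto_zero]
    have hlim : Tendsto (fun x : ℝ => |C| * x ^ (-(1 / 4) : ℝ)) atTop (𝓝 0) := by
      have := (tendsto_rpow_neg_atTop (show (0 : ℝ) < 1 / 4 by norm_num)).const_mul |C|
      simpa using this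
    refine squeeze_zero' (Eventually.of_forall fun x => norm_nonneg _) ?_ hlim
    filter_upwards [eventually_ge_atTop 1] with x hx
    have hx0 : 0 < x := by linarith
    have h1 := hC x hx
    have e : (ints (mixS b U) x : ℝ) / x - ρ = ((ints (mixS b U) x : ℝ) - ρ * x) / x := by
      field_simp
    rw [e, norm_div, Real.norm_eq_abs, Real.norm_of_nonneg hx0.le, div_le_iff₀ hx0]
    refine h1.trans ?_
    have e2 : |C| * x ^ (-(1 / 4) : ℝ) * x = |C| * x ^ (1 / 2 + 1 / 4 : ℝ) := by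
      rw [mul_assoc]
      congr 1
      nth_rewrite 2 [← Real.rpow_one x]
      rw [← Real.rpow_add hx0]
      norm_num
    rw [e2]
    exact mul_le_mul_of_nonneg_right (le_abs_self C) (by positivity)

theorem wt_union {b : ℕ → ℝ} {U : Set ℝ} {z w : ℝ} (hU : ∀ x ∈ U, x < z) (j : ℕ) :
    wt b (U ∪ Ico z w) j = wt b U j + wt b (Ico z w) j := by
  unfold wt
  by_cases h1 : b j ∈ U
  · have h2 : b j ∉ Ico z w := fun h => by
      have := hU _ h1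
      linarith [h.1]
    rw [if_pos (show b j ∈ U ∪ Ico z w from Or.inl h1), if_pos h1, if_neg h2, add_zero]
  · by_cases h2 : b j ∈ Ico z w
    · rw [if_pos (show b j ∈ U ∪ Ico z w from Or.inr h2), if_neg h1, if_pos h2, zero_add]
    · rw [if_neg (by
        rintro (h | h)
        · exact h1 h
        · exact h2 h), if_neg h1, if_neg h2, add_zero]

theorem WS_union {b : ℕ → ℝ} {b0 : ℝ} (hb : Fam b b0) {U : Set ℝ} {z w : ℝ} (hzw : z ≤ w) (hU : ∀ x ∈ U, x < z) (s : ℂ) :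
    WS b (U ∪ Ico z w) s = WS b U s + (PS b w s - PS b z s) := by
  have h1 := (WS_sum hb (V := z) (fun x hx => (hU x hx).le) s).1
  have h2 := (PS_hasSum hb w s).sub (PS_hasSum hb z s)
  have h3 := h1.add h2
  rw [← h3.tsum_eq]
  unfold WS
  refine tsum_congr fun j => ?_
  rw [wt_union hU, add_mul]
  congr 1
  unfold wt
  rcases lt_or_ge (b j) z with h | h
  · rw [if_neg (by
      rintro ⟨h4, _⟩
      linarith), if_pos (h.trans_le hzw), if_pos h]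
    ring
  · rcases lt_or_ge (b j) w with h4 | h4
    · rw [if_pos ⟨h, h4⟩, if_pos h4, if_neg (not_lt.2 h)]
      ring
    · rw [if_neg (by
        rintro ⟨_, h5⟩
        linarith), if_neg (not_lt.2 h4), if_neg (not_lt.2 h)]
      ring

theorem hv_union {b : ℕ → ℝ} {b0 : ℝ} (hb : Fam b b0) {U : Set ℝ} {z w : ℝ} (hU : ∀ x ∈ U, x < z) :
    hv b (wt b (U ∪ Ico z w)) 1 = hv b (wt b U) 1 + hv b (wt b (Ico z w)) 1 := by
  unfold hv
  rw [← (hb.hv_summable (wt_le b U) (s := 1) (by norm_num)).tsum_add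
    (hb.hv_summable (wt_le b (Ico z w)) (s := 1) (by norm_num))]
  refine tsum_congr fun j => ?_
  rw [wt_union hU, add_mul]

theorem cpow_neg_one' {a : ℝ} : ((a : ℝ) : ℂ) ^ (-(1 : ℂ)) = ((a⁻¹ : ℝ) : ℂ) := by
  rw [Complex.cpow_neg_one]
  push_cast
  rfl

theorem ht_real {b : ℕ → ℝ} {b0 : ℝ} (hb : Fam b b0) (j : ℕ) :
    ht b j 1 = ((-Real.log (1 - (b j)⁻¹) - (b j)⁻¹ : ℝ) : ℂ) := by
  unfold ht
  rw [cpow_neg_one']
  have h : 0 ≤ 1 - (b j)⁻¹ := by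
    have := inv_le_one_of_one_le₀ (hb.one_lt j).le
    linarith
  push_cast
  rw [Complex.ofReal_log h]
  push_cast
  rfl

theorem wt_real (b : ℕ → ℝ) (U : Set ℝ) (j : ℕ) : ∃ r : ℝ, wt b U j = (r : ℂ) := by
  unfold wt
  split_ifs
  · exact ⟨1, by simp⟩
  · exact ⟨0, by simp⟩

theorem tsum_real {f : ℕ → ℂ} (hf : ∀ j, ∃ r : ℝ, f j = (r : ℂ)) : (∑' j, f j).im = 0 := by
  choose r hr using hf
  simp_rw [hr]
  rw [← Complex.ofReal_tsum, Complex.ofReal_im]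

theorem hv_real {b : ℕ → ℝ} {b0 : ℝ} (hb : Fam b b0) (U : Set ℝ) : (hv b (wt b U) 1).im = 0 := by
  unfold hv
  refine tsum_real fun j => ?_
  obtain ⟨r, hr⟩ := wt_real b U j
  exact ⟨r * (-Real.log (1 - (b j)⁻¹) - (b j)⁻¹), by rw [hr, ht_real hb]; push_cast; ring⟩

theorem PS_real (b : ℕ → ℝ) (x : ℝ) : (PS b x 1).im = 0 := by
  unfold PS
  refine tsum_real fun j => ?_
  split_ifs
  · exact ⟨(b j)⁻¹, cpow_neg_one'⟩
  · exact ⟨0, by simp⟩

theorem hv_tail {b : ℕ → ℝ} {b0 : ℝ} (hb : Fam b b0) {z w : ℝ} (hz : 1 ≤ z) :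
    ‖hv b (wt b (Ico z w)) 1‖ ≤ (kp b0 * ∑' j, (b j) ^ (-(3 / 2) : ℝ)) * z ^ (-(1 / 2) : ℝ) := by
  have hz0 : 0 < z := by linarith
  have h1 : HasSum (fun j => kp b0 * (b j) ^ (-(3 / 2) : ℝ) * z ^ (-(1 / 2) : ℝ))
      ((kp b0 * ∑' j, (b j) ^ (-(3 / 2) : ℝ)) * z ^ (-(1 / 2) : ℝ)) :=
    ((hb.sum (3 / 2) (by norm_num)).hasSum.mul_left _).mul_right _
  refine tsum_of_norm_bounded h1 fun j => ?_
  by_cases h : b j ∈ Ico z w
  · refine (hb.vht_bound (wt_le b (Ico z w)) j (σ := 1) (by norm_num) (by simp)).trans ?_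
    rw [mul_assoc]
    refine mul_le_mul_of_nonneg_left ?_ hb.kp_nonneg
    have h2 : (b j) ^ (-(2 * 1) : ℝ) = (b j) ^ (-(3 / 2) : ℝ) * (b j) ^ (-(1 / 2) : ℝ) := by
      rw [← Real.rpow_add (hb.pos j)]
      norm_num
    rw [h2]
    refine mul_le_mul_of_nonneg_left ?_ (Real.rpow_nonneg (hb.pos j).le _)
    exact Real.rpow_le_rpow_of_nonpos hz0 h.1 (by norm_num)
  · have h3 : wt b (Ico z w) j = 0 := by
      unfold wt
      exact if_neg h
    rw [h3, zero_mul, norm_zero]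
    have := hb.kp_nonneg
    have := Real.rpow_nonneg (hb.pos j).le (-(3 / 2) : ℝ)
    positivity

end Pool.Agent.H49.RH
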