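import Pool.Agent.H49.BP.Euler

/-!
# Families of generalised primes: the Euler product and the contribution of the prime powers
-/

set_option autoImplicit false

open Filter Topology Set Complex

namespace Pool.Agent.H49.RH

open Pool.Agent.H49.BP (gint gint_one gint_mul gint_prime one_le_gint pe rh rh_nonneg rh_prime ch ch_norm ht)

/-- a family of generalised primes, bounded below by `b0 > 1`, with convergence for `σ > 1` -/
structure Fam (b : ℕ → ℝ) (b0 : ℝ) : Prop where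
  gt : 1 < b0
  ge : ∀ j, b0 ≤ b j
  sum : ∀ σ : ℝ, 1 < σ → Summable fun j => (b j) ^ (-σ)

theorem Fam.one_lt {b : ℕ → ℝ} {b0 : ℝ} (h : Fam b b0) (j : ℕ) : 1 < b j := lt_of_lt_of_le h.gt (h.ge j)

theorem Fam.pos {b : ℕ → ℝ} {b0 : ℝ} (h : Fam b b0) (j : ℕ) : 0 < b j := by linarith [h.one_lt j]

theorem Fam.summable_rh {b : ℕ → ℝ} {b0 : ℝ} (h : Fam b b0) {σ : ℝ} (hσ : 1 < σ) :
    Summable fun n => rh b h.one_lt σ n := by
  have hb0 := h.gt
  set z0 := b0 ^ (-σ) with hz0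
  have hz01 : z0 < 1 := Real.rpow_lt_one_of_one_lt_of_neg hb0 (by linarith)
  have hz00 : 0 ≤ z0 := Real.rpow_nonneg (by linarith) _
  set K := (1 - z0)⁻¹ with hK
  have hK0 : 0 < K := inv_pos.2 (by linarith)
  have hz : ∀ j, (b j) ^ (-σ) ≤ z0 := fun j =>
    Real.rpow_le_rpow_of_nonpos (by linarith) (h.ge j) (by linarith)
  have hznn : ∀ j, 0 ≤ (b j) ^ (-σ) := fun j => Real.rpow_nonneg (h.pos j).le _
  have hsq := h.sum σ hσ
  refine summable_of_sum_le (c := Real.exp (K * ∑' j, (b j) ^ (-σ))) (fun n => rh_nonneg b h.one_lt σ n) fun u => ?_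
  set N := u.sup id + 1 with hN
  have hprod := EulerProduct.summable_and_hasSum_smoothNumbers_prod_primesBelow_geometric
    (f := (rh b h.one_lt σ : ℕ →* ℝ)) (fun {p} hp => by
      show ‖rh b h.one_lt σ p‖ < 1
      rw [rh_prime b h.one_lt σ hp, Real.norm_of_nonneg (hznn _)]
      exact lt_of_le_of_lt (hz _) hz01) N
  have h1 : ∑ n ∈ u, rh b h.one_lt σ n ≤ ∏ p ∈ N.primesBelow, (1 - rh b h.one_lt σ p)⁻¹ := by
    have h2 : HasSum (indicator (N.smoothNumbers) fun n => rh b h.one_lt σ n)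
        (∏ p ∈ N.primesBelow, (1 - rh b h.one_lt σ p)⁻¹) :=
      hasSum_subtype_iff_indicator.1 hprod.2
    have h3 : ∑ n ∈ u, rh b h.one_lt σ n =
        ∑ n ∈ u, indicator (N.smoothNumbers) (fun n => rh b h.one_lt σ n) n := by
      refine Finset.sum_congr rfl fun n hn => ?_
      rcases Nat.eq_zero_or_pos n with h0 | h0
      · subst h0
        rw [indicator_of_notMem]
        · exact (rh b h.one_lt σ).map_zero
        · intro h4
          exact Nat.ne_zero_of_mem_smoothNumbers h4 rfl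
      · rw [indicator_of_mem]
        refine Nat.mem_smoothNumbers_of_lt h0 ?_
        have : id n ≤ u.sup id := Finset.le_sup hn
        simp only [id] at this
        omega
    rw [h3]
    refine sum_le_hasSum u (fun n _ => ?_) h2
    exact indicator_nonneg (fun n _ => rh_nonneg b h.one_lt σ n) n
  refine h1.trans ?_
  calc ∏ p ∈ N.primesBelow, (1 - rh b h.one_lt σ p)⁻¹
      ≤ ∏ p ∈ N.primesBelow, Real.exp (K * (b (Nat.primeCounting' p)) ^ (-σ)) := by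
        refine Finset.prod_le_prod (fun p hp => ?_) (fun p hp => ?_)
        · rw [rh_prime b h.one_lt σ (Nat.prime_of_mem_primesBelow hp)]
          have := hz (Nat.primeCounting' p)
          exact inv_nonneg.2 (by linarith)
        · rw [rh_prime b h.one_lt σ (Nat.prime_of_mem_primesBelow hp)]
          set z := (b (Nat.primeCounting' p)) ^ (-σ) with hzz
          have hz1 : z ≤ z0 := hz _
          have hzn : 0 ≤ z := hznn _
          have hlt : 0 < 1 - z := by linarith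
          have e : (1 - z)⁻¹ = 1 + z * (1 - z)⁻¹ := by field_simp; ring
          have h5 : (1 - z)⁻¹ ≤ K := inv_anti₀ (by linarith) (by linarith)
          have h6 : z * (1 - z)⁻¹ ≤ K * z := by
            rw [mul_comm]
            exact mul_le_mul_of_nonneg_right h5 hzn
          calc (1 - z)⁻¹ = z * (1 - z)⁻¹ + 1 := by rw [add_comm]; exact e
            _ ≤ Real.exp (z * (1 - z)⁻¹) := Real.add_one_le_exp _
            _ ≤ Real.exp (K * z) := Real.exp_le_exp.2 h6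
    _ = Real.exp (K * ∑ p ∈ N.primesBelow, (b (Nat.primeCounting' p)) ^ (-σ)) := by
        rw [← Real.exp_sum, Finset.mul_sum]
    _ ≤ Real.exp (K * ∑' j, (b j) ^ (-σ)) := by
        refine Real.exp_le_exp.2 (mul_le_mul_of_nonneg_left ?_ hK0.le)
        have hinj : Set.InjOn Nat.primeCounting' (N.primesBelow : Set ℕ) := by
          intro a ha b hb hab
          have ha' := Nat.prime_of_mem_primesBelow (Finset.mem_coe.1 ha)
          have hb' := Nat.prime_of_mem_primesBelow (Finset.mem_coe.1 hb)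
          have h7 : pe ⟨a, ha'⟩ = pe ⟨b, hb'⟩ := hab
          have h8 := pe.injective h7
          exact congrArg Subtype.val h8
        have h9 : ∑ p ∈ N.primesBelow, (b (Nat.primeCounting' p)) ^ (-σ) =
            ∑ j ∈ N.primesBelow.image Nat.primeCounting', (b j) ^ (-σ) := by
          rw [Finset.sum_image hinj]
        rw [h9]
        exact hsq.sum_le_tsum _ fun j _ => hznn j

theorem Fam.summable_gint {b : ℕ → ℝ} {b0 : ℝ} (h : Fam b b0) {σ : ℝ} (hσ : 1 < σ) :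
    Summable fun n => (gint b (n + 1)) ^ (-σ) := by
  have h1 := (summable_nat_add_iff 1).2 (h.summable_rh hσ)
  refine h1.congr fun n => ?_
  show (if n + 1 = 0 then 0 else (gint b (n + 1)) ^ (-σ)) = _
  rw [if_neg (Nat.succ_ne_zero n)]

theorem Fam.euler {b : ℕ → ℝ} {b0 : ℝ} (h : Fam b b0) {s : ℂ} (hs : 1 < s.re) :
    ∑' n : ℕ, ((gint b (n + 1) : ℝ) : ℂ) ^ (-s) = Complex.exp (∑' j, -Complex.log (1 - (b j : ℂ) ^ (-s))) := by
  have hsum : Summable fun n => ‖ch b h.one_lt s n‖ := by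
    simp only [ch_norm]
    exact h.summable_rh hs
  have h1 := EulerProduct.exp_tsum_primes_log_eq_tsum hsum
  have h2 : ∑' n, ch b h.one_lt s n = ∑' n : ℕ, ((gint b (n + 1) : ℝ) : ℂ) ^ (-s) := by
    rw [hsum.of_norm.tsum_eq_zero_add, map_zero, zero_add]
    refine tsum_congr fun n => ?_
    show (if n + 1 = 0 then 0 else ((gint b (n + 1) : ℝ) : ℂ) ^ (-s)) = _
    rw [if_neg (Nat.succ_ne_zero n)]
  rw [← h2, ← h1]
  congr 1
  rw [← pe.tsum_eq]
  refine tsum_congr fun p => ?_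
  have h3 : ch b h.one_lt s p = (b (pe p) : ℂ) ^ (-s) := by
    show (if (p : ℕ) = 0 then 0 else ((gint b p : ℝ) : ℂ) ^ (-s)) = _
    rw [if_neg p.2.ne_zero, gint_prime b p.2]
    rfl
  rw [h3]

theorem Fam.norm {b : ℕ → ℝ} {b0 : ℝ} (h : Fam b b0) (j : ℕ) (s : ℂ) : ‖(b j : ℂ) ^ (-s)‖ = (b j) ^ (-s.re) := by
  rw [Complex.norm_cpow_eq_rpow_re_of_pos (h.pos j), Complex.neg_re]

theorem Fam.summable_s {b : ℕ → ℝ} {b0 : ℝ} (h : Fam b b0) {s : ℂ} (hs : 1 < s.re) :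
    Summable fun j => (b j : ℂ) ^ (-s) :=
  Summable.of_norm_bounded (h.sum _ hs) fun j => (h.norm j s).le

theorem Fam.z_lt {b : ℕ → ℝ} {b0 : ℝ} (h : Fam b b0) : b0 ^ (-(1 / 2 : ℝ)) < 1 :=
  Real.rpow_lt_one_of_one_lt_of_neg h.gt (by norm_num)

theorem Fam.s_le {b : ℕ → ℝ} {b0 : ℝ} (h : Fam b b0) (j : ℕ) {s : ℂ} (hs : 1 / 2 < s.re) :
    ‖(b j : ℂ) ^ (-s)‖ ≤ b0 ^ (-(1 / 2 : ℝ)) := by
  have h0 := h.gt
  rw [h.norm]
  calc (b j) ^ (-s.re) ≤ b0 ^ (-s.re) :=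
        Real.rpow_le_rpow_of_nonpos (by linarith) (h.ge j) (by linarith)
    _ ≤ b0 ^ (-(1 / 2 : ℝ)) := Real.rpow_le_rpow_of_exponent_le h0.le (by linarith)

/-- the constant of the prime powers -/
noncomputable def kp (b0 : ℝ) : ℝ := (1 - b0 ^ (-(1 / 2 : ℝ)))⁻¹

theorem Fam.kp_nonneg {b : ℕ → ℝ} {b0 : ℝ} (h : Fam b b0) : 0 ≤ kp b0 := inv_nonneg.2 (by linarith [h.z_lt])

theorem Fam.ht_bound {b : ℕ → ℝ} {b0 : ℝ} (h : Fam b b0) (j : ℕ) {s : ℂ} {σ : ℝ} (hσ : 1 / 2 < σ)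
    (hs : σ ≤ s.re) : ‖ht b j s‖ ≤ kp b0 * (b j) ^ (-(2 * σ)) := by
  unfold ht kp
  have h1 := h.s_le j (s := s) (by linarith)
  have h1' := h.norm j s
  have hz := h.z_lt
  set z0 := b0 ^ (-(1 / 2 : ℝ)) with hz0
  generalize (b j : ℂ) ^ (-s) = z at *
  have h2 : ‖-z‖ < 1 := by rw [norm_neg]; linarith
  have h3 := Complex.norm_log_one_add_sub_self_le h2
  rw [norm_neg] at h3
  have e1 : -Complex.log (1 - z) - z = -(Complex.log (1 + -z) - -z) := by
    rw [← sub_eq_add_neg]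
    ring
  rw [e1, norm_neg]
  have h4 : (1 - ‖z‖)⁻¹ ≤ (1 - z0)⁻¹ := inv_anti₀ (by linarith) (by linarith)
  have h5 : ‖z‖ ^ 2 ≤ (b j) ^ (-(2 * σ)) := by
    rw [h1', ← Real.rpow_natCast, ← Real.rpow_mul (h.pos j).le]
    refine Real.rpow_le_rpow_of_exponent_le (h.one_lt j).le ?_
    push_cast
    linarith
  have h7 : 0 ≤ (1 - z0)⁻¹ := inv_nonneg.2 (by linarith)
  have h8 : 0 ≤ (1 - ‖z‖)⁻¹ := inv_nonneg.2 (by linarith)
  calc ‖Complex.log (1 + -z) - -z‖ ≤ ‖z‖ ^ 2 * (1 - ‖z‖)⁻¹ / 2 := h3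
    _ ≤ ‖z‖ ^ 2 * (1 - ‖z‖)⁻¹ := half_le_self (by positivity)
    _ ≤ (b j) ^ (-(2 * σ)) * (1 - z0)⁻¹ := mul_le_mul h5 h4 h8 (Real.rpow_nonneg (h.pos j).le _)
    _ = _ := mul_comm _ _

theorem Fam.ht_diff {b : ℕ → ℝ} {b0 : ℝ} (h : Fam b b0) (j : ℕ) :
    DifferentiableOn ℂ (ht b j) {s | 1 / 2 < s.re} := by
  intro s hs
  apply DifferentiableAt.differentiableWithinAt
  unfold ht
  have hn0 : (b j : ℂ) ≠ 0 := by
    have : b j ≠ 0 := (h.pos j).ne'
    exact_mod_cast this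
  have h1 : DifferentiableAt ℂ (fun s : ℂ => (b j : ℂ) ^ (-s)) s :=
    differentiableAt_id.neg.const_cpow (Or.inl hn0)
  have h2 : (1 - (b j : ℂ) ^ (-s)) ∈ Complex.slitPlane := by
    left
    have h3 := h.s_le j (s := s) hs
    have h3' := h.z_lt
    have h4 := Complex.abs_re_le_norm ((b j : ℂ) ^ (-s))
    have h5 := (abs_le.1 h4).2
    rw [Complex.sub_re, Complex.one_re]
    linarith
  exact ((((differentiableAt_const _).sub h1).clog h2).neg).sub h1

/-- the weighted contribution of the prime powers -/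
noncomputable def hv (b : ℕ → ℝ) (v : ℕ → ℂ) (s : ℂ) : ℂ := ∑' j, v j * ht b j s

theorem Fam.vht_bound {b : ℕ → ℝ} {b0 : ℝ} (h : Fam b b0) {v : ℕ → ℂ} (hv : ∀ j, ‖v j‖ ≤ 1) (j : ℕ) {s : ℂ} {σ : ℝ}
    (hσ : 1 / 2 < σ) (hs : σ ≤ s.re) : ‖v j * ht b j s‖ ≤ kp b0 * (b j) ^ (-(2 * σ)) := by
  rw [norm_mul]
  calc ‖v j‖ * ‖ht b j s‖ ≤ 1 * ‖ht b j s‖ := mul_le_mul_of_nonneg_right (hv j) (norm_nonneg _)
    _ ≤ _ := by rw [one_mul]; exact h.ht_bound j hσ hs

theorem Fam.sum2 {b : ℕ → ℝ} {b0 : ℝ} (h : Fam b b0) {σ : ℝ} (hσ : 1 / 2 < σ) :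
    Summable fun j => kp b0 * (b j) ^ (-(2 * σ)) := (h.sum _ (by linarith)).mul_left _

theorem Fam.hv_summable {b : ℕ → ℝ} {b0 : ℝ} (h : Fam b b0) {v : ℕ → ℂ} (hv' : ∀ j, ‖v j‖ ≤ 1) {s : ℂ}
    (hs : 1 / 2 < s.re) : Summable fun j => v j * ht b j s :=
  Summable.of_norm_bounded (h.sum2 hs) fun j => h.vht_bound hv' j hs le_rfl

theorem Fam.hv_diff {b : ℕ → ℝ} {b0 : ℝ} (h : Fam b b0) {v : ℕ → ℂ} (hv' : ∀ j, ‖v j‖ ≤ 1) :
    DifferentiableOn ℂ (hv b v) {s | 1 / 2 < s.re} := by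
  intro s hs
  have hs' : 1 / 2 < s.re := hs
  obtain ⟨σ, h1, h2⟩ := exists_between hs'
  have hopen : IsOpen {s : ℂ | σ < s.re} := isOpen_lt continuous_const Complex.continuous_re
  have h3 : DifferentiableOn ℂ (fun s => ∑' j, v j * ht b j s) {s | σ < s.re} := by
    refine Complex.differentiableOn_tsum_of_summable_norm (h.sum2 h1)
      (fun j => ((h.ht_diff j).const_mul (v j)).mono fun w hw => ?_) hopen fun j w hw => ?_
    · have hw' : σ < w.re := hw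
      show 1 / 2 < w.re
      linarith
    · exact h.vht_bound hv' j h1 (le_of_lt hw)
  exact (h3.differentiableAt (hopen.mem_nhds h2)).differentiableWithinAt

theorem Fam.hv_norm {b : ℕ → ℝ} {b0 : ℝ} (h : Fam b b0) {v : ℕ → ℂ} (hv' : ∀ j, ‖v j‖ ≤ 1) {s : ℂ} {σ : ℝ}
    (hσ : 1 / 2 < σ) (hs : σ ≤ s.re) : ‖hv b v s‖ ≤ ∑' j, kp b0 * (b j) ^ (-(2 * σ)) :=
  tsum_of_norm_bounded (h.sum2 hσ).hasSum fun j => h.vht_bound hv' j hσ hs

theorem Fam.hv_split {b : ℕ → ℝ} {b0 : ℝ} (h : Fam b b0) {v : ℕ → ℂ} (hv' : ∀ j, ‖v j‖ ≤ 1) {s : ℂ}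
    (hs : 1 < s.re) :
    HasSum (fun j => v j * -Complex.log (1 - (b j : ℂ) ^ (-s))) ((∑' j, v j * (b j : ℂ) ^ (-s)) + hv b v s) := by
  have h1 : Summable fun j => v j * (b j : ℂ) ^ (-s) := by
    refine Summable.of_norm_bounded (h.sum _ hs) fun j => ?_
    rw [norm_mul, h.norm]
    calc ‖v j‖ * (b j) ^ (-s.re) ≤ 1 * (b j) ^ (-s.re) :=
          mul_le_mul_of_nonneg_right (hv' j) (Real.rpow_nonneg (h.pos j).le _)
      _ = _ := one_mul _
  have h2 := h.hv_summable hv' (s := s) (by linarith)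
  have h3 := h1.hasSum.add h2.hasSum
  have e : (fun j => v j * -Complex.log (1 - (b j : ℂ) ^ (-s))) =
      fun j => v j * (b j : ℂ) ^ (-s) + v j * ht b j s := by
    funext j
    unfold ht
    ring
  rw [e]
  exact h3

end Pool.Agent.H49.RH
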