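import Pool.Agent.H49.RH.Cnt
import Pool.Agent.H49.RH.Fam

/-!
# The integers of a family with a slowly growing logarithm of the zeta function
-/

set_option autoImplicit false

open Complex MeasureTheory Filter Topology Set

namespace Pool.Agent.H49.RH

open Pool.Agent.H49.BP (gint one_le_gint fin_le)

theorem pos_res {m : ℕ → ℝ} {m0 θ : ℝ} {G : ℂ → ℂ} (hm : Fam m m0) (hθ : θ < 1)
    (hGd : DifferentiableOn ℂ G {s | θ < s.re})
    (hz : ∀ s : ℂ, 1 < s.re → Complex.exp (∑' j, -Complex.log (1 - (m j : ℂ) ^ (-s))) =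
      s / (s - 1) * Complex.exp (G s)) : ∃ ρ : ℝ, 0 < ρ ∧ Complex.exp (G 1) = (ρ : ℂ) := by
  have hZ : ∀ s : ℂ, 1 < s.re → ∑' n : ℕ, ((gint m (n + 1) : ℝ) : ℂ) ^ (-s) = s / (s - 1) * Complex.exp (G s) :=
    fun s hs => by rw [hm.euler hs, hz s hs]
  have h1U : (1 : ℂ) ∈ {s : ℂ | θ < s.re} := by
    show θ < (1 : ℂ).re
    simpa using hθ
  have hreal : ∀ σ : ℝ, 1 < σ → 0 ≤ (Complex.exp (G σ)).re ∧ (Complex.exp (G σ)).im = 0 := by
    intro σ hσ
    have h1 := hZ σ (by simpa using hσ)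
    have h2 : ∀ n : ℕ, ((gint m (n + 1) : ℝ) : ℂ) ^ (-(σ : ℂ)) = (((gint m (n + 1)) ^ (-σ) : ℝ) : ℂ) := by
      intro n
      rw [Complex.ofReal_cpow (by linarith [one_le_gint hm.one_lt (n + 1)])]
      push_cast
      rfl
    simp only [h2] at h1
    rw [← Complex.ofReal_tsum] at h1
    set S := ∑' n : ℕ, (gint m (n + 1)) ^ (-σ) with hS
    have hS0 : 0 ≤ S := tsum_nonneg fun n => Real.rpow_nonneg (by linarith [one_le_gint hm.one_lt (n + 1)]) _
    have h3 : Complex.exp (G σ) = (((σ - 1) / σ * S : ℝ) : ℂ) := by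
      have hs0 : (σ : ℂ) ≠ 0 := by
        have : σ ≠ 0 := by linarith
        exact_mod_cast this
      have hs1 : (σ : ℂ) - 1 ≠ 0 := by
        have : σ - 1 ≠ 0 := by linarith
        exact_mod_cast this
      push_cast
      rw [h1]
      field_simp
    rw [h3, Complex.ofReal_re, Complex.ofReal_im]
    refine ⟨?_, rfl⟩
    have : 0 ≤ (σ - 1) / σ := div_nonneg (by linarith) (by linarith)
    positivity
  have hcont : ContinuousAt (fun s : ℂ => Complex.exp (G s)) 1 :=
    ((hGd.differentiableAt ((hp_open θ).mem_nhds h1U)).cexp).continuousAt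
  have hlim : Tendsto (fun σ : ℝ => Complex.exp (G σ)) (𝓝[>] 1) (𝓝 (Complex.exp (G 1))) := by
    have h1 : Tendsto (fun σ : ℝ => (σ : ℂ)) (𝓝[>] 1) (𝓝 ((1 : ℝ) : ℂ)) :=
      (Complex.continuous_ofReal.tendsto 1).mono_left nhdsWithin_le_nhds
    rw [Complex.ofReal_one] at h1
    exact hcont.tendsto.comp h1
  have him : (Complex.exp (G 1)).im = 0 := by
    have h1 : Tendsto (fun σ : ℝ => (Complex.exp (G σ)).im) (𝓝[>] 1) (𝓝 (Complex.exp (G 1)).im) :=
      (Complex.continuous_im.tendsto _).comp hlim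
    have h2 : Tendsto (fun σ : ℝ => (Complex.exp (G σ)).im) (𝓝[>] 1) (𝓝 0) := by
      refine tendsto_const_nhds.congr' ?_
      filter_upwards [self_mem_nhdsWithin] with σ hσ
      exact (hreal σ hσ).2.symm
    exact tendsto_nhds_unique h1 h2
  have hre : 0 ≤ (Complex.exp (G 1)).re := by
    have h1 : Tendsto (fun σ : ℝ => (Complex.exp (G σ)).re) (𝓝[>] 1) (𝓝 (Complex.exp (G 1)).re) :=
      (Complex.continuous_re.tendsto _).comp hlim
    refine ge_of_tendsto h1 ?_
    filter_upwards [self_mem_nhdsWithin] with σ hσ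
    exact (hreal σ hσ).1
  set ρ := (Complex.exp (G 1)).re with hρ
  have hρe : Complex.exp (G 1) = (ρ : ℂ) := by
    apply Complex.ext
    · rw [Complex.ofReal_re]
    · rw [Complex.ofReal_im, him]
  refine ⟨ρ, ?_, hρe⟩
  rcases eq_or_lt_of_le hre with h | h
  · exfalso
    rw [← h] at hρe
    exact Complex.exp_ne_zero _ (by rw [hρe]; simp)
  · exact h

theorem card_two {l : ℕ → ℝ} (hl : ∀ n, 1 ≤ l n) (hsum : Summable fun n => (l n) ^ (-2 : ℝ)) :
    ({n | l n ≤ 2}.ncard : ℝ) ≤ 4 * ∑' n, (l n) ^ (-2 : ℝ) := by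
  have hf := fin_le hl hsum 2
  rw [← tsum_mul_left, Set.ncard_eq_toFinset_card _ hf]
  have h1 : ((hf.toFinset.card : ℕ) : ℝ) ≤ ∑ n ∈ hf.toFinset, 4 * (l n) ^ (-2 : ℝ) := by
    rw [← nsmul_one, ← Finset.sum_const]
    refine Finset.sum_le_sum fun n hn => ?_
    rw [Set.Finite.mem_toFinset] at hn
    have h2 : l n ≤ 2 := hn
    have h3 : (2 : ℝ) ^ (-2 : ℝ) ≤ (l n) ^ (-2 : ℝ) :=
      Real.rpow_le_rpow_of_nonpos (by linarith [hl n]) h2 (by norm_num)
    have h4 : (2 : ℝ) ^ (-2 : ℝ) = 1 / 4 := by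
      rw [Real.rpow_neg (by norm_num)]
      norm_num
    rw [h4] at h3
    linarith
  refine h1.trans ((hsum.mul_left 4).sum_le_tsum _ fun n _ => ?_)
  have := Real.rpow_nonneg (show 0 ≤ l n by linarith [hl n]) (-2 : ℝ)
  positivity

theorem count_fam {θ ε : ℝ} (hθ : 1 / 2 ≤ θ) (hε : 0 < ε) (hbig : θ + ε < 1) : ∃ K : ℝ, 0 ≤ K ∧
    ∀ (m : ℕ → ℝ) (m0 : ℝ) (G : ℂ → ℂ) (A : ℝ), Fam m m0 → DifferentiableOn ℂ G {s | θ < s.re} →
    (∀ s : ℂ, 1 < s.re → Complex.exp (∑' j, -Complex.log (1 - (m j : ℂ) ^ (-s))) =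
      s / (s - 1) * Complex.exp (G s)) → Slow G θ →
    (∀ s : ℂ, θ + ε / 2 ≤ s.re → ‖G s‖ ≤ ε / 4 * Real.log (|s.im| + 3) + A) →
    ∃ ρ : ℝ, 0 < ρ ∧ Complex.exp (G 1) = (ρ : ℂ) ∧ ∀ x : ℝ, 1 ≤ x →
      |({n : ℕ | gint m (n + 1) ≤ x}.ncard : ℝ) - ρ * x| ≤ K * Real.exp A * x ^ (θ + ε) := by
  obtain ⟨K, hK0, hK⟩ := count2 (by linarith : 0 < θ) hε hbig
  set r0 := 1 - (θ + ε / 2) with hr0
  have hr00 : 0 < r0 := by linarith
  have hr01 : r0 < 1 := by linarith
  refine ⟨K * ((1 + 1 / r0) * 16) + 2 * 3 + 24, by positivity, fun m m0 G A hm hGd hz hsl hA => ?_⟩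
  obtain ⟨ρ, hρ0, hρe⟩ := pos_res hm (by linarith) hGd hz
  refine ⟨ρ, hρ0, hρe, fun x hx => ?_⟩
  have hZ : ∀ s : ℂ, 1 < s.re → ∑' n : ℕ, ((gint m (n + 1) : ℝ) : ℂ) ^ (-s) = s / (s - 1) * Complex.exp (G s) :=
    fun s hs => by rw [hm.euler hs, hz s hs]
  have h1U : (1 : ℂ) ∈ {s : ℂ | θ < s.re} := by
    show θ < (1 : ℂ).re
    simp
    linarith
  set E : ℂ → ℂ := fun s => Complex.exp (G s) with hE
  have hEd : DifferentiableOn ℂ E {s | θ < s.re} := hGd.cexp
  set R : ℂ → ℂ := fun s => s * dslope E 1 s with hR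
  have hdd : DifferentiableOn ℂ (dslope E 1) {s | θ < s.re} :=
    (Complex.differentiableOn_dslope ((hp_open θ).mem_nhds h1U)).2 hEd
  have hRd : DifferentiableOn ℂ R {s | θ < s.re} := differentiableOn_id.mul hdd
  have hRe : ∀ s : ℂ, s ≠ 1 → R s = s / (s - 1) * (Complex.exp (G s) - ρ) := by
    intro s hs
    rw [hR]
    beta_reduce
    rw [dslope_of_ne _ hs, slope_def_field, hE]
    beta_reduce
    rw [hρe]
    ring
  -- growth of the remainder, general form
  have hgen : ∀ σ δ M r : ℝ, θ < σ → 0 < δ → δ ≤ 1 → 0 < M → 0 < r → r < 1 → σ ≤ 1 - r →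
      (∀ s : ℂ, σ ≤ s.re → ‖G s‖ ≤ δ * Real.log (|s.im| + 3) + Real.log M) →
      ∀ s : ℂ, σ ≤ s.re → ‖R s‖ ≤ ((1 + 1 / r) * 16 * M) * (|s.im| + 3) ^ δ := by
    intro σ δ M r hσ hδ hδ1 hM hr hr1 hσr hb s hs
    have hEb : ∀ s : ℂ, σ ≤ s.re → ‖E s‖ ≤ M * (|s.im| + 3) ^ δ := by
      intro s hs
      simp only [hE]
      rw [Complex.norm_exp]
      calc Real.exp (G s).re ≤ Real.exp (δ * Real.log (|s.im| + 3) + Real.log M) :=
            Real.exp_le_exp.2 ((Complex.re_le_norm _).trans (hb s hs))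
        _ = M * (|s.im| + 3) ^ δ := by
            rw [Real.exp_add, Real.exp_log hM, Real.rpow_def_of_pos (by positivity), mul_comm,
              mul_comm δ]
    have hρb : ρ ≤ M * 3 ^ δ := by
      have h1 := hEb 1 (by simp; linarith)
      simp only [hE] at h1
      rw [hρe, Complex.norm_real, Real.norm_of_nonneg hρ0.le] at h1
      simpa using h1
    have hout : ∀ s : ℂ, σ ≤ s.re → r ≤ ‖s - 1‖ → ‖R s‖ ≤ (1 + 1 / r) * (2 * M * (|s.im| + 3) ^ δ) := by
      intro s hs h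
      have hs1 : s ≠ 1 := by
        intro h1
        rw [h1, sub_self, norm_zero] at h
        linarith
      rw [hRe s hs1, norm_mul]
      have h2 : ‖s / (s - 1)‖ ≤ 1 + 1 / r := by
        rw [norm_div, div_le_iff₀ (by linarith)]
        have h4 : ‖s‖ ≤ ‖s - 1‖ + ‖(1 : ℂ)‖ := by
          have := norm_add_le (s - 1) 1
          simpa using this
        rw [norm_one] at h4
        have h5 : 1 ≤ 1 / r * ‖s - 1‖ := by
          rw [div_mul_eq_mul_div, one_mul, le_div_iff₀ hr]; linarith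
        linarith
      have h3 : ‖Complex.exp (G s) - (ρ : ℂ)‖ ≤ 2 * M * (|s.im| + 3) ^ δ := by
        refine (norm_sub_le _ _).trans ?_
        rw [Complex.norm_real, Real.norm_of_nonneg hρ0.le]
        have h6 := hEb s hs
        have h7 : (3 : ℝ) ^ δ ≤ (|s.im| + 3) ^ δ :=
          Real.rpow_le_rpow (by norm_num) (by linarith [abs_nonneg s.im]) hδ.le
        have h8 : M * 3 ^ δ ≤ M * (|s.im| + 3) ^ δ := mul_le_mul_of_nonneg_left h7 (by linarith)
        simp only [hE] at h6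
        linarith
      exact mul_le_mul h2 h3 (norm_nonneg _) (by positivity)
    have hT1 : 1 ≤ (|s.im| + 3) ^ δ := Real.one_le_rpow (by linarith [abs_nonneg s.im]) hδ.le
    by_cases h : r ≤ ‖s - 1‖
    · refine (hout s hs h).trans ?_
      have : 0 ≤ (1 + 1 / r) * M * (|s.im| + 3) ^ δ := by positivity
      nlinarith
    · push Not at h
      -- maximum principle on the ball
      have hsub : Metric.closedBall (1 : ℂ) r ⊆ {z : ℂ | σ ≤ z.re} := by
        intro z hz
        rw [Metric.mem_closedBall, dist_eq_norm] at hz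
        have h1 := abs_le.1 ((Complex.abs_re_le_norm (z - 1)).trans hz)
        rw [Complex.sub_re, Complex.one_re] at h1
        show σ ≤ z.re
        linarith [h1.1]
      have hdc : DiffContOnCl ℂ R (Metric.ball (1 : ℂ) r) := by
        refine DifferentiableOn.diffContOnCl ?_
        refine hRd.mono fun z hz => ?_
        have := hsub (Metric.closure_ball_subset_closedBall hz)
        exact lt_of_lt_of_le hσ this
      have hmax := Complex.norm_le_of_forall_mem_frontier_norm_le (U := Metric.ball (1 : ℂ) r)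
        Metric.isBounded_ball hdc (C := (1 + 1 / r) * (2 * M * 4)) (fun z hz => by
          rw [frontier_ball _ hr.ne', mem_sphere_iff_norm] at hz
          refine (hout z (hsub (Metric.mem_closedBall.2 (by rw [dist_eq_norm]; exact hz.le))) hz.ge).trans ?_
          have h9 : |z.im| + 3 ≤ 4 := by
            have := Complex.abs_im_le_norm (z - 1)
            rw [Complex.sub_im, Complex.one_im, sub_zero, hz] at this
            linarith
          have h10 : (|z.im| + 3) ^ δ ≤ 4 := by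
            calc (|z.im| + 3) ^ δ ≤ 4 ^ δ := Real.rpow_le_rpow (by positivity) h9 hδ.le
              _ ≤ 4 ^ (1 : ℝ) := Real.rpow_le_rpow_of_exponent_le (by norm_num) hδ1
              _ = 4 := Real.rpow_one _
          have : 0 ≤ 1 + 1 / r := by positivity
          gcongr) (z := s) (subset_closure (by
            rw [Metric.mem_ball, dist_eq_norm]; exact h))
      refine hmax.trans ?_
      have : (1 + 1 / r) * (2 * M * 4) ≤ (1 + 1 / r) * 16 * M := by
        have : 0 ≤ (1 + 1 / r) * M := by positivity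
        nlinarith
      refine this.trans (le_mul_of_one_le_right (by positivity) hT1)
  -- qualitative growth
  have hgr : ∀ σ δ : ℝ, θ < σ → 0 < δ → ∃ C : ℝ, ∀ s : ℂ, σ ≤ s.re → ‖R s‖ ≤ C * (|s.im| + 3) ^ δ := by
    intro σ δ hσ hδ
    set σ' := min σ ((1 + θ) / 2) with hσ'
    have hσ'1 : θ < σ' := lt_min hσ (by linarith)
    have hσ'2 : σ' ≤ (1 + θ) / 2 := min_le_right _ _
    set δ' := min δ 1 with hδ'
    have hδ'0 : 0 < δ' := lt_min hδ one_pos
    obtain ⟨C, hC0, hC⟩ := hsl σ' δ' hσ'1 hδ'0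
    have h1 := hgen σ' δ' (Real.exp C) ((1 - θ) / 2) hσ'1 hδ'0 (min_le_right _ _) (Real.exp_pos _)
      (by linarith) (by linarith) (by linarith) (fun s hs => by
        rw [Real.log_exp]
        exact hC s hs)
    refine ⟨(1 + 1 / ((1 - θ) / 2)) * 16 * Real.exp C, fun s hs => (h1 s ((min_le_left _ _).trans hs)).trans ?_⟩
    refine mul_le_mul_of_nonneg_left ?_ (by
      have : 0 < (1 - θ) / 2 := by linarith
      positivity)
    exact Real.rpow_le_rpow_of_exponent_le (by linarith [abs_nonneg s.im]) (min_le_left _ _)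
  -- the explicit constant
  have hC2 : ∀ s : ℂ, θ + ε / 2 ≤ s.re → ‖R s‖ ≤ ((1 + 1 / r0) * 16 * Real.exp A) * (|s.im| + 3) ^ (ε / 4) := by
    exact hgen (θ + ε / 2) (ε / 4) (Real.exp A) r0 (by linarith) (by linarith) (by linarith) (Real.exp_pos _) hr00
      hr01 (by rw [hr0]; linarith) (fun s hs => by
        rw [Real.log_exp]
        exact hA s hs)
  have hsum2 : Summable fun n => (gint m (n + 1)) ^ (-2 : ℝ) := hm.summable_gint (by norm_num)
  have hmain := hK (fun n => gint m (n + 1)) ρ R (fun n => one_le_gint hm.one_lt _) hsum2 hRd hgr (fun t => by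
    have hs2 : (1 : ℝ) < (((2 : ℝ) : ℂ) + t * I).re := by simp
    have hne : (((2 : ℝ) : ℂ) + t * I) ≠ 1 := by
      intro h
      rw [h] at hs2
      simp at hs2
    rw [hRe _ hne, hZ _ hs2]
    ring) _ hC2 x hx
  refine hmain.trans (mul_le_mul_of_nonneg_right ?_ (by positivity))
  have hEb2 : ∀ s : ℂ, θ + ε / 2 ≤ s.re → s.im = 0 → ‖Complex.exp (G s)‖ ≤ 3 * Real.exp A := by
    intro s hs him
    rw [Complex.norm_exp]
    have h1 := (Complex.re_le_norm _).trans (hA s hs)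
    rw [him, abs_zero, zero_add] at h1
    have h2 : ε / 4 * Real.log 3 ≤ Real.log 3 := by
      have : 0 ≤ Real.log 3 := Real.log_nonneg (by norm_num)
      nlinarith
    calc Real.exp (G s).re ≤ Real.exp (Real.log 3 + A) := Real.exp_le_exp.2 (by linarith)
      _ = 3 * Real.exp A := by rw [Real.exp_add, Real.exp_log (by norm_num)]
  have hρ3 : |ρ| ≤ 3 * Real.exp A := by
    have h1 := hEb2 1 (by simp; linarith) (by simp)
    rw [hρe, Complex.norm_real] at h1
    exact h1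
  have hcard := card_two (l := fun n => gint m (n + 1)) (fun n => one_le_gint hm.one_lt _) hsum2
  have hz2 : ∑' n : ℕ, (gint m (n + 1)) ^ (-2 : ℝ) ≤ 6 * Real.exp A := by
    have h1 := hZ 2 (by norm_num)
    have h2 : ∀ n : ℕ, ((gint m (n + 1) : ℝ) : ℂ) ^ (-(2 : ℂ)) = (((gint m (n + 1)) ^ (-2 : ℝ) : ℝ) : ℂ) := by
      intro n
      rw [Complex.ofReal_cpow (by linarith [one_le_gint hm.one_lt (n + 1)])]
      push_cast
      rfl
    simp only [h2] at h1
    rw [← Complex.ofReal_tsum] at h1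
    have h3 := congrArg norm h1
    rw [Complex.norm_real, norm_mul, Real.norm_of_nonneg (tsum_nonneg fun n =>
      Real.rpow_nonneg (by linarith [one_le_gint hm.one_lt (n + 1)]) _)] at h3
    rw [h3]
    have h4 := hEb2 2 (by simp; linarith) (by simp)
    have h5 : ‖(2 : ℂ) / (2 - 1)‖ = 2 := by norm_num
    rw [h5]
    linarith
  have e : (K * ((1 + 1 / r0) * 16) + 2 * 3 + 24) * Real.exp A =
    K * ((1 + 1 / r0) * 16 * Real.exp A) + 2 * (3 * Real.exp A) + 4 * (6 * Real.exp A) := by ring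
  rw [e]
  linarith

end Pool.Agent.H49.RH
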