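import Pool.Agent.H49.RH.Mix2
import Pool.Agent.H49.RH.CntFam

/-!
# From the zero free half plane to the integers of the mixtures
-/

set_option autoImplicit false

open Complex MeasureTheory Filter Topology Set

namespace Pool.Agent.H49.RH

open Pool.Agent.H49.BP (gint one_le_gint fin_le ht)

/-- the integers of a mixture whose difference of sums over primes has a slowly growing continuation -/
theorem mix_count {b : ℕ → ℝ} {b0 : ℝ} {G : ℂ → ℂ} (hb : Dat b b0 G) (hbi : Function.Injective b) {θ ε : ℝ}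
    (hθ : 1 / 2 ≤ θ) (hε : 0 < ε) (hbig : θ + ε < 1) : ∃ K : ℝ, 0 ≤ K ∧
    ∀ (U : Set ℝ) (m : ℕ → ℝ) (D : ℂ → ℂ) (A : ℝ), Function.Injective m → range m = mixS b U →
    DifferentiableOn ℂ D {s | θ < s.re} →
    (∀ s : ℂ, 1 < s.re → D s = (∑' j, wt pr U j * (pr j : ℂ) ^ (-s)) - ∑' j, wt b U j * (b j : ℂ) ^ (-s)) →
    Slow D θ → (∀ s : ℂ, θ + ε / 2 ≤ s.re → ‖D s‖ ≤ ε / 8 * Real.log (|s.im| + 3) + A) →
    ∃ ρ : ℝ, 0 < ρ ∧ Complex.exp (G 1 + (D 1 + (hv pr (wt pr U) 1 - hv b (wt b U) 1))) = (ρ : ℂ) ∧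
      ∀ x : ℝ, 1 ≤ x → |({n : ℕ | gint m (n + 1) ≤ x}.ncard : ℝ) - ρ * x| ≤ K * Real.exp A * x ^ (θ + ε) := by
  obtain ⟨K, hK0, hK⟩ := count_fam hθ hε hbig
  obtain ⟨CG, hCG⟩ := hb.bound (θ + ε / 2) (ε / 8) (by linarith) (by linarith)
  set Ch := (∑' j, kp 2 * (pr j) ^ (-(2 * (θ + ε / 2)))) + ∑' j, kp b0 * (b j) ^ (-(2 * (θ + ε / 2))) with hCh
  have hsub : {s : ℂ | θ < s.re} ⊆ {s : ℂ | 1 / 2 < s.re} := fun s hs => by
    have : θ < s.re := hs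
    show 1 / 2 < s.re
    linarith
  refine ⟨K * Real.exp (CG + Ch), by positivity, fun U m D A hm hr hDd hDe hDs hDA => ?_⟩
  have hfam := mix_fam hb.fam hbi U hm hr
  have hGd : DifferentiableOn ℂ (fun s => G s + (D s + (hv pr (wt pr U) s - hv b (wt b U) s))) {s | θ < s.re} :=
    (hb.diff.mono hsub).add (hDd.add (((pr_fam.hv_diff (wt_le pr U)).mono hsub).sub
      ((hb.fam.hv_diff (wt_le b U)).mono hsub)))
  have hsplit : ∀ s : ℂ, ‖G s + (D s + (hv pr (wt pr U) s - hv b (wt b U) s))‖ ≤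
      ‖G s‖ + (‖D s‖ + (‖hv pr (wt pr U) s‖ + ‖hv b (wt b U) s‖)) := fun s =>
    (norm_add_le _ _).trans (add_le_add le_rfl ((norm_add_le _ _).trans (add_le_add le_rfl (norm_sub_le _ _))))
  have hslow : Slow (fun s => G s + (D s + (hv pr (wt pr U) s - hv b (wt b U) s))) θ := by
    intro σ δ hσ hδ
    obtain ⟨C1, hC1⟩ := hb.bound σ (δ / 2) (by linarith) (by linarith)
    obtain ⟨C2, hC20, hC2⟩ := hDs σ (δ / 2) hσ (by linarith)
    refine ⟨|C1| + C2 + |(∑' j, kp 2 * (pr j) ^ (-(2 * σ))) + ∑' j, kp b0 * (b j) ^ (-(2 * σ))|, by positivity,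
      fun s hs => ?_⟩
    have e1 := hC1 s hs
    have e2 := hC2 s hs
    have e3 := pr_fam.hv_norm (wt_le pr U) (by linarith : 1 / 2 < σ) hs
    have e4 := hb.fam.hv_norm (wt_le b U) (by linarith : 1 / 2 < σ) hs
    have e5 := le_abs_self C1
    have e6 := le_abs_self ((∑' j, kp 2 * (pr j) ^ (-(2 * σ))) + ∑' j, kp b0 * (b j) ^ (-(2 * σ)))
    refine (hsplit s).trans ?_
    linarith
  obtain ⟨ρ, hρ0, hρe, hρ⟩ := hK m (min 2 b0) (fun s => G s + (D s + (hv pr (wt pr U) s - hv b (wt b U) s)))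
    (CG + A + Ch) hfam hGd (fun s hs => mix_zeta hb hbi U hm hr hs (hDe s hs)) hslow (fun s hs => by
      have e1 := hCG s hs
      have e2 := hDA s hs
      have e3 := pr_fam.hv_norm (wt_le pr U) (by linarith : 1 / 2 < θ + ε / 2) hs
      have e4 := hb.fam.hv_norm (wt_le b U) (by linarith : 1 / 2 < θ + ε / 2) hs
      refine (hsplit s).trans ?_
      linarith)
  refine ⟨ρ, hρ0, hρe, fun x hx => (hρ x hx).trans (le_of_eq ?_)⟩
  rw [show CG + A + Ch = (CG + Ch) + A by ring, Real.exp_add]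
  ring

/-- the integers of the mixtures are well distributed if zeta has no zeros in `Re s > θ` -/
theorem fwd {b : ℕ → ℝ} {b0 : ℝ} {G : ℂ → ℂ} (hb : Dat b b0 G) (hbi : Function.Injective b) (hbs : Short b)
    (hps : Short pr) {θ : ℝ} (hθ : 1 / 2 ≤ θ) (hθ1 : θ < 1) (hz : ∀ s : ℂ, θ < s.re → riemannZeta s ≠ 0) {ε : ℝ}
    (hε : 0 < ε) : ∃ C : ℝ, ∀ (c : ℕ → ℕ), Lac c → ∀ m : ℕ → ℝ, Function.Injective m → range m = mixS b (UU c) →
      ∃ ρ : ℝ, 0 < ρ ∧ ∀ x : ℝ, 1 ≤ x → |({n : ℕ | gint m (n + 1) ≤ x}.ncard : ℝ) - ρ * x| ≤ C * x ^ (θ + ε) := by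
  wlog hbig : θ + ε < 1 generalizing ε with H
  · push Not at hbig
    obtain ⟨C, hC⟩ := H (ε := (1 - θ) / 2) (by linarith) (by linarith)
    refine ⟨C, fun c hc m hm hr => ?_⟩
    obtain ⟨ρ, hρ0, hρ⟩ := hC c hc m hm hr
    refine ⟨ρ, hρ0, fun x hx => (hρ x hx).trans ?_⟩
    have hC0 : 0 ≤ C := by
      have h1 := (abs_nonneg _).trans (hρ 1 le_rfl)
      rw [Real.one_rpow, mul_one] at h1
      exact h1
    exact mul_le_mul_of_nonneg_left (Real.rpow_le_rpow_of_exponent_le hx (by linarith)) hC0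
  obtain ⟨F, hFd, hFe, hFs⟩ := ext hb hθ hθ1 hz
  have hsl : Slow F θ := hFs
  have hT : ∀ σ : ℝ, θ < σ → Tl b F σ := fun σ hσ => tail hb.fam hbs hps hθ hFd hsl hFe hσ
  obtain ⟨K, hK0, hK⟩ := mix_count hb hbi hθ hε hbig
  obtain ⟨A, hA0, hA⟩ := FC_bound (hT (θ + ε / 2) (by linarith)) (ε := ε / 8) (by linarith)
  refine ⟨K * Real.exp A, fun c hc m hm hr => ?_⟩
  obtain ⟨ρ, hρ0, _, hρ⟩ := hK (UU c) m (FC b c) A hm hr (FC_diff hb.fam hT hc) (fun s hs => by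
    obtain ⟨_, _, h2⟩ := FC_bound (hT s.re (by linarith)) (ε := 1) one_pos
    exact FC_eq hb.fam hc hs (h2 c hc s le_rfl).1) (fun σ δ hσ hδ => by
      obtain ⟨C, hC0, h2⟩ := FC_bound (hT σ hσ) hδ
      exact ⟨C, hC0, fun s hs => (h2 c hc s hs).2⟩) (fun s hs => (hA c hc s hs).2)
  exact ⟨ρ, hρ0, hρ⟩

end Pool.Agent.H49.RH
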