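import Pool.Agent.H49.RH.Top
import Pool.Agent.H49.RH.Fwd

/-!
# Zeta is free of zeros if many mixtures are good
-/

set_option autoImplicit false

open Complex MeasureTheory Filter Topology Set

namespace Pool.Agent.H49.RH

/-- a sequence of cuts with prescribed beginning `c0 0, …, c0 k, z, w` and a gap up to `V` -/
def ext3 (φ c0 : ℕ → ℕ) (k z w V j : ℕ) : ℕ :=
  if j ≤ k then c0 j else if j = k + 1 then z else if j = k + 2 then w else φ^[j - (k + 3)] (max (φ w) V)

theorem iterate_ge {φ : ℕ → ℕ} (hφ : ∀ n, n ≤ φ n) (j V : ℕ) : V ≤ φ^[j] V := by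
  induction j with
  | zero => simp
  | succ j ih =>
    rw [Function.iterate_succ_apply']
    exact ih.trans (hφ _)

theorem ext3_mem {φ c0 : ℕ → ℕ} (hc0 : c0 ∈ Cuts φ) {k z w V : ℕ} (hz : φ (c0 k) ≤ z) (hw : φ z ≤ w) :
    ext3 φ c0 k z w V ∈ Cuts φ := by
  constructor
  · unfold ext3
    rw [if_pos (Nat.zero_le k)]
    exact hc0.1
  · intro i
    rcases lt_trichotomy i k with h | h | h
    · unfold ext3
      rw [if_pos (by omega), if_pos (by omega)]
      exact hc0.2 i
    · subst h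
      unfold ext3
      rw [if_pos le_rfl, if_neg (by omega), if_pos rfl]
      exact hz
    · rcases lt_trichotomy i (k + 2) with h2 | h2 | h2
      · have h3 : i = k + 1 := by omega
        subst h3
        unfold ext3
        rw [if_neg (by omega), if_pos rfl, if_neg (by omega), if_neg (by omega), if_pos rfl]
        exact hw
      · subst h2
        unfold ext3
        rw [if_neg (by omega), if_neg (by omega), if_pos rfl, if_neg (by omega), if_neg (by omega),
          if_neg (by omega), show k + 2 + 1 - (k + 3) = 0 by omega, Function.iterate_zero_apply]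
        exact le_max_left _ _
      · unfold ext3
        rw [if_neg (by omega), if_neg (by omega), if_neg (by omega), if_neg (by omega), if_neg (by omega),
          if_neg (by omega), show i + 1 - (k + 3) = (i - (k + 3)) + 1 by omega, Function.iterate_succ_apply']

/-- the beginning of the union of blocks -/
def UB (c0 : ℕ → ℕ) (K : ℕ) : Set ℝ := {x | ∃ i ≤ K, (c0 (2 * i) : ℝ) ≤ x ∧ x < c0 (2 * i + 1)}

theorem UU_ext3 {φ c0 : ℕ → ℕ} (hφ : ∀ n, n ≤ φ n) {K z w V : ℕ} {y : ℝ} (hy : y < V) :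
    y ∈ UU (ext3 φ c0 (2 * K + 1) z w V) ↔ y ∈ UB c0 K ∪ Ico (z : ℝ) (w : ℝ) := by
  have e1 : ∀ i ≤ K, ext3 φ c0 (2 * K + 1) z w V (2 * i) = c0 (2 * i) := fun i hi => by
    unfold ext3
    rw [if_pos (by omega)]
  have e2 : ∀ i ≤ K, ext3 φ c0 (2 * K + 1) z w V (2 * i + 1) = c0 (2 * i + 1) := fun i hi => by
    unfold ext3
    rw [if_pos (by omega)]
  have e3 : ext3 φ c0 (2 * K + 1) z w V (2 * (K + 1)) = z := by
    unfold ext3
    rw [if_neg (by omega), if_pos (by omega)]
  have e4 : ext3 φ c0 (2 * K + 1) z w V (2 * (K + 1) + 1) = w := by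
    unfold ext3
    rw [if_neg (by omega), if_neg (by omega), if_pos (by omega)]
  have e5 : ∀ i, K + 2 ≤ i → V ≤ ext3 φ c0 (2 * K + 1) z w V (2 * i) := fun i hi => by
    unfold ext3
    rw [if_neg (by omega), if_neg (by omega), if_neg (by omega)]
    exact (le_max_right _ _).trans (iterate_ge hφ _ _)
  constructor
  · rintro ⟨i, h1, h2⟩
    rcases lt_trichotomy i (K + 1) with h | h | h
    · left
      refine ⟨i, by omega, ?_, ?_⟩
      · rwa [e1 i (by omega)] at h1
      · rwa [e2 i (by omega)] at h2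
    · right
      subst h
      rw [e3] at h1
      rw [e4] at h2
      exact ⟨h1, h2⟩
    · exfalso
      have h3 : (V : ℝ) ≤ (ext3 φ c0 (2 * K + 1) z w V (2 * i) : ℝ) := by exact_mod_cast e5 i (by omega)
      linarith
  · rintro (⟨i, hi, h1, h2⟩ | ⟨h1, h2⟩)
    · refine ⟨i, ?_, ?_⟩
      · rw [e1 i hi]
        exact h1
      · rw [e2 i hi]
        exact h2
    · refine ⟨K + 1, ?_, ?_⟩
      · rw [e3]
        exact h1
      · rw [e4]
        exact h2

theorem bwd {b : ℕ → ℝ} {b0 : ℝ} {G : ℂ → ℂ} (hb : Dat b b0 G) (hbi : Function.Injective b) (hbs : Short b)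
    (hps : Short pr) {φ : ℕ → ℕ} (hφ : ∀ n, 2 * n ≤ φ n) {θ : ℝ} (hθ : 1 / 2 ≤ θ)
    (h : ¬ IsMeagre {c : Cuts φ | Good θ (mixS b (UU c))}) :
    ∀ s : ℂ, θ < s.re → riemannZeta s ≠ 0 := by
  intro s hs
  by_cases hs1 : 1 ≤ s.re
  · exact riemannZeta_ne_zero_of_one_le_re hs1
  push Not at hs1
  set ε := (s.re - θ) / 2 with hε
  have hε0 : 0 < ε := by rw [hε]; linarith
  obtain ⟨c0, K, n, hK⟩ := cylinder hb.fam hφ h hε0
  set a := 1 - θ - ε with ha
  have ha0 : 0 < a := by rw [ha, hε]; linarith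
  have ha1 : a < 1 / 2 := by rw [ha, hε]; linarith
  have hφ1 : ∀ n, n ≤ φ n := fun n => by have := hφ n; omega
  set z0 := φ ((c0 : ℕ → ℕ) (2 * K + 1)) with hz0
  have hlac := Cuts.lac hφ c0.2
  have hU : ∀ x ∈ UB (c0 : ℕ → ℕ) K, x < z0 := by
    rintro x ⟨i, hi, h1, h2⟩
    have h3 : (c0 : ℕ → ℕ) (2 * i + 1) ≤ z0 := (hlac.mono.monotone (by omega)).trans (hφ1 _)
    have h4 : ((c0 : ℕ → ℕ) (2 * i + 1) : ℝ) ≤ z0 := by exact_mod_cast h3
    linarith
  have hB : ∀ z w : ℕ, z0 ≤ z → φ z ≤ w → Cau (mixS b (UB (c0 : ℕ → ℕ) K ∪ Ico (z : ℝ) (w : ℝ))) a n := by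
    intro z w hz hw x y hx hy
    obtain ⟨V, hV⟩ := exists_nat_gt (max x y)
    have hxV : x < V := (le_max_left _ _).trans_lt hV
    have hyV : y < V := (le_max_right _ _).trans_lt hV
    have h1 := hK ⟨ext3 φ c0 (2 * K + 1) z w V, ext3_mem c0.2 hz hw⟩ (fun j hj => by
      show ext3 φ c0 (2 * K + 1) z w V j = _
      unfold ext3
      rw [if_pos (by omega)]) x y hx hy
    rw [mix_agree hb.fam (U := UU (ext3 φ c0 (2 * K + 1) z w V)) (x := x) (fun t ht => UU_ext3 hφ1 (by linarith)),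
      mix_agree hb.fam (U := UU (ext3 φ c0 (2 * K + 1) z w V)) (x := y) (fun t ht => UU_ext3 hφ1 (by linarith))] at h1
    exact h1
  have hA : Cau (mixS b (UB (c0 : ℕ → ℕ) K)) a n := by
    intro x y hx hy
    obtain ⟨V, hV⟩ := exists_nat_gt (max x y)
    have hxV : x < V := (le_max_left _ _).trans_lt hV
    have hyV : y < V := (le_max_right _ _).trans_lt hV
    have h1 := hB (max z0 V) (φ (max z0 V)) (le_max_left _ _) le_rfl x y hx hy
    have h2 : (V : ℝ) ≤ (max z0 V : ℕ) := by exact_mod_cast le_max_right _ _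
    have h3 : ∀ t : ℝ, t < V → (t ∈ UB (c0 : ℕ → ℕ) K ↔
        t ∈ UB (c0 : ℕ → ℕ) K ∪ Ico ((max z0 V : ℕ) : ℝ) (φ (max z0 V) : ℕ)) := by
      intro t ht
      constructor
      · exact fun h => Or.inl h
      · rintro (h | h)
        · exact h
        · exfalso
          have := h.1
          linarith
    rw [← mix_agree hb.fam (U := UB (c0 : ℕ → ℕ) K) (x := x) (fun t ht => h3 t (by linarith)),
      ← mix_agree hb.fam (U := UB (c0 : ℕ → ℕ) K) (x := y) (fun t ht => h3 t (by linarith))] at h1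
    exact h1
  obtain ⟨C, z1, hz1, hC⟩ := step hb hbi hU ha0 ha1.le (Nat.cast_nonneg n) hφ1 hA hB
  obtain ⟨l, C', hC'⟩ := rate hb.fam hbs hps ha0 ha1 hz1 hC
  exact free_of_rate hb ha0 ha1.le hC' s (by rw [ha, hε]; linarith)

/-- the set of the sequences of cuts is closed -/
theorem Cuts.closed (φ : ℕ → ℕ) : IsClosed (Cuts φ) := by
  have e : Cuts φ = {c : ℕ → ℕ | 0 < c 0} ∩ ⋂ i, {c : ℕ → ℕ | φ (c i) ≤ c (i + 1)} := by
    ext c
    simp [Cuts]
  rw [e]
  refine IsClosed.inter ?_ (isClosed_iInter fun i => ?_)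
  · exact (isClosed_discrete {n : ℕ | 0 < n}).preimage (continuous_apply 0)
  · have h1 : IsClosed {p : ℕ × ℕ | φ p.1 ≤ p.2} := isClosed_discrete _
    have h2 : Continuous fun c : ℕ → ℕ => (c i, c (i + 1)) := (continuous_apply i).prodMk (continuous_apply (i + 1))
    exact h1.preimage h2

theorem Cuts.nonempty (φ : ℕ → ℕ) : (Cuts φ).Nonempty :=
  ⟨fun i => Nat.rec 1 (fun _ n => φ n) i, Nat.one_pos, fun _ => le_rfl⟩

theorem Cuts.not_meagre (φ : ℕ → ℕ) : ¬ IsMeagre (univ : Set (Cuts φ)) := by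
  have h1 : TopologicalSpace.IsCompletelyMetrizableSpace (Cuts φ) := (Cuts.closed φ).isCompletelyMetrizableSpace
  let _ := TopologicalSpace.upgradeIsCompletelyMetrizable (Cuts φ)
  have : Nonempty (Cuts φ) := (Cuts.nonempty φ).to_subtype
  exact not_isMeagre_of_isOpen isOpen_univ univ_nonempty

end Pool.Agent.H49.RH
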