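import Pool.Agent.H49.RH.Tail
import Pool.Agent.H49.BP.Count

/-!
# The counting function of the integers, with explicit constants
-/

set_option autoImplicit false

open Complex MeasureTheory Filter Topology Set

namespace Pool.Agent.H49.RH

open Pool.Agent.H49.BP (gint one_le_gint hh hh_bd hh_diff hh_int int_pow den_bd K_bd shift riesz fin_le)

/-- the difference of the Riesz means: the error term -/
theorem diff_bd2 {θ ε : ℝ} (hθ : 0 < θ) (hε : 0 < ε) (hbig : θ + ε < 1) : ∃ K : ℝ, 0 ≤ K ∧ ∀ (G : ℂ → ℂ),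
    DifferentiableOn ℂ G {s | θ < s.re} →
    (∀ σ ε : ℝ, θ < σ → 0 < ε → ∃ C : ℝ, ∀ s : ℂ, σ ≤ s.re → ‖G s‖ ≤ C * (|s.im| + 3) ^ ε) →
    ∀ C₂ : ℝ, (∀ s : ℂ, θ + ε / 2 ≤ s.re → ‖G s‖ ≤ C₂ * (|s.im| + 3) ^ (ε / 4)) →
    ∀ x : ℝ, 1 ≤ x → ‖(∫ t : ℝ, hh G (x + 1) (((2 : ℝ) : ℂ) + t * I)) -
      ∫ t : ℝ, hh G x (((2 : ℝ) : ℂ) + t * I)‖ ≤ K * C₂ * x ^ (θ + ε) := by
  set σ := θ + ε / 2 with hσ
  set η := ε / 2 with hη
  have hη0 : 0 < η := by positivity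
  have hη1 : η ≤ 1 := by linarith
  have hσ0 : 0 < σ := by positivity
  have hσ1 : σ < 1 := by linarith
  have hθσ : θ < σ := by linarith
  have e4 : ε / 4 = η / 2 := by rw [hη]; ring
  set κ := 1 + 3 / σ with hκ
  have hκ0 : 0 < κ := by positivity
  set J := ∫ t : ℝ, (|t| + 3) ^ (-(1 + η / 2)) with hJ
  have hJ0 : 0 ≤ J := integral_nonneg fun t => by positivity
  refine ⟨8 * κ ^ (1 + η) * J, by positivity, fun G hd hgr C₂ hC₂ x hx1 => ?_⟩
  rw [e4] at hC₂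
  obtain ⟨C₁, hC₁⟩ := hgr σ (1 / 2) hθσ (by norm_num)
  have hC20 : 0 ≤ C₂ := by
    have h1 := (norm_nonneg _).trans (hC₂ (σ : ℂ) (by simp))
    have h2 : 0 < (|((σ : ℂ)).im| + 3) ^ (η / 2) := by positivity
    by_contra h
    push Not at h
    nlinarith
  have hRz : ∀ y : ℝ, 1 ≤ y → ∫ t : ℝ, hh G y (((2 : ℝ) : ℂ) + t * I) =
      ∫ t : ℝ, hh G y ((σ : ℂ) + t * I) := by
    intro y hy
    exact (shift (hh G y) θ σ 2 (C₁ * (1 + 3 / σ) ^ 2 * y ^ (3 : ℝ)) hθσ (by linarith)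
      (hh_diff hθ (by linarith) hd) (fun s hs hs2 => hh_bd hσ0 hy hC₁ s hs hs2)).symm
  have hx0 : (0 : ℝ) < x := by linarith
  rw [hRz _ (by linarith), hRz _ hx1, ← integral_sub (hh_int hθ hθσ (by linarith) hd hC₁ le_rfl (by linarith))
      (hh_int hθ hθσ hx1 hd hC₁ le_rfl (by linarith))]
  have hpt : ∀ t : ℝ, ‖hh G (x + 1 : ℝ) ((σ : ℂ) + t * I) - hh G x ((σ : ℂ) + t * I)‖ ≤
      (8 * C₂ * κ ^ (1 + η) * x ^ (θ + ε)) * (|t| + 3) ^ (-(1 + η / 2)) := by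
    intro t
    set s : ℂ := (σ : ℂ) + t * I with hs
    have hsre : s.re = σ := by simp [hs]
    have hsim : s.im = t := by simp [hs]
    have hs0 : s ≠ 0 := by
      intro h; rw [h] at hsre; simp at hsre; linarith
    have hs1 : s + 1 ≠ 0 := by
      intro h
      have := congrArg Complex.re h
      simp [hsre] at this
      linarith
    obtain ⟨b1, b2⟩ := den_bd hσ0 hsre.ge
    rw [hsim] at b1 b2
    set T := |t| + 3 with hT
    have hT0 : 0 < T := by positivity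
    have hk := K_bd (x := x) hσ0 hσ1 hη0 hη1 hx1 hsre
    have hg := hC₂ s hsre.ge
    rw [hsim] at hg
    have e : hh G (x + 1 : ℝ) s - hh G x s =
        G s * (((x + 1 : ℝ) : ℂ) ^ (s + 1) - (x : ℂ) ^ (s + 1)) / (s + 1) / s := by
      unfold hh
      field_simp
    rw [e, norm_div, mul_div_assoc, norm_mul]
    have hsn : 0 < ‖s‖ := norm_pos_iff.2 hs0
    have hsn1 : 0 < ‖s + 1‖ := norm_pos_iff.2 hs1
    have c1 : 1 / ‖s‖ ≤ κ / T := by
      rw [div_le_div_iff₀ hsn hT0]; linarith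
    have c2 : x / ‖s + 1‖ ≤ κ * x / T := by
      rw [div_le_div_iff₀ hsn1 hT0]
      nlinarith
    have c3 : (x / ‖s + 1‖) ^ η ≤ κ ^ η * x ^ η * T ^ (-η) := by
      calc (x / ‖s + 1‖) ^ η ≤ (κ * x / T) ^ η :=
            Real.rpow_le_rpow (by positivity) c2 hη0.le
        _ = κ ^ η * x ^ η * T ^ (-η) := by
            rw [Real.div_rpow (by positivity) hT0.le, Real.mul_rpow hκ0.le hx0.le,
              Real.rpow_neg hT0.le, div_eq_mul_inv]
    calc ‖G s‖ * ‖(((x + 1 : ℝ) : ℂ) ^ (s + 1) - (x : ℂ) ^ (s + 1)) / (s + 1)‖ / ‖s‖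
        = ‖G s‖ * ‖(((x + 1 : ℝ) : ℂ) ^ (s + 1) - (x : ℂ) ^ (s + 1)) / (s + 1)‖ *
          (1 / ‖s‖) := by ring
      _ ≤ (C₂ * T ^ (η / 2)) * (8 * x ^ σ * (κ ^ η * x ^ η * T ^ (-η))) * (κ / T) := by
          have : ‖(((x + 1 : ℝ) : ℂ) ^ (s + 1) - (x : ℂ) ^ (s + 1)) / (s + 1)‖ ≤
              8 * x ^ σ * (κ ^ η * x ^ η * T ^ (-η)) :=
            hk.trans (mul_le_mul_of_nonneg_left c3 (by positivity))
          gcongr
      _ = (8 * C₂ * (κ ^ η * κ) * (x ^ σ * x ^ η)) *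
          (T ^ (η / 2) * T ^ (-η) * T⁻¹) := by ring
      _ = (8 * C₂ * κ ^ (1 + η) * x ^ (θ + ε)) * T ^ (-(1 + η / 2)) := by
          congr 1
          · congr 1
            · congr 1
              rw [add_comm (1 : ℝ) η, Real.rpow_add hκ0, Real.rpow_one]
            · rw [← Real.rpow_add hx0]
              congr 1
              rw [hσ, hη]; ring
          · rw [← Real.rpow_add hT0, ← Real.rpow_neg_one, ← Real.rpow_add hT0]
            congr 1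
            ring
  have hfin : ‖∫ t : ℝ, (hh G (x + 1 : ℝ) ((σ : ℂ) + t * I) - hh G x ((σ : ℂ) + t * I))‖ ≤
      (8 * C₂ * κ ^ (1 + η) * x ^ (θ + ε)) * J := by
    rw [hJ, ← integral_const_mul]
    exact norm_integral_le_of_norm_le ((int_pow (by linarith)).const_mul _)
      (Eventually.of_forall hpt)
  refine hfin.trans (le_of_eq ?_)
  ring

/-- the counting function -/
theorem count2 {θ ε : ℝ} (hθ : 0 < θ) (hε : 0 < ε) (hbig : θ + ε < 1) : ∃ K : ℝ, 0 ≤ K ∧ ∀ (l : ℕ → ℝ) (ρ : ℝ)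
    (G : ℂ → ℂ), (∀ n, 1 ≤ l n) → (Summable fun n => (l n) ^ (-2 : ℝ)) → DifferentiableOn ℂ G {s | θ < s.re} →
    (∀ σ ε : ℝ, θ < σ → 0 < ε → ∃ C : ℝ, ∀ s : ℂ, σ ≤ s.re → ‖G s‖ ≤ C * (|s.im| + 3) ^ ε) →
    (∀ t : ℝ, G (((2 : ℝ) : ℂ) + t * I) = (∑' n, (l n : ℂ) ^ (-(((2 : ℝ) : ℂ) + t * I))) -
      ρ * ((((2 : ℝ) : ℂ) + t * I) / ((((2 : ℝ) : ℂ) + t * I) - 1))) →
    ∀ C₂ : ℝ, (∀ s : ℂ, θ + ε / 2 ≤ s.re → ‖G s‖ ≤ C₂ * (|s.im| + 3) ^ (ε / 4)) →
    ∀ x : ℝ, 1 ≤ x → |({n | l n ≤ x}.ncard : ℝ) - ρ * x| ≤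
      (K * C₂ + 2 * |ρ| + ({n | l n ≤ 2}.ncard : ℝ)) * x ^ (θ + ε) := by
  obtain ⟨K, hK0, hK⟩ := diff_bd2 hθ hε hbig
  refine ⟨K, hK0, fun l ρ G hl hsum hd hgr hG C₂ hC₂ x hx => ?_⟩
  set C := K * C₂ with hCd
  have hC : ∀ x : ℝ, 1 ≤ x → ‖(∫ t : ℝ, hh G (x + 1) (((2 : ℝ) : ℂ) + t * I)) -
      ∫ t : ℝ, hh G x (((2 : ℝ) : ℂ) + t * I)‖ ≤ C * x ^ (θ + ε) := hK G hd hgr C₂ hC₂
  have hR := fun {x : ℝ} (hx : 1 ≤ x) => riesz hl hsum hG hx
  set E : ℝ → ℂ := fun x => ∫ t : ℝ, hh G x (((2 : ℝ) : ℂ) + t * I) with hE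
  have hkey : ∀ x : ℝ, 1 ≤ x → HasSum (fun n => max (x + 1 - l n) 0 - max (x - l n) 0)
      (ρ * (x + 1 / 2) + (1 / (2 * Real.pi) * (E (x + 1) - E x)).re) := by
    intro x hx
    have h1 := (hR (x := x + 1) (by linarith)).sub (hR hx)
    have h2 := Complex.hasSum_re h1
    have e : (ρ * ((((x + 1) ^ 2 - 1) / 2 : ℝ) : ℂ) + 1 / (2 * Real.pi) * E (x + 1) -
          (ρ * (((x ^ 2 - 1) / 2 : ℝ) : ℂ) + 1 / (2 * Real.pi) * E x)) =
          ((ρ * (x + 1 / 2) : ℝ) : ℂ) + 1 / (2 * Real.pi) * (E (x + 1) - E x) := by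
      push_cast
      ring
    have e4 : ρ * (x + 1 / 2) + (1 / (2 * Real.pi) * (E (x + 1) - E x)).re =
        (ρ * ((((x + 1) ^ 2 - 1) / 2 : ℝ) : ℂ) + 1 / (2 * Real.pi) * E (x + 1) -
          (ρ * (((x ^ 2 - 1) / 2 : ℝ) : ℂ) + 1 / (2 * Real.pi) * E x)).re := by
      rw [e, Complex.add_re, Complex.ofReal_re]
    rw [e4]
    exact h2
  have hEb : ∀ x : ℝ, 1 ≤ x → |(1 / (2 * Real.pi) * (E (x + 1) - E x)).re| ≤ C * x ^ (θ + ε) := by
    intro x hx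
    refine (Complex.abs_re_le_norm _).trans ?_
    rw [norm_mul]
    have hn : ‖(1 / (2 * Real.pi) : ℂ)‖ ≤ 1 := by
      rw [norm_div, norm_mul, Complex.norm_real, Real.norm_of_nonneg Real.pi_pos.le]
      simp only [norm_one, RCLike.norm_ofNat]
      rw [div_le_one (by positivity)]
      linarith [Real.pi_gt_three]
    calc ‖(1 / (2 * Real.pi) : ℂ)‖ * ‖E (x + 1) - E x‖ ≤ 1 * ‖E (x + 1) - E x‖ :=
          mul_le_mul_of_nonneg_right hn (norm_nonneg _)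
      _ ≤ C * x ^ (θ + ε) := by rw [one_mul]; exact hC x hx
  have hcnt : ∀ x : ℝ, HasSum (fun n => if l n ≤ x then (1 : ℝ) else 0) ({n | l n ≤ x}.ncard : ℝ) := by
    intro x
    have hf := fin_le hl hsum x
    have h1 : HasSum (fun n => if l n ≤ x then (1 : ℝ) else 0) (∑ n ∈ hf.toFinset, if l n ≤ x then (1 : ℝ) else 0) :=
      hasSum_sum_of_ne_finset_zero (fun n hn => by
        rw [Set.Finite.mem_toFinset] at hn
        exact if_neg hn)
    have h2 : (∑ n ∈ hf.toFinset, if l n ≤ x then (1 : ℝ) else 0) = ({n | l n ≤ x}.ncard : ℝ) := by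
      rw [Set.ncard_eq_toFinset_card _ hf, Finset.sum_congr rfl (fun n hn => by
        rw [Set.Finite.mem_toFinset] at hn
        exact if_pos hn : ∀ n ∈ hf.toFinset, (if l n ≤ x then (1 : ℝ) else 0) = 1)]
      simp
    rw [← h2]
    exact h1
  have hup : ∀ x : ℝ, 1 ≤ x → ({n | l n ≤ x}.ncard : ℝ) ≤ ρ * (x + 1 / 2) + C * x ^ (θ + ε) := by
    intro x hx
    have h1 := hasSum_le (fun n => (by
      split_ifs with h
      · rw [max_eq_left (by linarith), max_eq_left (by linarith)]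
        linarith
      · exact sub_nonneg.2 (max_le_max (by linarith) le_rfl) :
      (if l n ≤ x then (1 : ℝ) else 0) ≤ max (x + 1 - l n) 0 - max (x - l n) 0)) (hcnt x) (hkey x hx)
    have h2 := (abs_le.1 (hEb x hx)).2
    linarith
  have hlow : ∀ x : ℝ, 2 ≤ x → ρ * (x - 1 / 2) - C * x ^ (θ + ε) ≤ ({n | l n ≤ x}.ncard : ℝ) := by
    intro x hx
    have hk := hkey (x - 1) (by linarith)
    have h1 := hasSum_le (fun n => (by
      split_ifs with h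
      · rcases le_total (l n) (x - 1) with h' | h'
        · rw [max_eq_left (by linarith), max_eq_left (by linarith)]
          linarith
        · rw [max_eq_left (by linarith), max_eq_right (by linarith)]
          linarith
      · push Not at h
        rw [max_eq_right (by linarith), max_eq_right (by linarith)]
        simp :
      max (x - 1 + 1 - l n) 0 - max (x - 1 - l n) 0 ≤ (if l n ≤ x then (1 : ℝ) else 0))) hk (hcnt x)
    have h2 := (abs_le.1 (hEb (x - 1) (by linarith))).1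
    have hC0 : 0 ≤ C := by
      have h3 := (abs_nonneg _).trans (hEb 1 le_rfl)
      rw [Real.one_rpow, mul_one] at h3
      exact h3
    have h4 : C * (x - 1) ^ (θ + ε) ≤ C * x ^ (θ + ε) :=
      mul_le_mul_of_nonneg_left (Real.rpow_le_rpow (by linarith) (by linarith) (by linarith)) hC0
    have h5 : x - 1 + 1 = x := by ring
    rw [h5] at h1 h2
    nlinarith
  -- final bound
  have hC0 : 0 ≤ C := by
    have h3 := (abs_nonneg _).trans (hEb 1 le_rfl)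
    rw [Real.one_rpow, mul_one] at h3
    exact h3
  have hp1 : 1 ≤ x ^ (θ + ε) := Real.one_le_rpow hx (by linarith)
  have hN2 : (0 : ℝ) ≤ ({n | l n ≤ 2}.ncard : ℝ) := Nat.cast_nonneg _
  have hr1 := le_abs_self ρ
  have hr2 := neg_abs_le ρ
  have hr0 := abs_nonneg ρ
  have hexp : (C + 2 * |ρ| + ({n | l n ≤ 2}.ncard : ℝ)) * x ^ (θ + ε) =
    C * x ^ (θ + ε) + 2 * |ρ| * x ^ (θ + ε) + ({n | l n ≤ 2}.ncard : ℝ) * x ^ (θ + ε) := by ring
  have hq1 : 2 * |ρ| ≤ 2 * |ρ| * x ^ (θ + ε) := le_mul_of_one_le_right (by positivity) hp1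
  have hq2 : ({n | l n ≤ 2}.ncard : ℝ) ≤ ({n | l n ≤ 2}.ncard : ℝ) * x ^ (θ + ε) :=
    le_mul_of_one_le_right hN2 hp1
  have hq3 : 0 ≤ C * x ^ (θ + ε) := by positivity
  rw [hexp, abs_le]
  constructor
  · rcases le_total 2 x with h | h
    · have := hlow x h
      nlinarith
    · have h6 : (0 : ℝ) ≤ ({n | l n ≤ x}.ncard : ℝ) := Nat.cast_nonneg _
      have h7 : ρ * x ≤ 2 * |ρ| := by nlinarith
      linarith
  · have := hup x hx
    nlinarith

end Pool.Agent.H49.RH
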