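import Mathlib

/-!
# Holomorphic logarithms in half planes and their growth
-/

set_option autoImplicit false

open Filter Topology Set Complex

namespace Pool.Agent.H49.RH

theorem hp_open (θ : ℝ) : IsOpen {s : ℂ | θ < s.re} := isOpen_lt continuous_const Complex.continuous_re

theorem hp_conn (θ : ℝ) : IsPreconnected {s : ℂ | θ < s.re} := (convex_halfSpace_re_gt θ).isPreconnected

theorem hlog {θ : ℝ} {Z : ℂ → ℂ} (hZ : DifferentiableOn ℂ Z {s | θ < s.re}) (h0 : ∀ s : ℂ, θ < s.re → Z s ≠ 0) :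
    ∃ L : ℂ → ℂ, DifferentiableOn ℂ L {s | θ < s.re} ∧ ∀ s : ℂ, θ < s.re → Complex.exp (L s) = Z s := by
  have hne : {s : ℂ | θ < s.re}.Nonempty := ⟨((θ + 1 : ℝ) : ℂ), by
    show θ < (((θ + 1 : ℝ) : ℂ)).re
    rw [Complex.ofReal_re]
    linarith⟩
  have hc : ContractibleSpace {s : ℂ | θ < s.re} := (convex_halfSpace_re_gt θ).contractibleSpace hne
  have hs : IsSimplyConnected {s : ℂ | θ < s.re} := SimplyConnectedSpace.ofContractible _
  obtain ⟨L, hL, hE⟩ := Complex.exists_continuousOn_eqOn_exp_comp hs (hp_open θ) hZ.continuousOn (by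
    rintro ⟨z, hz, hz0⟩
    exact h0 z hz hz0)
  have hE' : ∀ s : ℂ, θ < s.re → Complex.exp (L s) = Z s := fun s hs => hE hs
  refine ⟨L, fun s hs => ?_, hE'⟩
  have hs' : θ < s.re := hs
  have hU := (hp_open θ).mem_nhds hs
  have hLc : ContinuousAt L s := hL.continuousAt hU
  have hZd : DifferentiableAt ℂ Z s := hZ.differentiableAt hU
  have hev : L =ᶠ[𝓝 s] fun z => L s + Complex.log (Z z / Z s) := by
    have h1 : ∀ᶠ z in 𝓝 s, ‖L z - L s‖ < 1 := by
      have := Metric.continuousAt_iff'.1 hLc 1 one_pos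
      simpa only [dist_eq_norm] using this
    filter_upwards [h1, hU] with z hz hzU
    have h2 : Z z / Z s = Complex.exp (L z - L s) := by
      rw [Complex.exp_sub, hE' z hzU, hE' s hs']
    have h3 : |(L z - L s).im| < 1 := lt_of_le_of_lt (Complex.abs_im_le_norm _) hz
    have h4 := abs_lt.1 h3
    rw [h2, Complex.log_exp (by linarith [Real.pi_gt_three]) (by linarith [Real.pi_gt_three])]
    ring
  have hd : DifferentiableAt ℂ (fun z => L s + Complex.log (Z z / Z s)) s := by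
    refine (differentiableAt_const _).add (DifferentiableAt.clog (hZd.div_const _) ?_)
    rw [div_self (h0 s hs')]
    exact Complex.one_mem_slitPlane
  exact (hev.differentiableAt_iff.2 hd).differentiableWithinAt

theorem log_unique {U : Set ℂ} (hU : IsOpen U) (hc : IsPreconnected U) {f g : ℂ → ℂ} (hf : DifferentiableOn ℂ f U)
    (hg : DifferentiableOn ℂ g U) (h : ∀ s ∈ U, Complex.exp (f s) = Complex.exp (g s)) :
    ∃ c : ℂ, c.re = 0 ∧ ∀ s ∈ U, f s = g s + c := by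
  have hd : DifferentiableOn ℂ (fun s => f s - g s) U := hf.sub hg
  have he : ∀ s ∈ U, Complex.exp (f s - g s) = 1 := by
    intro s hs
    rw [Complex.exp_sub, h s hs, div_self (Complex.exp_ne_zero _)]
  have hder : U.EqOn (deriv fun s => f s - g s) 0 := by
    intro s hs
    have h1 : HasDerivAt (fun s => f s - g s) (deriv (fun s => f s - g s) s) s :=
      (hd.differentiableAt (hU.mem_nhds hs)).hasDerivAt
    have h2 := h1.cexp.deriv
    have h3 : deriv (fun s => Complex.exp (f s - g s)) s = 0 := by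
      have : (fun s => Complex.exp (f s - g s)) =ᶠ[𝓝 s] fun _ => 1 := by
        filter_upwards [hU.mem_nhds hs] with z hz
        exact he z hz
      rw [this.deriv_eq, deriv_const]
    rw [h3] at h2
    rcases mul_eq_zero.1 h2.symm with h4 | h4
    · exact absurd h4 (Complex.exp_ne_zero _)
    · exact h4
  obtain ⟨c, hc'⟩ := hU.exists_is_const_of_deriv_eq_zero hc hd hder
  rcases U.eq_empty_or_nonempty with h0 | ⟨s0, hs0⟩
  · exact ⟨0, rfl, fun s hs => by rw [h0] at hs; exact absurd hs (notMem_empty _)⟩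
  · refine ⟨c, ?_, fun s hs => ?_⟩
    · have h1 := he s0 hs0
      have h2 := hc' s0 hs0
      rw [h2] at h1
      have h3 := congrArg norm h1
      rw [Complex.norm_exp, norm_one] at h3
      exact (Real.exp_eq_one_iff _).1 h3
    · have := hc' s hs
      linear_combination this

theorem log_ge_one (t : ℝ) : 1 ≤ Real.log (|t| + 3) := by
  rw [Real.le_log_iff_exp_le (by positivity)]
  have := Real.exp_one_lt_d9
  have := abs_nonneg t
  linarith

/-- the step of Borel and Carathéodory -/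
theorem grow1 {θ : ℝ} (hθ : 0 ≤ θ) {H : ℂ → ℂ} (hH : DifferentiableOn ℂ H {s | θ < s.re})
    (h1 : ∀ σ : ℝ, θ < σ → ∃ A : ℝ, ∀ s : ℂ, σ ≤ s.re → s.re ≤ 4 → (H s).re ≤ A * Real.log (|s.im| + 3))
    {B : ℝ} (h2 : ∀ s : ℂ, 3 / 2 ≤ s.re → ‖H s‖ ≤ B) {σ : ℝ} (hσ : θ < σ) (hσ2 : σ < 3 / 2) :
    ∃ A : ℝ, 0 ≤ A ∧ ∀ s : ℂ, σ ≤ s.re → s.re ≤ 2 → ‖H s‖ ≤ A * Real.log (|s.im| + 3) := by
  have hB0 : 0 ≤ B := (norm_nonneg _).trans (h2 2 (by norm_num))
  obtain ⟨A', hA'⟩ := h1 ((θ + σ) / 2) (by linarith)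
  set A := |A'| + 1 with hA
  have hA0 : 0 < A := by positivity
  have hA'' : ∀ s : ℂ, (θ + σ) / 2 ≤ s.re → s.re ≤ 4 → (H s).re ≤ A * Real.log (|s.im| + 3) := by
    intro s hs1 hs2
    refine (hA' s hs1 hs2).trans ?_
    have := log_ge_one s.im
    have := le_abs_self A'
    exact mul_le_mul_of_nonneg_right (by rw [hA]; linarith) (by linarith)
  set R : ℝ := 2 - (θ + σ) / 2 with hR
  set r : ℝ := 2 - σ with hr
  have hrR : r < R := by rw [hr, hR]; linarith
  have hr0 : 0 < r := by rw [hr]; linarith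
  refine ⟨(2 * (2 * A) * r + B * (R + r)) / (R - r), by
    have : 0 < R - r := by linarith
    have : 0 < R := by linarith
    positivity, fun s hs1 hs2 => ?_⟩
  set t := s.im with ht
  set ℓ := Real.log (|t| + 3) with hℓ
  have hℓ1 : 1 ≤ ℓ := log_ge_one t
  set c : ℂ := (2 : ℂ) + t * I with hc
  have hcre : c.re = 2 := by simp [hc]
  have hcim : c.im = t := by simp [hc]
  have hball : ∀ z ∈ Metric.ball (0 : ℂ) R, (θ + σ) / 2 < (c + z).re ∧ (c + z).re ≤ 4 ∧ |(c + z).im| ≤ |t| + 2 := by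
    intro z hz
    rw [mem_ball_zero_iff] at hz
    have e1 := abs_le.1 ((Complex.abs_re_le_norm z).trans hz.le)
    have e1' := abs_lt.1 (lt_of_le_of_lt (Complex.abs_re_le_norm z) hz)
    have e2 := (Complex.abs_im_le_norm z).trans hz.le
    have hR2 : R ≤ 2 := by rw [hR]; linarith
    refine ⟨?_, ?_, ?_⟩
    · rw [Complex.add_re, hcre]; linarith
    · rw [Complex.add_re, hcre]; linarith
    · rw [Complex.add_im, hcim]
      exact (abs_add_le _ _).trans (by linarith)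
  have hd : DifferentiableOn ℂ (fun z => H (c + z)) (Metric.ball 0 R) := by
    refine hH.comp (by fun_prop) ?_
    intro z hz
    show θ < (c + z).re
    have := (hball z hz).1
    linarith
  have hmap : Set.MapsTo (fun z => H (c + z)) (Metric.ball 0 R) {z | z.re ≤ 2 * A * ℓ} := by
    intro z hz
    obtain ⟨g1, g2, g3⟩ := hball z hz
    show (H (c + z)).re ≤ 2 * A * ℓ
    refine (hA'' _ g1.le g2).trans ?_
    have h5 : Real.log (|(c + z).im| + 3) ≤ 2 * ℓ := by
      rw [hℓ]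
      have e3 : (2 : ℝ) * Real.log (|t| + 3) = Real.log ((|t| + 3) ^ 2) := by
        rw [Real.log_pow]; push_cast; ring
      rw [e3]
      refine Real.log_le_log (by positivity) ?_
      nlinarith [abs_nonneg t]
    calc A * Real.log (|(c + z).im| + 3) ≤ A * (2 * ℓ) := mul_le_mul_of_nonneg_left h5 hA0.le
      _ = _ := by ring
  set z : ℂ := ((s.re - 2 : ℝ) : ℂ) with hz
  have hcz : c + z = s := by
    apply Complex.ext
    · rw [Complex.add_re, hcre, hz, Complex.ofReal_re]; ring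
    · rw [Complex.add_im, hcim, hz, Complex.ofReal_im, add_zero]
  have hzn : ‖z‖ = 2 - s.re := by
    rw [hz, Complex.norm_real, Real.norm_eq_abs, abs_of_nonpos (by linarith)]; ring
  have hzr : ‖z‖ ≤ r := by rw [hzn, hr]; linarith
  have hbc := Complex.borelCaratheodory (M := 2 * A * ℓ) (by positivity) hd hmap (by linarith)
    (z := z) (by rw [mem_ball_zero_iff]; linarith)
  rw [hcz, add_zero] at hbc
  have hf0 : ‖H c‖ ≤ B := h2 c (by rw [hcre]; norm_num)
  have hd1 : 0 < R - r := by linarith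
  have hd2 : R - r ≤ R - ‖z‖ := by linarith
  have hzn0 := norm_nonneg z
  have hR0 : 0 < R := by linarith
  calc ‖H s‖ ≤ 2 * (2 * A * ℓ) * ‖z‖ / (R - ‖z‖) + ‖H c‖ * (R + ‖z‖) / (R - ‖z‖) := hbc
    _ ≤ 2 * (2 * A * ℓ) * r / (R - r) + B * (R + r) / (R - r) := by
        have e1 : 2 * (2 * A * ℓ) * ‖z‖ / (R - ‖z‖) ≤ 2 * (2 * A * ℓ) * r / (R - r) := by
          apply div_le_div₀ (by positivity) _ hd1 hd2
          exact mul_le_mul_of_nonneg_left hzr (by positivity)
        have e2 : ‖H c‖ * (R + ‖z‖) / (R - ‖z‖) ≤ B * (R + r) / (R - r) := by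
          apply div_le_div₀ (by positivity) _ hd1 hd2
          exact mul_le_mul hf0 (by linarith) (by positivity) hB0
        exact add_le_add e1 e2
    _ ≤ 2 * (2 * A * ℓ) * r / (R - r) + B * (R + r) / (R - r) * ℓ := by
        have : 0 ≤ B * (R + r) / (R - r) := by positivity
        nlinarith
    _ = _ := by ring

/-- an elementary inequality -/
theorem pow_small {K μ ε : ℝ} (hK : 1 ≤ K) (hμ : 0 < μ) (_hμ1 : μ ≤ 1) (hε : 0 < ε) :
    ∃ C : ℝ, 0 ≤ C ∧ ∀ ℓ : ℝ, 1 ≤ ℓ → K * ℓ ^ (1 - μ) ≤ ε * ℓ + C := by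
  have hK0 : 0 < K := by linarith
  set L0 := (K / ε) ^ (1 / μ) with hL0
  have hL00 : 0 ≤ L0 := by positivity
  refine ⟨K * L0, by positivity, fun ℓ hℓ => ?_⟩
  have hℓ0 : 0 < ℓ := by linarith
  rcases le_total ℓ L0 with h | h
  · have h1 : ℓ ^ (1 - μ) ≤ ℓ := by
      calc ℓ ^ (1 - μ) ≤ ℓ ^ (1 : ℝ) := Real.rpow_le_rpow_of_exponent_le hℓ (by linarith)
        _ = ℓ := Real.rpow_one _
    have h2 : K * ℓ ^ (1 - μ) ≤ K * L0 := mul_le_mul_of_nonneg_left (h1.trans h) hK0.le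
    have : 0 ≤ ε * ℓ := by positivity
    linarith
  · have h1 : K / ε ≤ ℓ ^ μ := by
      calc K / ε = L0 ^ μ := by
            rw [hL0, ← Real.rpow_mul (by positivity), one_div, inv_mul_cancel₀ hμ.ne', Real.rpow_one]
        _ ≤ ℓ ^ μ := Real.rpow_le_rpow hL00 h hμ.le
    rw [div_le_iff₀ hε] at h1
    have h2 : K * ℓ ^ (1 - μ) ≤ ε * ℓ := by
      calc K * ℓ ^ (1 - μ) ≤ (ℓ ^ μ * ε) * ℓ ^ (1 - μ) :=
            mul_le_mul_of_nonneg_right h1 (by positivity)
        _ = ε * (ℓ ^ μ * ℓ ^ (1 - μ)) := by ring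
        _ = ε * ℓ := by
            rw [← Real.rpow_add hℓ0]
            simp
    have : 0 ≤ K * L0 := by positivity
    linarith

/-- the step of the three lines theorem -/
theorem grow2 {θ : ℝ} (hθ : 0 ≤ θ) {H : ℂ → ℂ} (hH : DifferentiableOn ℂ H {s | θ < s.re}) {σ₁ A B : ℝ}
    (hσ₁ : θ < σ₁) (_hσ₁2 : σ₁ < 3 / 2)
    (h1 : ∀ s : ℂ, σ₁ ≤ s.re → s.re ≤ 2 → ‖H s‖ ≤ A * Real.log (|s.im| + 3))
    (h2 : ∀ s : ℂ, 3 / 2 ≤ s.re → ‖H s‖ ≤ B) {σ ε : ℝ} (hσ : σ₁ < σ) (hσ2 : σ < 2) (hε : 0 < ε) :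
    ∃ C : ℝ, 0 ≤ C ∧ ∀ s : ℂ, σ ≤ s.re → ‖H s‖ ≤ ε * Real.log (|s.im| + 3) + C := by
  have hB0 : 0 ≤ B := (norm_nonneg _).trans (h2 2 (by norm_num))
  have hA0 : 0 ≤ A := by
    have h3 := (norm_nonneg _).trans (h1 2 (by norm_num; linarith) (by norm_num))
    have h4 := log_ge_one (2 : ℂ).im
    by_contra h
    push Not at h
    nlinarith
  set E := Real.exp 4 with hE
  have hE1 : 1 ≤ E := Real.one_le_exp (by norm_num)
  set K := 2 * A * E + B * E + 1 with hK
  have hK1 : 1 ≤ K := by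
    have : 0 ≤ 2 * A * E + B * E := by positivity
    linarith
  have hK0 : 0 < K := by linarith
  set μ := (σ - σ₁) / (2 - σ₁) with hμ
  have hμ0 : 0 < μ := div_pos (by linarith) (by linarith)
  have hμ1 : μ ≤ 1 := by rw [hμ, div_le_one (by linarith)]; linarith
  obtain ⟨C, hC0, hC⟩ := pow_small hK1 hμ0 hμ1 hε
  refine ⟨C + B, by positivity, fun s hs => ?_⟩
  set t := s.im with ht
  set ℓ := Real.log (|t| + 3) with hℓ
  have hℓ1 : 1 ≤ ℓ := log_ge_one t
  rcases le_total 2 s.re with h | hs2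
  · have := h2 s (by linarith)
    have : 0 ≤ ε * ℓ := by positivity
    linarith
  -- the auxiliary function
  set f : ℂ → ℂ := fun z => H (z + t * I) * Complex.exp (z ^ 2) with hf
  have hre : ∀ z : ℂ, (z + t * I).re = z.re := by intro z; simp
  have him : ∀ z : ℂ, (z + t * I).im = z.im + t := by intro z; simp
  have hexp : ∀ z : ℂ, σ₁ ≤ z.re → z.re ≤ 2 → ‖Complex.exp (z ^ 2)‖ ≤ E * Real.exp (-z.im ^ 2) := by
    intro z hz1 hz2
    rw [Complex.norm_exp, hE, ← Real.exp_add]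
    refine Real.exp_le_exp.2 ?_
    have : (z ^ 2).re = z.re ^ 2 - z.im ^ 2 := by rw [pow_two]; simp; ring
    rw [this]
    nlinarith
  have hlogy : ∀ y : ℝ, Real.log (|y + t| + 3) * Real.exp (-y ^ 2) ≤ 2 * ℓ := by
    intro y
    have hy : 0 ≤ |y| := abs_nonneg y
    have e1 : Real.log (|y + t| + 3) ≤ ℓ + |y| := by
      calc Real.log (|y + t| + 3) ≤ Real.log ((|t| + 3) * (|y| + 1)) := by
            refine Real.log_le_log (by positivity) ?_
            have := abs_add_le y t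
            nlinarith [abs_nonneg t]
        _ = ℓ + Real.log (|y| + 1) := by rw [Real.log_mul (by positivity) (by positivity)]
        _ ≤ ℓ + |y| := by
            have := Real.log_le_sub_one_of_pos (show 0 < |y| + 1 by positivity)
            linarith
    have e2 : Real.exp (-y ^ 2) ≤ 1 := Real.exp_le_one_iff.2 (by nlinarith)
    have e3 : |y| * Real.exp (-y ^ 2) ≤ 1 := by
      have e4 : |y| ≤ Real.exp (y ^ 2) := by
        have := Real.add_one_le_exp (y ^ 2)
        have h5 : y ^ 2 = |y| ^ 2 := (sq_abs y).symm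
        nlinarith [sq_nonneg (|y| - 1)]
      calc |y| * Real.exp (-y ^ 2) ≤ Real.exp (y ^ 2) * Real.exp (-y ^ 2) :=
            mul_le_mul_of_nonneg_right e4 (Real.exp_nonneg _)
        _ = 1 := by rw [← Real.exp_add]; simp
    have e5 : 0 < Real.exp (-y ^ 2) := Real.exp_pos _
    calc Real.log (|y + t| + 3) * Real.exp (-y ^ 2) ≤ (ℓ + |y|) * Real.exp (-y ^ 2) :=
          mul_le_mul_of_nonneg_right e1 e5.le
      _ = ℓ * Real.exp (-y ^ 2) + |y| * Real.exp (-y ^ 2) := by ring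
      _ ≤ ℓ * 1 + 1 := add_le_add (mul_le_mul_of_nonneg_left e2 (by linarith)) e3
      _ ≤ 2 * ℓ := by linarith
  have hfb : ∀ z : ℂ, σ₁ ≤ z.re → z.re ≤ 2 → ‖f z‖ ≤ K * ℓ := by
    intro z hz1 hz2
    have e1 := h1 (z + t * I) (by rw [hre]; exact hz1) (by rw [hre]; exact hz2)
    rw [him] at e1
    simp only [hf]
    rw [norm_mul]
    calc ‖H (z + t * I)‖ * ‖Complex.exp (z ^ 2)‖
        ≤ (A * Real.log (|z.im + t| + 3)) * (E * Real.exp (-z.im ^ 2)) :=
          mul_le_mul e1 (hexp z hz1 hz2) (norm_nonneg _) ((norm_nonneg _).trans e1)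
      _ = (A * E) * (Real.log (|z.im + t| + 3) * Real.exp (-z.im ^ 2)) := by ring
      _ ≤ (A * E) * (2 * ℓ) := mul_le_mul_of_nonneg_left (hlogy _) (by positivity)
      _ ≤ K * ℓ := by
          have : 0 ≤ (B * E + 1) * ℓ := by positivity
          rw [hK]
          nlinarith
  have hfr : ∀ z : ℂ, z.re = 2 → ‖f z‖ ≤ K := by
    intro z hz
    have e1 := h2 (z + t * I) (by rw [hre, hz]; norm_num)
    have e2 := hexp z (by rw [hz]; linarith) hz.le
    have e3 : Real.exp (-z.im ^ 2) ≤ 1 := Real.exp_le_one_iff.2 (by nlinarith)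
    simp only [hf]
    rw [norm_mul]
    calc ‖H (z + t * I)‖ * ‖Complex.exp (z ^ 2)‖ ≤ B * (E * 1) := by
          refine mul_le_mul e1 (e2.trans ?_) (norm_nonneg _) hB0
          exact mul_le_mul_of_nonneg_left e3 (by linarith)
      _ ≤ K := by
          rw [hK]
          have : 0 ≤ 2 * A * E := by positivity
          linarith
  have hfd : DifferentiableOn ℂ f {z | θ < z.re} := by
    have e1 : DifferentiableOn ℂ (fun z : ℂ => H (z + t * I)) {z | θ < z.re} := by
      refine hH.comp (by fun_prop) ?_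
      intro z hz
      show θ < (z + t * I).re
      rw [hre]
      exact hz
    exact e1.mul (by fun_prop)
  have hdc : DiffContOnCl ℂ f (Complex.HadamardThreeLines.verticalStrip σ₁ 2) := by
    refine DifferentiableOn.diffContOnCl ?_
    refine hfd.mono ?_
    intro z hz
    have hcl : closure (Complex.HadamardThreeLines.verticalStrip σ₁ 2) ⊆ {z : ℂ | σ₁ ≤ z.re} := by
      refine closure_minimal ?_ (isClosed_le continuous_const Complex.continuous_re)
      intro w hw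
      exact hw.1.le
    have := hcl hz
    exact lt_of_lt_of_le hσ₁ this
  have h3l := Complex.HadamardThreeLines.norm_le_interp_of_mem_verticalClosedStrip' (f := f)
    (z := ((s.re : ℝ) : ℂ)) (a := K * ℓ) (b := K) (l := σ₁) (u := 2) (by linarith)
    (by
      show ((s.re : ℝ) : ℂ).re ∈ Icc σ₁ 2
      rw [Complex.ofReal_re]
      exact ⟨by linarith, hs2⟩) hdc
    ⟨K * ℓ, by
      rintro _ ⟨z, hz, rfl⟩
      exact hfb z hz.1 hz.2⟩
    (fun z hz => hfb z (le_of_eq (show z.re = σ₁ from hz).symm) (by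
      rw [show z.re = σ₁ from hz]; linarith))
    (fun z hz => hfr z hz)
  rw [Complex.ofReal_re] at h3l
  have hx : ‖H s‖ ≤ ‖f ((s.re : ℝ) : ℂ)‖ := by
    simp only [hf]
    have e1 : ((s.re : ℝ) : ℂ) + t * I = s := by rw [ht]; exact Complex.re_add_im s
    rw [e1, norm_mul]
    have e2 : 1 ≤ ‖Complex.exp (((s.re : ℝ) : ℂ) ^ 2)‖ := by
      rw [Complex.norm_exp]
      refine Real.one_le_exp ?_
      have : ((((s.re : ℝ) : ℂ)) ^ 2).re = s.re ^ 2 := by
        rw [← Complex.ofReal_pow, Complex.ofReal_re]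
      rw [this]
      positivity
    exact le_mul_of_one_le_right (norm_nonneg _) e2
  set ν := (s.re - σ₁) / (2 - σ₁) with hν
  have hνμ : μ ≤ ν := by
    rw [hμ, hν]
    exact div_le_div_of_nonneg_right (by linarith) (by linarith)
  have hν1 : ν ≤ 1 := by rw [hν, div_le_one (by linarith)]; linarith
  calc ‖H s‖ ≤ (K * ℓ) ^ (1 - ν) * K ^ ν := hx.trans h3l
    _ = K * ℓ ^ (1 - ν) := by
        rw [Real.mul_rpow hK0.le (by linarith), mul_right_comm, ← Real.rpow_add hK0]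
        simp
    _ ≤ K * ℓ ^ (1 - μ) := by
        refine mul_le_mul_of_nonneg_left ?_ hK0.le
        exact Real.rpow_le_rpow_of_exponent_le hℓ1 (by linarith)
    _ ≤ ε * ℓ + C := hC ℓ hℓ1
    _ ≤ ε * ℓ + (C + B) := by linarith

/-- sublogarithmic growth -/
theorem grow {θ : ℝ} (hθ : 0 ≤ θ) (hθ1 : θ < 1) {H : ℂ → ℂ} (hH : DifferentiableOn ℂ H {s | θ < s.re})
    (h1 : ∀ σ : ℝ, θ < σ → ∃ A : ℝ, ∀ s : ℂ, σ ≤ s.re → s.re ≤ 4 → (H s).re ≤ A * Real.log (|s.im| + 3))
    {B : ℝ} (h2 : ∀ s : ℂ, 3 / 2 ≤ s.re → ‖H s‖ ≤ B) {σ ε : ℝ} (hσ : θ < σ) (hε : 0 < ε) :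
    ∃ C : ℝ, 0 ≤ C ∧ ∀ s : ℂ, σ ≤ s.re → ‖H s‖ ≤ ε * Real.log (|s.im| + 3) + C := by
  set σ' := min σ (5 / 4) with hσ'
  have hσ'1 : θ < σ' := lt_min hσ (by linarith)
  have hσ'2 : σ' ≤ 5 / 4 := min_le_right _ _
  obtain ⟨A, hA0, hA⟩ := grow1 hθ hH h1 h2 (σ := (θ + σ') / 2) (by linarith) (by linarith)
  obtain ⟨C, hC0, hC⟩ := grow2 hθ hH (σ₁ := (θ + σ') / 2) (by linarith) (by linarith) hA h2 (σ := σ')
    (by linarith) (by linarith) hε
  exact ⟨C, hC0, fun s hs => hC s ((min_le_left _ _).trans hs)⟩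

end Pool.Agent.H49.RH
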