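import Pool.Agent.H49.RH.Fam
import Pool.Agent.H49.RH.Log
import Pool.Agent.H49.RH.ZetaZ

/-!
# The difference of the two sums over primes
-/

set_option autoImplicit false

open Filter Topology Set Complex

namespace Pool.Agent.H49.RH

open Pool.Agent.H49.BP (gint gint_one gint_mul gint_prime one_le_gint pe rh rh_nonneg rh_prime ch ch_norm ht
  summable_q)

/-- the primes as a family -/
noncomputable def pr (j : ℕ) : ℝ := (Nat.nth Nat.Prime j : ℝ)

theorem pr_ge (j : ℕ) : (j : ℝ) + 2 ≤ pr j := by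
  unfold pr
  exact_mod_cast Nat.add_two_le_nth_prime j

theorem pr_fam : Fam pr 2 where
  gt := by norm_num
  ge j := by
    have := pr_ge j
    have : (0 : ℝ) ≤ j := Nat.cast_nonneg j
    linarith
  sum σ hσ := summable_q (fun j => by
      have := pr_ge j
      have : (0 : ℝ) ≤ j := Nat.cast_nonneg j
      linarith) (fun j => by linarith [pr_ge j]) hσ

theorem gint_pr {n : ℕ} (hn : n ≠ 0) : gint pr n = n := by
  unfold gint
  have h : (n.primeFactorsList.map fun p => pr (Nat.primeCounting' p)) = n.primeFactorsList.map (Nat.cast : ℕ → ℝ) := by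
    refine List.map_congr_left fun p hp => ?_
    unfold pr Nat.primeCounting'
    rw [Nat.nth_count (Nat.prime_of_mem_primeFactorsList hp)]
  rw [h, ← Nat.cast_list_prod, Nat.prod_primeFactorsList hn]

theorem zeta_pr {s : ℂ} (hs : 1 < s.re) :
    Complex.exp (∑' j, -Complex.log (1 - (pr j : ℂ) ^ (-s))) = riemannZeta s := by
  rw [← pr_fam.euler hs, zeta_eq_tsum_one_div_nat_add_one_cpow hs]
  refine tsum_congr fun n => ?_
  rw [gint_pr (Nat.succ_ne_zero n), Complex.cpow_neg, one_div]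
  push_cast
  rfl

/-- the analytic data of a system: the zeta function is `s / (s - 1) * exp (G s)`, and `G` grows more slowly than the
logarithm -/
structure Dat (b : ℕ → ℝ) (b0 : ℝ) (G : ℂ → ℂ) : Prop where
  fam : Fam b b0
  diff : DifferentiableOn ℂ G {s | 1 / 2 < s.re}
  zeta : ∀ s : ℂ, 1 < s.re → Complex.exp (∑' j, -Complex.log (1 - (b j : ℂ) ^ (-s))) = s / (s - 1) * Complex.exp (G s)
  bound : ∀ σ ε : ℝ, 1 / 2 < σ → 0 < ε → ∃ C : ℝ, ∀ s : ℂ, σ ≤ s.re → ‖G s‖ ≤ ε * Real.log (|s.im| + 3) + C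

theorem hv_one {b : ℕ → ℝ} {b0 : ℝ} (h : Fam b b0) {s : ℂ} (hs : 1 < s.re) :
    ∑' j, -Complex.log (1 - (b j : ℂ) ^ (-s)) = (∑' j, (b j : ℂ) ^ (-s)) + hv b (fun _ => 1) s := by
  have := (h.hv_split (v := fun _ => 1) (fun j => by simp) hs).tsum_eq
  simpa using this

theorem Fam.tsum_le {b : ℕ → ℝ} {b0 : ℝ} (h : Fam b b0) {s : ℂ} (hs : 3 / 2 ≤ s.re) :
    ‖∑' j, (b j : ℂ) ^ (-s)‖ ≤ ∑' j, (b j) ^ (-(3 / 2) : ℝ) := by
  refine tsum_of_norm_bounded (h.sum (3 / 2) (by norm_num)).hasSum fun j => ?_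
  rw [h.norm]
  exact Real.rpow_le_rpow_of_exponent_le (h.one_lt j).le (by linarith)

/-- the continuation of the difference of the two sums over primes in a zero free half plane -/
theorem ext {b : ℕ → ℝ} {b0 : ℝ} {G : ℂ → ℂ} (hb : Dat b b0 G) {θ : ℝ} (hθ : 1 / 2 ≤ θ) (hθ1 : θ < 1)
    (hz : ∀ s : ℂ, θ < s.re → riemannZeta s ≠ 0) :
    ∃ F : ℂ → ℂ, DifferentiableOn ℂ F {s | θ < s.re} ∧
      (∀ s : ℂ, 1 < s.re → F s = (∑' j, (pr j : ℂ) ^ (-s)) - ∑' j, (b j : ℂ) ^ (-s)) ∧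
      ∀ σ ε : ℝ, θ < σ → 0 < ε → ∃ C : ℝ, 0 ≤ C ∧ ∀ s : ℂ, σ ≤ s.re → ‖F s‖ ≤ ε * Real.log (|s.im| + 3) + C := by
  have hne0 : ∀ s : ℂ, θ < s.re → s ≠ 0 := by
    intro s hs h
    rw [h] at hs
    simp at hs
    linarith
  have hZne : ∀ s : ℂ, θ < s.re → Zs s / s ≠ 0 := by
    intro s hs
    refine div_ne_zero ?_ (hne0 s hs)
    by_cases h : s = 1
    · rw [h, Zs, riemannZeta₁_one]
      exact one_ne_zero
    · rw [← Zs_eq h]
      exact mul_ne_zero (sub_ne_zero.2 h) (hz s hs)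
  have hZd : DifferentiableOn ℂ (fun s => Zs s / s) {s | θ < s.re} := by
    intro s hs
    exact ((Zs_differentiable s).div differentiableAt_id (hne0 s hs)).differentiableWithinAt
  obtain ⟨L, hLd, hL⟩ := hlog hZd hZne
  have hsub1 : {s : ℂ | 1 < s.re} ⊆ {s : ℂ | θ < s.re} := fun s hs => by
    have : 1 < s.re := hs
    show θ < s.re
    linarith
  have hsub2 : {s : ℂ | θ < s.re} ⊆ {s : ℂ | 1 / 2 < s.re} := fun s hs => by
    have : θ < s.re := hs
    show 1 / 2 < s.re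
    linarith
  have hv1 : ∀ j : ℕ, ‖(fun _ : ℕ => (1 : ℂ)) j‖ ≤ 1 := fun j => by simp
  -- the sums are holomorphic
  have hSd : ∀ {c : ℕ → ℝ} {c0 : ℝ}, Fam c c0 →
      DifferentiableOn ℂ (fun s : ℂ => ∑' j, (c j : ℂ) ^ (-s)) {s | 1 < s.re} := by
    intro c c0 hc s hs
    have hs' : 1 < s.re := hs
    obtain ⟨σ, h1, h2⟩ := exists_between hs'
    have h3 : DifferentiableOn ℂ (fun s : ℂ => ∑' j, (c j : ℂ) ^ (-s)) {s | σ < s.re} := by
      refine Complex.differentiableOn_tsum_of_summable_norm (hc.sum σ h1) (fun j => ?_) (hp_open σ) fun j w hw => ?_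
      · have hn0 : (c j : ℂ) ≠ 0 := by exact_mod_cast (hc.pos j).ne'
        intro w _
        exact (differentiableAt_id.neg.const_cpow (Or.inl hn0)).differentiableWithinAt
      · rw [hc.norm]
        have : σ < w.re := hw
        exact Real.rpow_le_rpow_of_exponent_le (hc.one_lt j).le (by linarith)
    exact (h3.differentiableAt ((hp_open σ).mem_nhds h2)).differentiableWithinAt
  have hΔd : DifferentiableOn ℂ (fun s : ℂ => (∑' j, -Complex.log (1 - (pr j : ℂ) ^ (-s))) -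
      ∑' j, -Complex.log (1 - (b j : ℂ) ^ (-s))) {s | 1 < s.re} := by
    have e : ∀ {c : ℕ → ℝ} {c0 : ℝ}, Fam c c0 →
        DifferentiableOn ℂ (fun s : ℂ => ∑' j, -Complex.log (1 - (c j : ℂ) ^ (-s))) {s | 1 < s.re} := by
      intro c c0 hc
      have h1 := (hSd hc).add ((hc.hv_diff hv1).mono (hsub1.trans hsub2))
      exact h1.congr fun s hs => hv_one hc hs
    exact (e pr_fam).sub (e hb.fam)
  obtain ⟨c, hc0, hc⟩ := log_unique (hp_open 1) (hp_conn 1) (f := fun s => L s - G s)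
    ((hLd.mono hsub1).sub (hb.diff.mono (hsub1.trans hsub2))) hΔd (fun s hs => by
      have hs' : 1 < s.re := hs
      rw [Complex.exp_sub, Complex.exp_sub, hL s (hsub1 hs), zeta_pr hs', hb.zeta s hs']
      have h1 : s ≠ 1 := by
        intro h
        rw [h] at hs'
        simp at hs'
      have h2 : s ≠ 0 := hne0 s (hsub1 hs)
      have h3 : s - 1 ≠ 0 := sub_ne_zero.2 h1
      rw [← Zs_eq h1]
      have h4 := Complex.exp_ne_zero (G s)
      field_simp)
  set H : ℂ → ℂ := fun s => L s - G s - c with hH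
  have hHd : DifferentiableOn ℂ H {s | θ < s.re} := (hLd.sub (hb.diff.mono hsub2)).sub_const c
  have hHe : ∀ s : ℂ, 1 < s.re → H s = (∑' j, -Complex.log (1 - (pr j : ℂ) ^ (-s))) -
      ∑' j, -Complex.log (1 - (b j : ℂ) ^ (-s)) := by
    intro s hs
    simp only [hH]
    linear_combination hc s hs
  -- bounds
  obtain ⟨B1, hB1⟩ : ∃ B1 : ℝ, ∀ s : ℂ, 3 / 2 ≤ s.re → ‖H s‖ ≤ B1 := by
    refine ⟨((∑' j, (pr j) ^ (-(3 / 2) : ℝ)) + ∑' j, kp 2 * (pr j) ^ (-(2 * (3 / 2 : ℝ)))) +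
      ((∑' j, (b j) ^ (-(3 / 2) : ℝ)) + ∑' j, kp b0 * (b j) ^ (-(2 * (3 / 2 : ℝ)))), fun s hs => ?_⟩
    rw [hHe s (by linarith), hv_one pr_fam (by linarith), hv_one hb.fam (by linarith)]
    refine (norm_sub_le _ _).trans (add_le_add ?_ ?_)
    · exact (norm_add_le _ _).trans (add_le_add (pr_fam.tsum_le hs) (pr_fam.hv_norm hv1 (by norm_num) hs))
    · exact (norm_add_le _ _).trans (add_le_add (hb.fam.tsum_le hs) (hb.fam.hv_norm hv1 (by norm_num) hs))
  have hHre : ∀ σ : ℝ, θ < σ → ∃ A : ℝ, ∀ s : ℂ, σ ≤ s.re → s.re ≤ 4 →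
      (H s).re ≤ A * Real.log (|s.im| + 3) := by
    intro σ hσ
    obtain ⟨C, hC⟩ := hb.bound σ 1 (by linarith) one_pos
    refine ⟨8 + |C|, fun s hs1 hs2 => ?_⟩
    set ℓ := Real.log (|s.im| + 3) with hℓ
    have hℓ1 : 1 ≤ ℓ := log_ge_one _
    have hLre : (L s).re ≤ 7 * ℓ := by
      have h1 : (L s).re = Real.log ‖Zs s / s‖ := by
        rw [← hL s (by linarith), Complex.norm_exp, Real.log_exp]
      rw [h1]
      have h2 : ‖Zs s / s‖ ≤ 10 * (|s.im| + 3) ^ 4 := by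
        rw [norm_div]
        have h3 : 1 / 2 ≤ ‖s‖ := by
          have := (le_abs_self _).trans (Complex.abs_re_le_norm s)
          linarith
        have h4 : ‖s‖ ≤ |s.im| + 4 := by
          have := Complex.norm_le_abs_re_add_abs_im s
          rw [abs_of_nonneg (by linarith : 0 ≤ s.re)] at this
          linarith
        have h5 := Zs_norm_le (s := s) (by linarith)
        have h6 : (‖s‖ + 1) ^ 2 ≤ (|s.im| + 3) ^ 4 := by
          have h7 : ‖s‖ + 1 ≤ (|s.im| + 3) ^ 2 := by nlinarith [abs_nonneg s.im]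
          calc (‖s‖ + 1) ^ 2 ≤ ((|s.im| + 3) ^ 2) ^ 2 := pow_le_pow_left₀ (by positivity) h7 2
            _ = _ := by ring
        rw [div_le_iff₀ (by linarith)]
        have h8 : 0 ≤ (|s.im| + 3) ^ 4 := by positivity
        nlinarith
      have h9 : 0 < ‖Zs s / s‖ := norm_pos_iff.2 (hZne s (by linarith))
      refine (Real.log_le_log h9 h2).trans ?_
      rw [Real.log_mul (by norm_num) (by positivity), Real.log_pow]
      have h10 : Real.log 10 ≤ 3 := by
        rw [Real.log_le_iff_le_exp (by norm_num)]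
        have := Real.exp_one_gt_d9
        calc (10 : ℝ) ≤ 2.7 ^ 3 := by norm_num
          _ ≤ (Real.exp 1) ^ 3 := pow_le_pow_left₀ (by norm_num) (by linarith) 3
          _ = Real.exp 3 := by rw [← Real.exp_nat_mul]; norm_num
      push_cast
      linarith
    have hGre : -(G s).re ≤ ℓ + |C| := by
      have h1 := (abs_le.1 ((Complex.abs_re_le_norm (G s)).trans (hC s hs1))).1
      have := le_abs_self C
      linarith
    have h3 : (H s).re = (L s).re - (G s).re := by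
      simp only [hH]
      rw [Complex.sub_re, Complex.sub_re, hc0, sub_zero]
    rw [h3]
    have h4 : |C| ≤ |C| * ℓ := le_mul_of_one_le_right (abs_nonneg _) hℓ1
    nlinarith
  refine ⟨fun s => H s - hv pr (fun _ => 1) s + hv b (fun _ => 1) s, ?_, fun s hs => ?_, fun σ ε hσ hε => ?_⟩
  · exact (hHd.sub ((pr_fam.hv_diff hv1).mono hsub2)).add ((hb.fam.hv_diff hv1).mono hsub2)
  · beta_reduce
    rw [hHe s hs, hv_one pr_fam hs, hv_one hb.fam hs]
    ring
  · obtain ⟨C, hC0, hC⟩ := grow (by linarith) hθ1 hHd hHre hB1 hσ hε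
    have hn1 : 0 ≤ ∑' j, kp 2 * (pr j) ^ (-(2 * σ)) :=
      tsum_nonneg fun j => mul_nonneg pr_fam.kp_nonneg (Real.rpow_nonneg (pr_fam.pos j).le _)
    have hn2 : 0 ≤ ∑' j, kp b0 * (b j) ^ (-(2 * σ)) :=
      tsum_nonneg fun j => mul_nonneg hb.fam.kp_nonneg (Real.rpow_nonneg (hb.fam.pos j).le _)
    refine ⟨C + (∑' j, kp 2 * (pr j) ^ (-(2 * σ))) + ∑' j, kp b0 * (b j) ^ (-(2 * σ)), by positivity,
      fun s hs => ?_⟩
    have e1 := hC s hs
    have e2 := pr_fam.hv_norm hv1 (by linarith : 1 / 2 < σ) hs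
    have e3 := hb.fam.hv_norm hv1 (by linarith : 1 / 2 < σ) hs
    have e4 := norm_add_le (H s - hv pr (fun _ => 1) s) (hv b (fun _ => 1) s)
    have e5 := norm_sub_le (H s) (hv pr (fun _ => 1) s)
    linarith

end Pool.Agent.H49.RH
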