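import Pool.Agent.H49.RH.Tail3

/-!
# Mixtures of the primes with a system of generalised primes
-/

set_option autoImplicit false

open Complex MeasureTheory Filter Topology Set

namespace Pool.Agent.H49.RH

open Pool.Agent.H49.BP (gint ht fin_le)

/-- the primes in `U` and the members of the system outside of `U` -/
def mixS (b : ℕ → ℝ) (U : Set ℝ) : Set ℝ := (range pr ∩ U) ∪ (range b \ U)

theorem pr_inj : Function.Injective pr := by
  intro i j h
  unfold pr at h
  have h2 : Nat.nth Nat.Prime i = Nat.nth Nat.Prime j := by exact_mod_cast h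
  exact (Nat.nth_injective Nat.infinite_setOfPred_prime) h2

open Classical in
theorem mix_hasSum {E : Type*} [AddCommMonoid E] [TopologicalSpace E] [ContinuousAdd E] {b : ℕ → ℝ}
    (hb : Function.Injective b) (U : Set ℝ) {m : ℕ → ℝ} (hm : Function.Injective m) (hr : range m = mixS b U)
    (f : ℝ → E) {x y : E} (hx : HasSum (fun j => if pr j ∈ U then f (pr j) else 0) x)
    (hy : HasSum (fun j => if b j ∈ U then 0 else f (b j)) y) : HasSum (fun j => f (m j)) (x + y) := by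
  have h1 : HasSum (indicator (range pr ∩ U) f) x := by
    rw [← pr_inj.hasSum_iff (f := indicator (range pr ∩ U) f) (fun z hz => indicator_of_notMem (fun h => hz h.1) _)]
    refine hx.congr_fun fun j => ?_
    show indicator (range pr ∩ U) f (pr j) = _
    by_cases h : pr j ∈ U
    · rw [if_pos h, indicator_of_mem (show pr j ∈ range pr ∩ U from ⟨mem_range_self j, h⟩)]
    · rw [if_neg h, indicator_of_notMem (fun h2 => h h2.2)]
  have h2 : HasSum (indicator (range b \ U) f) y := by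
    rw [← hb.hasSum_iff (f := indicator (range b \ U) f) (fun z hz => indicator_of_notMem (fun h => hz h.1) _)]
    refine hy.congr_fun fun j => ?_
    show indicator (range b \ U) f (b j) = _
    by_cases h : b j ∈ U
    · rw [if_pos h, indicator_of_notMem (fun h2 => h2.2 h)]
    · rw [if_neg h, indicator_of_mem (show b j ∈ range b \ U from ⟨mem_range_self j, h⟩)]
  have h3 : HasSum (indicator (mixS b U) f) (x + y) := by
    have h4 := h1.add h2
    have e : (fun z => indicator (range pr ∩ U) f z + indicator (range b \ U) f z) = indicator (mixS b U) f := by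
      funext z
      unfold mixS
      rw [indicator_union_of_disjoint]
      rw [Set.disjoint_left]
      rintro w ⟨_, h5⟩ ⟨_, h6⟩
      exact h6 h5
    rw [e] at h4
    exact h4
  rw [← hr] at h3
  have h5 := (hm.hasSum_iff (f := indicator (range m) f) (fun z hz => indicator_of_notMem hz _)).2 h3
  refine h5.congr_fun fun j => ?_
  show f (m j) = indicator (range m) f (m j)
  rw [indicator_of_mem (mem_range_self j)]

open Classical in
theorem mix_fam {b : ℕ → ℝ} {b0 : ℝ} (hb : Fam b b0) (hbi : Function.Injective b) (U : Set ℝ) {m : ℕ → ℝ}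
    (hm : Function.Injective m) (hr : range m = mixS b U) : Fam m (min 2 b0) where
  gt := lt_min (by norm_num) hb.gt
  ge j := by
    have h : m j ∈ mixS b U := by rw [← hr]; exact mem_range_self j
    rcases h with ⟨⟨i, hi⟩, _⟩ | ⟨⟨i, hi⟩, _⟩
    · rw [← hi]
      exact (min_le_left _ _).trans (pr_fam.ge i)
    · rw [← hi]
      exact (min_le_right _ _).trans (hb.ge i)
  sum σ hσ := by
    have h1 : Summable fun j => if pr j ∈ U then (pr j) ^ (-σ) else 0 := by
      refine Summable.of_nonneg_of_le (fun j => ?_) (fun j => ?_) (pr_fam.sum σ hσ)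
      · split_ifs
        · exact Real.rpow_nonneg (pr_fam.pos j).le _
        · exact le_rfl
      · split_ifs
        · exact le_rfl
        · exact Real.rpow_nonneg (pr_fam.pos j).le _
    have h2 : Summable fun j => if b j ∈ U then 0 else (b j) ^ (-σ) := by
      refine Summable.of_nonneg_of_le (fun j => ?_) (fun j => ?_) (hb.sum σ hσ)
      · split_ifs
        · exact le_rfl
        · exact Real.rpow_nonneg (hb.pos j).le _
      · split_ifs
        · exact Real.rpow_nonneg (hb.pos j).le _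
        · exact le_rfl
    exact (mix_hasSum hbi U hm hr (fun x => x ^ (-σ)) h1.hasSum h2.hasSum).summable

open Classical in
/-- the indicator weights -/
noncomputable def wt (b : ℕ → ℝ) (U : Set ℝ) (j : ℕ) : ℂ := if b j ∈ U then 1 else 0

theorem wt_le (b : ℕ → ℝ) (U : Set ℝ) (j : ℕ) : ‖wt b U j‖ ≤ 1 := by
  unfold wt
  split_ifs <;> simp

/-- the zeta function of a mixture -/
theorem mix_zeta {b : ℕ → ℝ} {b0 : ℝ} {G : ℂ → ℂ} (hb : Dat b b0 G) (hbi : Function.Injective b) (U : Set ℝ)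
    {m : ℕ → ℝ} (hm : Function.Injective m) (hr : range m = mixS b U) {s : ℂ} (hs : 1 < s.re) {D : ℂ}
    (hD : D = (∑' j, wt pr U j * (pr j : ℂ) ^ (-s)) - ∑' j, wt b U j * (b j : ℂ) ^ (-s)) :
    Complex.exp (∑' j, -Complex.log (1 - (m j : ℂ) ^ (-s))) =
      s / (s - 1) * Complex.exp (G s + (D + (hv pr (wt pr U) s - hv b (wt b U) s))) := by
  classical
  have h1 := pr_fam.hv_split (wt_le pr U) hs
  have h2 := hb.fam.hv_split (wt_le b U) hs
  have h3 : HasSum (fun j => -Complex.log (1 - (b j : ℂ) ^ (-s))) (∑' j, -Complex.log (1 - (b j : ℂ) ^ (-s))) := by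
    have := hb.fam.hv_split (v := fun _ => 1) (fun j => by simp) hs
    simp only [one_mul] at this
    exact this.summable.hasSum
  have h4 : HasSum (fun j => if b j ∈ U then 0 else -Complex.log (1 - (b j : ℂ) ^ (-s)))
      ((∑' j, -Complex.log (1 - (b j : ℂ) ^ (-s))) - ((∑' j, wt b U j * (b j : ℂ) ^ (-s)) + hv b (wt b U) s)) := by
    refine (h3.sub h2).congr_fun fun j => ?_
    unfold wt
    split_ifs <;> ring
  have h5 : HasSum (fun j => if pr j ∈ U then -Complex.log (1 - (pr j : ℂ) ^ (-s)) else 0)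
      ((∑' j, wt pr U j * (pr j : ℂ) ^ (-s)) + hv pr (wt pr U) s) := by
    refine h1.congr_fun fun j => ?_
    unfold wt
    split_ifs <;> ring
  have h6 := mix_hasSum hbi U hm hr (fun x : ℝ => -Complex.log (1 - (x : ℂ) ^ (-s))) h5 h4
  rw [h6.tsum_eq]
  have e : (∑' j, wt pr U j * (pr j : ℂ) ^ (-s)) + hv pr (wt pr U) s +
      ((∑' j, -Complex.log (1 - (b j : ℂ) ^ (-s))) - ((∑' j, wt b U j * (b j : ℂ) ^ (-s)) + hv b (wt b U) s)) =
      (∑' j, -Complex.log (1 - (b j : ℂ) ^ (-s))) + (D + (hv pr (wt pr U) s - hv b (wt b U) s)) := by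
    rw [hD]
    ring
  rw [e, Complex.exp_add, hb.zeta s hs, Complex.exp_add (G s)]
  ring

/-- lacunary sequences of cuts -/
def Lac (c : ℕ → ℕ) : Prop := 0 < c 0 ∧ ∀ i, 2 * c i ≤ c (i + 1)

theorem Lac.pow_le {c : ℕ → ℕ} (hc : Lac c) (i : ℕ) : 2 ^ i ≤ c i := by
  induction i with
  | zero => exact hc.1
  | succ n ih =>
    have := hc.2 n
    rw [pow_succ]
    omega

theorem Lac.mono {c : ℕ → ℕ} (hc : Lac c) : StrictMono c := by
  refine strictMono_nat_of_lt_succ fun n => ?_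
  have h1 := hc.2 n
  have h2 := hc.pow_le n
  have h3 : 0 < 2 ^ n := Nat.two_pow_pos n
  omega

/-- the union of the blocks in which the primes are used -/
def UU (c : ℕ → ℕ) : Set ℝ := {x | ∃ i, (c (2 * i) : ℝ) ≤ x ∧ x < c (2 * i + 1)}

/-- the differences of the partial sums -/
noncomputable def DD (b : ℕ → ℝ) (x : ℝ) (s : ℂ) : ℂ := PS pr x s - PS b x s

/-- the terms of the blocks -/
noncomputable def BT (b : ℕ → ℝ) (c : ℕ → ℕ) (i : ℕ) (s : ℂ) : ℂ := DD b (c (2 * i + 1)) s - DD b (c (2 * i)) s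

/-- the continuation for the mixture -/
noncomputable def FC (b : ℕ → ℝ) (c : ℕ → ℕ) (s : ℂ) : ℂ := ∑' i, BT b c i s

/-- the estimate in the zero free half plane -/
def Tl (b : ℕ → ℝ) (F : ℂ → ℂ) (σ : ℝ) : Prop := ∃ κ : ℝ, 0 < κ ∧ ∀ ε : ℝ, 0 < ε → ∃ C : ℝ, 0 ≤ C ∧
  ∀ s : ℂ, σ ≤ s.re → ∀ x : ℝ, 1 ≤ x → ‖F s - (PS pr x s - PS b x s)‖ ≤ x ^ (-κ) * (ε * Real.log (|s.im| + 3) + C)

theorem BT_bound {b : ℕ → ℝ} {F : ℂ → ℂ} {κ A : ℝ} (hκ : 0 < κ) {s : ℂ} (hA : 0 ≤ A)
    (h : ∀ x : ℝ, 1 ≤ x → ‖F s - (PS pr x s - PS b x s)‖ ≤ x ^ (-κ) * A) {c : ℕ → ℕ} (hc : Lac c) (i : ℕ) :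
    ‖BT b c i s‖ ≤ (2 * A) * ((4 : ℝ) ^ (-κ)) ^ i := by
  have hp : ∀ k, (2 : ℝ) ^ k ≤ c k := fun k => by exact_mod_cast hc.pow_le k
  have h1 : ∀ k, 1 ≤ (c k : ℝ) := fun k => by
    have := Nat.one_le_two_pow (n := k)
    exact_mod_cast this.trans (hc.pow_le k)
  have h2 : ∀ k, 2 * i ≤ k → (c k : ℝ) ^ (-κ) ≤ ((4 : ℝ) ^ (-κ)) ^ i := by
    intro k hk
    calc (c k : ℝ) ^ (-κ) ≤ ((4 : ℝ) ^ i) ^ (-κ) := by
          refine Real.rpow_le_rpow_of_nonpos (by positivity) ?_ (by linarith)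
          calc (4 : ℝ) ^ i = 2 ^ (2 * i) := by rw [pow_mul]; norm_num
            _ ≤ 2 ^ k := pow_le_pow_right₀ (by norm_num) hk
            _ ≤ c k := hp k
      _ = ((4 : ℝ) ^ (-κ)) ^ i := by
          rw [← Real.rpow_natCast, ← Real.rpow_natCast, ← Real.rpow_mul (by norm_num), ← Real.rpow_mul (by norm_num),
            mul_comm]
  have e : BT b c i s = (F s - (PS pr (c (2 * i)) s - PS b (c (2 * i)) s)) -
      (F s - (PS pr (c (2 * i + 1)) s - PS b (c (2 * i + 1)) s)) := by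
    unfold BT DD
    ring
  rw [e]
  refine (norm_sub_le _ _).trans ?_
  have h3 := (h _ (h1 (2 * i))).trans (mul_le_mul_of_nonneg_right (h2 (2 * i) le_rfl) hA)
  have h4 := (h _ (h1 (2 * i + 1))).trans (mul_le_mul_of_nonneg_right (h2 (2 * i + 1) (by omega)) hA)
  linarith

theorem q_lt {κ : ℝ} (hκ : 0 < κ) : 0 ≤ (4 : ℝ) ^ (-κ) ∧ (4 : ℝ) ^ (-κ) < 1 :=
  ⟨by positivity, Real.rpow_lt_one_of_one_lt_of_neg (by norm_num) (by linarith)⟩

theorem PS_diff {b : ℕ → ℝ} {b0 : ℝ} (hb : Fam b b0) (x : ℝ) : Differentiable ℂ (PS b x) := by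
  have hfin2 : {j : ℕ | b j < x}.Finite := by
    refine (fin_le (l := b) (fun n => (hb.one_lt n).le) ?_ x).subset fun j hj => (le_of_lt (show b j < x from hj) : b j ≤ x)
    exact hb.sum 2 (by norm_num)
  have e : PS b x = fun s => ∑ j ∈ hfin2.toFinset, (b j : ℂ) ^ (-s) := by
    funext s
    unfold PS
    rw [tsum_eq_sum (s := hfin2.toFinset) (fun j hj => by
      rw [Set.Finite.mem_toFinset] at hj
      exact if_neg hj)]
    refine Finset.sum_congr rfl fun j hj => ?_
    rw [Set.Finite.mem_toFinset] at hj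
    exact if_pos hj
  rw [e]
  intro s
  refine DifferentiableAt.fun_sum fun j _ => ?_
  have hn0 : (b j : ℂ) ≠ 0 := by exact_mod_cast (hb.pos j).ne'
  exact differentiableAt_id.neg.const_cpow (Or.inl hn0)

theorem FC_diff {b : ℕ → ℝ} {b0 : ℝ} (hb : Fam b b0) {F : ℂ → ℂ} {θ : ℝ} (hT : ∀ σ : ℝ, θ < σ → Tl b F σ)
    {c : ℕ → ℕ} (hc : Lac c) : DifferentiableOn ℂ (FC b c) {s | θ < s.re} := by
  intro s hs
  have hs' : θ < s.re := hs
  obtain ⟨σ, h1, h2⟩ := exists_between hs'
  obtain ⟨κ, hκ, hk⟩ := hT σ h1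
  obtain ⟨C, hC0, hC⟩ := hk 1 one_pos
  set T := |s.im| + 1 with hTd
  have hV : IsOpen {z : ℂ | σ < z.re ∧ |z.im| < T} :=
    (hp_open σ).inter (isOpen_lt (continuous_abs.comp Complex.continuous_im) continuous_const)
  have hsum : Summable fun i => (2 * (1 * Real.log (T + 3) + C)) * ((4 : ℝ) ^ (-κ)) ^ i :=
    (summable_geometric_of_lt_one (q_lt hκ).1 (q_lt hκ).2).mul_left _
  have hT0 : 0 < T := by positivity
  have hl0 : 0 ≤ Real.log (T + 3) := Real.log_nonneg (by linarith)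
  have hd : DifferentiableOn ℂ (FC b c) {z : ℂ | σ < z.re ∧ |z.im| < T} := by
    refine Complex.differentiableOn_tsum_of_summable_norm hsum (fun i => ?_) hV fun i z hz => ?_
    · refine Differentiable.differentiableOn ?_
      exact ((PS_diff pr_fam _).sub (PS_diff hb _)).sub ((PS_diff pr_fam _).sub (PS_diff hb _))
    · refine BT_bound (F := F) hκ (by positivity) (fun x hx => (hC z hz.1.le x hx).trans ?_) hc i
      refine mul_le_mul_of_nonneg_left ?_ (by positivity)
      have := Real.log_le_log (show 0 < |z.im| + 3 by positivity) (show |z.im| + 3 ≤ T + 3 by linarith [hz.2])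
      linarith
  exact (hd.differentiableAt (hV.mem_nhds ⟨h2, by rw [hTd]; linarith⟩)).differentiableWithinAt

theorem FC_bound {b : ℕ → ℝ} {F : ℂ → ℂ} {σ : ℝ} (hT : Tl b F σ) {ε : ℝ} (hε : 0 < ε) :
    ∃ C : ℝ, 0 ≤ C ∧ ∀ c : ℕ → ℕ, Lac c → ∀ s : ℂ, σ ≤ s.re → (Summable fun i => BT b c i s) ∧
      ‖FC b c s‖ ≤ ε * Real.log (|s.im| + 3) + C := by
  obtain ⟨κ, hκ, hk⟩ := hT
  obtain ⟨hq0, hq1⟩ := q_lt hκ
  set q := (4 : ℝ) ^ (-κ) with hq
  have hq1' : 0 < 1 - q := by linarith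
  set K := 2 * (1 - q)⁻¹ with hK
  have hK0 : 0 < K := by positivity
  obtain ⟨C, hC0, hC⟩ := hk (ε / K) (by positivity)
  refine ⟨K * C, by positivity, fun c hc s hs => ?_⟩
  set A := ε / K * Real.log (|s.im| + 3) + C with hA
  have hl := log_ge_one s.im
  have hA0 : 0 ≤ A := by positivity
  have hb := fun i => BT_bound (b := b) (F := F) hκ hA0 (fun x hx => hC s hs x hx) hc i
  have hg : HasSum (fun i => (2 * A) * q ^ i) ((2 * A) * (1 - q)⁻¹) :=
    (hasSum_geometric_of_lt_one hq0 hq1).mul_left _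
  refine ⟨Summable.of_norm_bounded hg.summable hb, ?_⟩
  refine (tsum_of_norm_bounded hg hb).trans (le_of_eq ?_)
  rw [hA, hK]
  field_simp

end Pool.Agent.H49.RH
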