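import Pool.Agent.H49.RH.Mix

/-!
# The sum over the blocks
-/

set_option autoImplicit false

open Complex MeasureTheory Filter Topology Set

namespace Pool.Agent.H49.RH

open Pool.Agent.H49.BP (gint ht fin_le)

theorem PS_hasSum {b : ℕ → ℝ} {b0 : ℝ} (hb : Fam b b0) (x : ℝ) (s : ℂ) :
    HasSum (fun j => if b j < x then (b j : ℂ) ^ (-s) else 0) (PS b x s) := by
  have hfin2 : {j : ℕ | b j < x}.Finite := by
    refine (fin_le (l := b) (fun n => (hb.one_lt n).le) ?_ x).subset fun j hj => (le_of_lt (show b j < x from hj) : b j ≤ x)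
    exact hb.sum 2 (by norm_num)
  refine (summable_of_hasFiniteSupport ?_).hasSum
  refine hfin2.subset fun j hj => ?_
  by_contra h
  exact hj (if_neg h)

open Classical in
/-- the union of the first blocks -/
theorem block_sum {c : ℕ → ℕ} (hc : Lac c) (x : ℝ) (n : ℕ) :
    (∑ i ∈ Finset.range n, if (c (2 * i) : ℝ) ≤ x ∧ x < c (2 * i + 1) then (1 : ℂ) else 0) =
      if ∃ i, i < n ∧ (c (2 * i) : ℝ) ≤ x ∧ x < c (2 * i + 1) then 1 else 0 := by
  induction n with
  | zero => simp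
  | succ n ih =>
    rw [Finset.sum_range_succ, ih]
    by_cases h : ∃ i, i < n ∧ (c (2 * i) : ℝ) ≤ x ∧ x < c (2 * i + 1)
    · obtain ⟨i, hi, h1, h2⟩ := h
      have h3 : ¬ ((c (2 * n) : ℝ) ≤ x ∧ x < c (2 * n + 1)) := by
        rintro ⟨h4, _⟩
        have h5 : c (2 * i + 1) ≤ c (2 * n) := hc.mono.monotone (by omega)
        have h6 : (c (2 * i + 1) : ℝ) ≤ c (2 * n) := by exact_mod_cast h5
        linarith
      rw [if_pos ⟨i, hi, h1, h2⟩, if_neg h3, if_pos ⟨i, by omega, h1, h2⟩, add_zero]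
    · rw [if_neg h, zero_add]
      by_cases h3 : (c (2 * n) : ℝ) ≤ x ∧ x < c (2 * n + 1)
      · rw [if_pos h3, if_pos ⟨n, by omega, h3⟩]
      · rw [if_neg h3, if_neg]
        rintro ⟨i, hi, h4⟩
        rcases Nat.lt_succ_iff_lt_or_eq.1 hi with h5 | h5
        · exact h ⟨i, h5, h4⟩
        · rw [h5] at h4
          exact h3 h4

theorem blocks_tendsto {b : ℕ → ℝ} {b0 : ℝ} (hb : Fam b b0) {c : ℕ → ℕ} (hc : Lac c) {s : ℂ} (hs : 1 < s.re) :
    Tendsto (fun n : ℕ => ∑ i ∈ Finset.range n, (PS b (c (2 * i + 1)) s - PS b (c (2 * i)) s)) atTop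
      (𝓝 (∑' j, wt b (UU c) j * (b j : ℂ) ^ (-s))) := by
  classical
  have h1 : ∀ n : ℕ, ∑ i ∈ Finset.range n, (PS b (c (2 * i + 1)) s - PS b (c (2 * i)) s) =
      ∑' j, (if ∃ i, i < n ∧ (c (2 * i) : ℝ) ≤ b j ∧ b j < c (2 * i + 1) then (1 : ℂ) else 0) * (b j : ℂ) ^ (-s) := by
    intro n
    have h2 : HasSum (fun j => ∑ i ∈ Finset.range n, ((if b j < (c (2 * i + 1) : ℝ) then (b j : ℂ) ^ (-s) else 0) -
        (if b j < (c (2 * i) : ℝ) then (b j : ℂ) ^ (-s) else 0)))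
        (∑ i ∈ Finset.range n, (PS b (c (2 * i + 1)) s - PS b (c (2 * i)) s)) :=
      hasSum_sum fun i _ => (PS_hasSum hb _ s).sub (PS_hasSum hb _ s)
    rw [← h2.tsum_eq]
    refine tsum_congr fun j => ?_
    rw [← block_sum hc, Finset.sum_mul]
    refine Finset.sum_congr rfl fun i _ => ?_
    have h3 : c (2 * i) < c (2 * i + 1) := hc.mono (by omega)
    have h3' : (c (2 * i) : ℝ) < c (2 * i + 1) := by exact_mod_cast h3
    rcases lt_or_ge (b j) (c (2 * i) : ℝ) with h4 | h4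
    · rw [if_pos h4, if_pos (h4.trans h3'), if_neg (by
        rintro ⟨h5, _⟩
        linarith)]
      ring
    · rcases lt_or_ge (b j) (c (2 * i + 1) : ℝ) with h5 | h5
      · rw [if_neg (not_lt.2 h4), if_pos h5, if_pos ⟨h4, h5⟩]
        ring
      · rw [if_neg (not_lt.2 h4), if_neg (not_lt.2 h5), if_neg (by
          rintro ⟨_, h6⟩
          linarith)]
        ring
  simp_rw [h1]
  refine tendsto_tsum_of_dominated_convergence (bound := fun j => (b j) ^ (-s.re)) (hb.sum _ hs) (fun j => ?_)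
    (Eventually.of_forall fun n j => ?_)
  · refine tendsto_const_nhds.congr' ?_
    by_cases h : b j ∈ UU c
    · obtain ⟨i, hi⟩ := h
      filter_upwards [eventually_gt_atTop i] with n hn
      unfold wt
      rw [if_pos ⟨i, hi⟩, if_pos ⟨i, hn, hi⟩]
    · refine Eventually.of_forall fun n => ?_
      unfold wt
      beta_reduce
      rw [if_neg h, if_neg (by
        rintro ⟨i, _, hi⟩
        exact h ⟨i, hi⟩)]
  · rw [norm_mul, hb.norm]
    have : ‖(if ∃ i, i < n ∧ (c (2 * i) : ℝ) ≤ b j ∧ b j < c (2 * i + 1) then (1 : ℂ) else 0)‖ ≤ 1 := by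
      split_ifs <;> simp
    have h2 : 0 ≤ (b j) ^ (-s.re) := Real.rpow_nonneg (hb.pos j).le _
    exact mul_le_of_le_one_left h2 this

theorem FC_eq {b : ℕ → ℝ} {b0 : ℝ} (hb : Fam b b0) {c : ℕ → ℕ} (hc : Lac c) {s : ℂ} (hs : 1 < s.re)
    (hsum : Summable fun i => BT b c i s) : FC b c s =
      (∑' j, wt pr (UU c) j * (pr j : ℂ) ^ (-s)) - ∑' j, wt b (UU c) j * (b j : ℂ) ^ (-s) := by
  have h1 := hsum.hasSum.tendsto_sum_nat
  have h2 := (blocks_tendsto pr_fam hc hs).sub (blocks_tendsto hb hc hs)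
  refine tendsto_nhds_unique h1 (h2.congr fun n => ?_)
  rw [← Finset.sum_sub_distrib]
  refine Finset.sum_congr rfl fun i _ => ?_
  unfold BT DD
  ring

end Pool.Agent.H49.RH
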