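import Pool.Agent.H49.RH.Trn

/-!
# A bound for the zeta function from the distribution of the integers
-/

set_option autoImplicit false

open Complex MeasureTheory Filter Topology Set

namespace Pool.Agent.H49.RH

open Pool.Agent.H49.BP (gint one_le_gint fin_le ht zero_bot)

/-- the counting function of a sequence -/
noncomputable def CT (l : ℕ → ℝ) (x : ℝ) : ℝ := ∑' j, if l j ≤ x then (1 : ℝ) else 0

theorem CT_sum {l : ℕ → ℝ} (hl : ∀ n, 1 ≤ l n) (hsum : ∀ σ : ℝ, 1 < σ → Summable fun n => (l n) ^ (-σ)) (x : ℝ) :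
    HasSum (fun j => if l j ≤ x then (1 : ℝ) else 0) (CT l x) := by
  refine (summable_of_hasFiniteSupport ?_).hasSum
  refine (fin_le hl (hsum 2 (by norm_num)) x).subset fun j hj => ?_
  by_contra h
  exact hj (if_neg h)

theorem CT_eq {l : ℕ → ℝ} (hl : ∀ n, 1 ≤ l n) (hsum : ∀ σ : ℝ, 1 < σ → Summable fun n => (l n) ^ (-σ)) (x : ℝ) :
    CT l x = ({n | l n ≤ x}.ncard : ℝ) := by
  have hfin := fin_le hl (hsum 2 (by norm_num)) x
  have h1 : HasSum (fun j => if l j ≤ x then (1 : ℝ) else 0) (∑ j ∈ hfin.toFinset, if l j ≤ x then (1 : ℝ) else 0) := by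
    refine hasSum_sum_of_ne_finset_zero fun j hj => ?_
    rw [Set.Finite.mem_toFinset] at hj
    exact if_neg hj
  have h2 : (∑ j ∈ hfin.toFinset, if l j ≤ x then (1 : ℝ) else 0) = ∑ j ∈ hfin.toFinset, (1 : ℝ) := by
    refine Finset.sum_congr rfl fun j hj => ?_
    have : l j ≤ x := (Set.Finite.mem_toFinset hfin).1 hj
    rw [if_pos this]
  rw [(CT_sum hl hsum x).unique h1, h2, Finset.sum_const, nsmul_one, Set.ncard_eq_toFinset_card _ hfin]

theorem CT_mono {l : ℕ → ℝ} (hl : ∀ n, 1 ≤ l n) (hsum : ∀ σ : ℝ, 1 < σ → Summable fun n => (l n) ^ (-σ)) :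
    Monotone (CT l) := by
  intro x y hxy
  refine hasSum_le (fun j => ?_) (CT_sum hl hsum x) (CT_sum hl hsum y)
  split_ifs with h1 h2
  · exact le_rfl
  · exact absurd (h1.trans hxy) h2
  · exact zero_le_one
  · exact le_rfl

/-- the transform of the counting function -/
theorem CT_trans {l : ℕ → ℝ} (hl : ∀ n, 1 ≤ l n) (hsum : ∀ σ : ℝ, 1 < σ → Summable fun n => (l n) ^ (-σ)) {w : ℂ}
    (hw : 1 < w.re) :
    IntegrableOn (fun x : ℝ => (x : ℂ) ^ (-w - 1) * (CT l x : ℂ)) (Ioi 1) ∧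
      w * ∫ x in Ioi (1 : ℝ), (x : ℂ) ^ (-w - 1) * (CT l x : ℂ) = ∑' j, (l j : ℂ) ^ (-w) := by
  have hw0 : w ≠ 0 := by
    intro h
    rw [h] at hw
    simp at hw
    linarith
  have hlp : ∀ n, 0 < l n := fun n => by linarith [hl n]
  let F : ℕ → ℝ → ℂ := fun j => indicator (Ici (l j)) (fun x : ℝ => (x : ℂ) ^ (-w - 1))
  have hbase : ∀ c : ℝ, 0 < c → IntegrableOn (fun x : ℝ => (x : ℂ) ^ (-w - 1)) (Ioi c) := by
    intro c hc
    exact integrableOn_Ioi_cpow_of_lt (by simp; linarith) hc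
  have hae : ∀ j, (Ioi (1 : ℝ) ∩ Ici (l j) : Set ℝ) =ᵐ[volume] (Ioi (l j) : Set ℝ) := by
    intro j
    rcases (hl j).lt_or_eq with h | h
    · have e : Ioi (1 : ℝ) ∩ Ici (l j) = Ici (l j) := inter_eq_self_of_subset_right fun x hx => lt_of_lt_of_le h hx
      rw [e]
      exact Ioi_ae_eq_Ici.symm
    · rw [← h]
      have e : Ioi (1 : ℝ) ∩ Ici 1 = Ioi 1 := inter_eq_self_of_subset_left Ioi_subset_Ici_self
      rw [e]
  have hFi : ∀ j, Integrable (F j) (volume.restrict (Ioi 1)) := by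
    intro j
    rw [integrable_indicator_iff measurableSet_Ici, IntegrableOn, Measure.restrict_restrict measurableSet_Ici,
      inter_comm, Measure.restrict_congr_set (hae j)]
    exact hbase (l j) (hlp j)
  have hnorm : ∀ j, ∫ x in Ioi (1 : ℝ), ‖F j x‖ = (l j) ^ (-w.re) / w.re := by
    intro j
    have e : (fun x => ‖F j x‖) = indicator (Ici (l j)) (fun x : ℝ => ‖(x : ℂ) ^ (-w - 1)‖) := by
      funext x
      simp only [F]
      rw [norm_indicator_eq_indicator_norm]
    rw [e, setIntegral_indicator measurableSet_Ici, setIntegral_congr_set (hae j)]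
    have e2 : ∫ x in Ioi (l j), ‖(x : ℂ) ^ (-w - 1)‖ = ∫ x in Ioi (l j), x ^ (-w.re - 1) := by
      refine setIntegral_congr_fun measurableSet_Ioi fun x hx => ?_
      have hx0 : 0 < x := by
        have : l j < x := hx
        linarith [hlp j]
      show ‖(x : ℂ) ^ (-w - 1)‖ = x ^ (-w.re - 1)
      rw [Complex.norm_cpow_eq_rpow_re_of_pos hx0]
      simp
    rw [e2, integral_Ioi_rpow_of_lt (by linarith) (hlp j)]
    have e3 : -w.re - 1 + 1 = -w.re := by ring
    rw [e3, neg_div_neg_eq]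
  have hsq : Summable fun j => (l j) ^ (-w.re) / w.re := (hsum _ hw).div_const _
  have hsum' : Summable fun j => ∫ x in Ioi (1 : ℝ), ‖F j x‖ := by
    simp only [hnorm]
    exact hsq
  have hH := hasSum_integral_of_summable_integral_norm hFi hsum'
  have hpt : ∀ x : ℝ, HasSum (fun j => F j x) ((x : ℂ) ^ (-w - 1) * (CT l x : ℂ)) := by
    intro x
    have h1 := (Complex.hasSum_ofReal.2 (CT_sum hl hsum x)).mul_left ((x : ℂ) ^ (-w - 1))
    refine h1.congr_fun fun j => ?_
    simp only [F]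
    by_cases h : l j ≤ x
    · rw [indicator_of_mem (show x ∈ Ici (l j) from h), if_pos h, Complex.ofReal_one, mul_one]
    · rw [indicator_of_notMem (show x ∉ Ici (l j) from h), if_neg h]
      simp
  have hval : ∀ j, ∫ x in Ioi (1 : ℝ), F j x = (l j : ℂ) ^ (-w) / w := by
    intro j
    simp only [F]
    rw [setIntegral_indicator measurableSet_Ici, setIntegral_congr_set (hae j),
      integral_Ioi_cpow_of_lt (by simp; linarith) (hlp j)]
    have e3 : -w - 1 + 1 = -w := by ring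
    rw [e3, neg_div_neg_eq]
  have hint : Integrable (fun x : ℝ => (x : ℂ) ^ (-w - 1) * (CT l x : ℂ)) (volume.restrict (Ioi 1)) := by
    have hm : AEStronglyMeasurable (fun x : ℝ => (x : ℂ) ^ (-w - 1) * (CT l x : ℂ)) (volume.restrict (Ioi 1)) := by
      refine (hbase 1 one_pos).aestronglyMeasurable.mul ?_
      exact (Complex.measurable_ofReal.comp (CT_mono hl hsum).measurable).aestronglyMeasurable
    refine ⟨hm, ?_⟩
    have h2 : ∫⁻ x in Ioi (1 : ℝ), ‖(x : ℂ) ^ (-w - 1) * (CT l x : ℂ)‖ₑ ≤ ∫⁻ x in Ioi (1 : ℝ), ∑' j, ‖F j x‖ₑ := by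
      refine lintegral_mono fun x => ?_
      rw [← (hpt x).tsum_eq]
      exact enorm_tsum_le_tsum_enorm
    rw [lintegral_tsum fun j => (hFi j).aestronglyMeasurable.enorm] at h2
    refine lt_of_le_of_lt h2 ?_
    have h3 : ∀ j, ∫⁻ x in Ioi (1 : ℝ), ‖F j x‖ₑ = ENNReal.ofReal ((l j) ^ (-w.re) / w.re) := by
      intro j
      rw [← hnorm j, ← ofReal_integral_norm_eq_lintegral_enorm (hFi j)]
    simp only [h3]
    rw [← ENNReal.ofReal_tsum_of_nonneg (fun j => by
      have := hlp j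
      have : 0 < w.re := by linarith
      positivity) hsq]
    exact ENNReal.ofReal_lt_top
  refine ⟨hint, ?_⟩
  have h4 : ∫ x in Ioi (1 : ℝ), (x : ℂ) ^ (-w - 1) * (CT l x : ℂ) = ∫ x in Ioi (1 : ℝ), ∑' j, F j x := by
    refine integral_congr_ae (Eventually.of_forall fun x => ?_)
    exact (hpt x).tsum_eq.symm
  rw [h4, ← hH.tsum_eq]
  simp only [hval]
  rw [tsum_div_const, mul_div_cancel₀ _ hw0]

/-- the error of the counting function, as a function on the line -/
noncomputable def ee (l : ℕ → ℝ) (ρ x : ℝ) : ℂ := if 1 < x then ((CT l x - ρ * x : ℝ) : ℂ) else 0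

theorem ee_meas {l : ℕ → ℝ} (hl : ∀ n, 1 ≤ l n) (hsum : ∀ σ : ℝ, 1 < σ → Summable fun n => (l n) ^ (-σ)) (ρ : ℝ) :
    Measurable (ee l ρ) := by
  unfold ee
  refine Measurable.ite measurableSet_Ioi ?_ measurable_const
  exact Complex.measurable_ofReal.comp ((CT_mono hl hsum).measurable.sub (measurable_const.mul measurable_id))

/-- a bound for the zeta function of the integers -/
theorem cont_bound {l : ℕ → ℝ} (hl : ∀ n, 1 ≤ l n) (hsum : ∀ σ : ℝ, 1 < σ → Summable fun n => (l n) ^ (-σ))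
    {ρ C a : ℝ} (ha : 1 / 2 ≤ a) (ha1 : a < 1) (h : ∀ x : ℝ, 1 ≤ x → |CT l x - ρ * x| ≤ C * x ^ a) {g : ℂ → ℂ}
    (hg : DifferentiableOn ℂ g {s | 1 / 2 < s.re})
    (hz : ∀ s : ℂ, 1 < s.re → ∑' n, (l n : ℂ) ^ (-s) = s / (s - 1) * Complex.exp (g s)) {s : ℂ} (hs : a < s.re) :
    ‖Complex.exp (g s)‖ ≤ |ρ| + ‖s - 1‖ * (C / (s.re - a)) := by
  have hC0 : 0 ≤ C := by
    have := (abs_nonneg _).trans (h 1 le_rfl)
    rw [Real.one_rpow, mul_one] at this
    exact this
  have hgb : ∀ x : ℝ, 0 < x → ‖ee l ρ x‖ ≤ C * x ^ a := by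
    intro x hx
    unfold ee
    split_ifs with h1
    · rw [Complex.norm_real]
      exact h x h1.le
    · rw [norm_zero]
      positivity
  have hloc : LocallyIntegrableOn (ee l ρ) (Ioi 0) := by
    have h1 : LocallyIntegrableOn (fun x : ℝ => C * x ^ a) (Ioi 0) := by
      refine ContinuousOn.locallyIntegrableOn ?_ measurableSet_Ioi
      intro x hx
      have hx0 : (0 : ℝ) < x := hx
      exact ((Real.continuousAt_rpow_const x _ (Or.inl hx0.ne')).const_mul C).continuousWithinAt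
    refine h1.mono (ee_meas hl hsum ρ).aestronglyMeasurable (Eventually.of_forall fun x => ?_)
    by_cases hx : 1 < x
    · rw [Real.norm_of_nonneg (by positivity)]
      exact hgb x (by linarith)
    · unfold ee
      rw [if_neg hx, norm_zero]
      exact norm_nonneg _
  have htop : ee l ρ =O[atTop] (fun x : ℝ => x ^ (-(-a))) := by
    refine Asymptotics.IsBigO.of_bound C ?_
    filter_upwards [eventually_gt_atTop 0] with x hx
    rw [neg_neg, Real.norm_of_nonneg (by positivity)]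
    exact hgb x hx
  have hmelI : ∀ s : ℂ, mellin (ee l ρ) (-s) = ∫ x in Ioi (1 : ℝ), (x : ℂ) ^ (-s - 1) * ((CT l x - ρ * x : ℝ) : ℂ) := by
    intro s
    unfold mellin
    have h1 : ∫ u in Ioi (0 : ℝ), (u : ℂ) ^ (-s - 1) • ee l ρ u =
        ∫ u in Ioi (1 : ℝ), (u : ℂ) ^ (-s - 1) • ee l ρ u := by
      refine setIntegral_eq_of_subset_of_forall_sdiff_eq_zero measurableSet_Ioi
        (Ioi_subset_Ioi zero_le_one) (fun t ht => ?_)
      have : ¬ 1 < t := fun h => ht.2 h
      unfold ee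
      rw [if_neg this, smul_zero]
    rw [h1]
    refine setIntegral_congr_fun measurableSet_Ioi (fun t ht => ?_)
    unfold ee
    rw [if_pos (show (1 : ℝ) < t from ht), smul_eq_mul]
  set R : ℂ → ℂ := fun s => (s - 1) * mellin (ee l ρ) (-s) + ρ with hR
  have hRd : DifferentiableOn ℂ R {s | a < s.re} := by
    intro s hs
    have hs' : a < s.re := hs
    have hmel := mellin_differentiableAt_of_isBigO_rpow (a := -a) (b := -s.re - 1) (s := -s) hloc htop
      (by rw [Complex.neg_re]; linarith)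
      (zero_bot (fun u hu => by unfold ee; rw [if_neg (not_lt.2 hu)]) _) (by rw [Complex.neg_re]; linarith)
    have h2 : DifferentiableAt ℂ (fun s : ℂ => mellin (ee l ρ) (-s)) s :=
      DifferentiableAt.comp (f := fun s : ℂ => -s) s hmel (by fun_prop)
    exact (((differentiableAt_id.sub_const 1).mul h2).add_const _).differentiableWithinAt
  have hid : ∀ s : ℂ, 1 < s.re → Complex.exp (g s) = R s := by
    intro s hs
    have hs1 : s - 1 ≠ 0 := by
      intro h
      rw [sub_eq_zero] at h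
      rw [h] at hs
      simp at hs
    have hs0 : s ≠ 0 := by
      intro h
      rw [h] at hs
      simp at hs
      linarith
    obtain ⟨i1, e1⟩ := CT_trans hl hsum hs
    have i3 : IntegrableOn (fun x : ℝ => (x : ℂ) ^ (-s) * (ρ : ℂ)) (Ioi 1) :=
      (integrableOn_Ioi_cpow_of_lt (by simp; linarith) one_pos).mul_const _
    have e3 : ∫ x in Ioi (1 : ℝ), (x : ℂ) ^ (-s) * (ρ : ℂ) = ρ / (s - 1) := by
      rw [integral_mul_const, integral_Ioi_cpow_of_lt (by simp; linarith) one_pos]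
      have e4 : -s + 1 = -(s - 1) := by ring
      rw [e4, Complex.ofReal_one, Complex.one_cpow, neg_div_neg_eq]
      ring
    have e5 : mellin (ee l ρ) (-s) = ∫ x in Ioi (1 : ℝ), ((x : ℂ) ^ (-s - 1) * (CT l x : ℂ) -
        (x : ℂ) ^ (-s) * (ρ : ℂ)) := by
      rw [hmelI]
      refine setIntegral_congr_fun measurableSet_Ioi (fun t ht => ?_)
      have ht0 : (t : ℂ) ≠ 0 := by
        have h1 : (1 : ℝ) < t := ht
        have h2 : t ≠ 0 := by linarith
        exact_mod_cast h2
      have e6 : (t : ℂ) ^ (-s) = (t : ℂ) ^ (-s - 1) * t := by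
        rw [Complex.cpow_sub _ _ ht0, Complex.cpow_one]
        field_simp
      show (t : ℂ) ^ (-s - 1) * ((CT l t - ρ * t : ℝ) : ℂ) = (t : ℂ) ^ (-s - 1) * (CT l t : ℂ) - (t : ℂ) ^ (-s) * (ρ : ℂ)
      rw [e6]
      push_cast
      ring
    rw [integral_sub i1 i3, e3] at e5
    have e7 := hz s hs
    rw [← e1] at e7
    set I1 := ∫ x in Ioi (1 : ℝ), (x : ℂ) ^ (-s - 1) * (CT l x : ℂ) with hI1
    have e8 : Complex.exp (g s) = (s - 1) * I1 := by
      have : s * ((s - 1) * I1) = s * Complex.exp (g s) := by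
        calc s * ((s - 1) * I1) = (s - 1) * (s * I1) := by ring
          _ = (s - 1) * (s / (s - 1) * Complex.exp (g s)) := by rw [e7]
          _ = s * Complex.exp (g s) := by field_simp
      exact (mul_left_cancel₀ hs0 this).symm
    simp only [hR]
    rw [e8, e5]
    field_simp
    ring
  have hall : Complex.exp (g s) = R s := by
    have hsub : {s : ℂ | a < s.re} ⊆ {s : ℂ | 1 / 2 < s.re} := fun s hs => by
      have : a < s.re := hs
      show 1 / 2 < s.re
      linarith
    have h1 : AnalyticOnNhd ℂ (fun s => Complex.exp (g s)) {s | a < s.re} :=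
      ((hg.mono hsub).cexp).analyticOnNhd (hp_open _)
    have h2 : AnalyticOnNhd ℂ R {s | a < s.re} := hRd.analyticOnNhd (hp_open _)
    refine h1.eqOn_of_preconnected_of_eventuallyEq h2 (hp_conn _) (z₀ := 2) (by simp; linarith) ?_ hs
    have : {s : ℂ | 1 < s.re} ∈ 𝓝 (2 : ℂ) := (hp_open 1).mem_nhds (by simp)
    filter_upwards [this] with z hz
    exact hid z hz
  rw [hall]
  simp only [hR]
  have hb : ‖mellin (ee l ρ) (-s)‖ ≤ C / (s.re - a) := by
    rw [hmelI]
    have h1 : ‖∫ x in Ioi (1 : ℝ), (x : ℂ) ^ (-s - 1) * ((CT l x - ρ * x : ℝ) : ℂ)‖ ≤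
        ∫ x in Ioi (1 : ℝ), C * x ^ (-s.re - 1 + a) := by
      refine norm_integral_le_of_norm_le ((integrableOn_Ioi_rpow_of_lt (by linarith) one_pos).const_mul C) ?_
      refine (ae_restrict_iff' measurableSet_Ioi).2 (Eventually.of_forall fun x hx => ?_)
      have hx1 : (1 : ℝ) < x := hx
      have hx0 : 0 < x := by linarith
      rw [norm_mul, Complex.norm_cpow_eq_rpow_re_of_pos hx0, Complex.norm_real, Real.norm_eq_abs]
      have e : (-s - 1).re = -s.re - 1 := by simp
      rw [e]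
      calc x ^ (-s.re - 1) * |CT l x - ρ * x| ≤ x ^ (-s.re - 1) * (C * x ^ a) :=
            mul_le_mul_of_nonneg_left (h x hx1.le) (by positivity)
        _ = C * (x ^ (-s.re - 1) * x ^ a) := by ring
        _ = C * x ^ (-s.re - 1 + a) := by rw [← Real.rpow_add hx0]
    refine h1.trans (le_of_eq ?_)
    rw [integral_const_mul, integral_Ioi_rpow_of_lt (by linarith) one_pos, Real.one_rpow]
    have h3 : -s.re - 1 + a + 1 = -(s.re - a) := by ring
    rw [h3, neg_div_neg_eq, mul_one_div]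
  calc ‖(s - 1) * mellin (ee l ρ) (-s) + ρ‖ ≤ ‖(s - 1) * mellin (ee l ρ) (-s)‖ + ‖(ρ : ℂ)‖ := norm_add_le _ _
    _ = ‖s - 1‖ * ‖mellin (ee l ρ) (-s)‖ + |ρ| := by rw [norm_mul, Complex.norm_real, Real.norm_eq_abs]
    _ ≤ ‖s - 1‖ * (C / (s.re - a)) + |ρ| := by
        have := mul_le_mul_of_nonneg_left hb (norm_nonneg (s - 1))
        linarith
    _ = |ρ| + ‖s - 1‖ * (C / (s.re - a)) := add_comm _ _

end Pool.Agent.H49.RH
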