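import Pool.Agent.H49.RH.Step

/-!
# Category
-/

set_option autoImplicit false

open Complex MeasureTheory Filter Topology Set

namespace Pool.Agent.H49.RH

/-- The admissible sequences of cuts: `0 < c 0` and `φ (c i) ≤ c (i + 1)`. -/
def Cuts (φ : ℕ → ℕ) : Set (ℕ → ℕ) := {c | 0 < c 0 ∧ ∀ i, φ (c i) ≤ c (i + 1)}

/-- the integers of `A` have a density with the error `O(x ^ (θ + ε))` for every `ε > 0` -/
def Good (θ : ℝ) (A : Set ℝ) : Prop :=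
  ∃ ρ : ℝ, ∀ ε : ℝ, 0 < ε → ∃ C : ℝ, ∀ x : ℝ, 1 ≤ x → |(ints A x : ℝ) - ρ * x| ≤ C * x ^ (θ + ε)

theorem Cuts.lac {φ : ℕ → ℕ} (hφ : ∀ n, 2 * n ≤ φ n) {c : ℕ → ℕ} (hc : c ∈ Cuts φ) : Lac c :=
  ⟨hc.1, fun i => (hφ _).trans (hc.2 i)⟩

theorem Good.cau {θ : ℝ} {A : Set ℝ} (h : Good θ A) {ε : ℝ} (hε : 0 < ε) :
    ∃ n : ℕ, Cau A (1 - θ - ε) n := by
  obtain ⟨ρ, hρ⟩ := h
  obtain ⟨C, hC⟩ := hρ ε hε
  obtain ⟨n, hn⟩ := exists_nat_ge C
  refine ⟨n, fun x y hx hy => ?_⟩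
  have key : ∀ x : ℝ, 1 ≤ x → |(ints A x : ℝ) / x - ρ| ≤ n * x ^ (-(1 - θ - ε)) := by
    intro x hx
    have hx0 : 0 < x := by linarith
    have e : (ints A x : ℝ) / x - ρ = ((ints A x : ℝ) - ρ * x) / x := by field_simp
    rw [e, abs_div, abs_of_pos hx0, div_le_iff₀ hx0]
    refine (hC x hx).trans ?_
    have e2 : (n : ℝ) * x ^ (-(1 - θ - ε)) * x = n * x ^ (θ + ε) := by
      rw [mul_assoc]
      congr 1
      nth_rewrite 2 [← Real.rpow_one x]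
      rw [← Real.rpow_add hx0]
      congr 1
      ring
    rw [e2]
    exact mul_le_mul_of_nonneg_right hn (by positivity)
  have e : (ints A x : ℝ) / x - (ints A y : ℝ) / y = ((ints A x : ℝ) / x - ρ) - ((ints A y : ℝ) / y - ρ) := by ring
  rw [e, mul_add]
  exact (abs_sub _ _).trans (add_le_add (key x hx) (key y hy))

/-- two sequences of cuts that agree at the beginning -/
theorem UU_agree {c c' : ℕ → ℕ} (hc : Monotone c) (hc' : Monotone c') {i : ℕ} (h : ∀ j ≤ i, c j = c' j) {y : ℝ}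
    (hy : y < c i) : y ∈ UU c ↔ y ∈ UU c' := by
  have key : ∀ {c c' : ℕ → ℕ}, Monotone c → (∀ j ≤ i, c j = c' j) → y < c i → y ∈ UU c → y ∈ UU c' := by
    rintro c c' hc h hy ⟨l, h1, h2⟩
    by_cases hl : 2 * l + 1 ≤ i
    · refine ⟨l, ?_, ?_⟩
      · rw [← h (2 * l) (by omega)]
        exact h1
      · rw [← h (2 * l + 1) hl]
        exact h2
    · have h3 : c i ≤ c (2 * l) := hc (by omega)
      have h4 : (c i : ℝ) ≤ c (2 * l) := by exact_mod_cast h3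
      linarith
  exact ⟨key hc h hy, key hc' (fun j hj => (h j hj).symm) (by rw [← h i le_rfl]; exact hy)⟩

theorem mix_agree {b : ℕ → ℝ} {b0 : ℝ} (hb : Fam b b0) {U U' : Set ℝ} {x : ℝ} (h : ∀ y ≤ x, (y ∈ U ↔ y ∈ U')) :
    ints (mixS b U) x = ints (mixS b U') x := by
  refine ints_congr (mixS_ge hb _) (mixS_ge hb _) fun t ht => ?_
  have := h t ht
  unfold mixS
  constructor
  · rintro (⟨h5, h6⟩ | ⟨h5, h6⟩)
    · exact Or.inl ⟨h5, this.1 h6⟩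
    · exact Or.inr ⟨h5, fun h7 => h6 (this.2 h7)⟩
  · rintro (⟨h5, h6⟩ | ⟨h5, h6⟩)
    · exact Or.inl ⟨h5, this.2 h6⟩
    · exact Or.inr ⟨h5, fun h7 => h6 (this.1 h7)⟩

theorem eventually_agree {X : Set (ℕ → ℕ)} (c0 : X) (i : ℕ) :
    ∀ᶠ c : X in 𝓝 c0, ∀ j ≤ i, (c : ℕ → ℕ) j = (c0 : ℕ → ℕ) j := by
  have h1 : ∀ j ∈ Finset.Iic i, ∀ᶠ c : X in 𝓝 c0, (c : ℕ → ℕ) j = (c0 : ℕ → ℕ) j := by
    intro j _
    have hcont : Continuous fun c : X => (c : ℕ → ℕ) j := (continuous_apply j).comp continuous_subtype_val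
    exact hcont.continuousAt.eventually (isOpen_discrete {(c0 : ℕ → ℕ) j} |>.mem_nhds rfl)
  have h2 := (Filter.eventually_all_finset (Finset.Iic i)).2 h1
  filter_upwards [h2] with c hc j hj
  exact hc j (Finset.mem_Iic.2 hj)

theorem ints_locConst {b : ℕ → ℝ} {b0 : ℝ} (hb : Fam b b0) {φ : ℕ → ℕ} (hφ : ∀ n, 2 * n ≤ φ n) (x : ℝ) :
    IsLocallyConstant fun c : Cuts φ => ints (mixS b (UU c)) x := by
  rw [IsLocallyConstant.iff_eventually_eq]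
  intro c0
  obtain ⟨i, hi⟩ := exists_nat_gt x
  have hl0 := Cuts.lac hφ c0.2
  have h1 : x < ((c0 : ℕ → ℕ) i : ℝ) := by
    have h2 : i < 2 ^ i := Nat.lt_two_pow_self
    have h3 : (i : ℝ) < ((c0 : ℕ → ℕ) i : ℝ) := by exact_mod_cast h2.trans_le (hl0.pow_le i)
    linarith
  filter_upwards [eventually_agree c0 i] with c hc
  refine mix_agree hb fun y hy => ?_
  have hl := Cuts.lac hφ c.2
  exact UU_agree hl.mono.monotone hl0.mono.monotone hc (by rw [hc i le_rfl]; linarith)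

theorem closed_cau {b : ℕ → ℝ} {b0 : ℝ} (hb : Fam b b0) {φ : ℕ → ℕ} (hφ : ∀ n, 2 * n ≤ φ n) (a n : ℝ) :
    IsClosed {c : Cuts φ | Cau (mixS b (UU c)) a n} := by
  have e : {c : Cuts φ | Cau (mixS b (UU c)) a n} = ⋂ (x : ℝ) (y : ℝ) (_ : 1 ≤ x) (_ : 1 ≤ y),
      {c : Cuts φ | |(ints (mixS b (UU c)) x : ℝ) / x - (ints (mixS b (UU c)) y : ℝ) / y| ≤
        n * (x ^ (-a) + y ^ (-a))} := by
    ext c
    simp only [mem_iInter, mem_ofPred_eq, Cau]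
  rw [e]
  refine isClosed_iInter fun x => isClosed_iInter fun y => isClosed_iInter fun _ => isClosed_iInter fun _ => ?_
  have hc : ∀ x : ℝ, Continuous fun c : Cuts φ => (ints (mixS b (UU c)) x : ℝ) := fun x =>
    ((ints_locConst hb hφ x).comp (fun k : ℕ => (k : ℝ))).continuous
  exact isClosed_le (((hc x).div_const x).sub ((hc y).div_const y)).abs continuous_const

theorem cyl {X : Set (ℕ → ℕ)} {P : X → Prop} {Q : ℕ → X → Prop} (hcl : ∀ n, IsClosed {c | Q n c})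
    (hPQ : ∀ c, P c → ∃ n, Q n c) (h : ¬ IsMeagre {c | P c}) :
    ∃ (c0 : X) (K n : ℕ), ∀ c : X, (∀ j ≤ K, (c : ℕ → ℕ) j = (c0 : ℕ → ℕ) j) → Q n c := by
  by_contra hcon
  push Not at hcon
  apply h
  have hsub : {c | P c} ⊆ ⋃ n : ℕ, {c | Q n c} := fun c hc => by
    obtain ⟨n, hn⟩ := hPQ c hc
    exact mem_iUnion.2 ⟨n, hn⟩
  refine IsMeagre.mono hsub ?_
  refine isMeagre_iUnion fun n => ?_
  refine IsNowhereDense.isMeagre ?_
  rw [(hcl n).isNowhereDense_iff]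
  by_contra hne
  obtain ⟨c0, hc0⟩ := Set.nonempty_iff_ne_empty.2 hne
  obtain ⟨O, hO, hOo, hc0O⟩ := mem_interior.1 hc0
  obtain ⟨O', hO', rfl⟩ := isOpen_induced_iff.1 hOo
  obtain ⟨I, u, hu, hIu⟩ := isOpen_pi_iff.1 hO' (c0 : ℕ → ℕ) hc0O
  obtain ⟨c, hcj, hnot⟩ := hcon c0 (I.sup id) n
  apply hnot
  have h1 : c ∈ Subtype.val ⁻¹' O' := by
    show (c : ℕ → ℕ) ∈ O'
    refine hIu fun j hj => ?_
    rw [hcj j (by
      have : id j ≤ I.sup id := Finset.le_sup hj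
      exact this)]
    exact (hu j hj).2
  exact hO h1

/-- a cylinder on which the Cauchy condition holds -/
theorem cylinder {b : ℕ → ℝ} {b0 : ℝ} (hb : Fam b b0) {φ : ℕ → ℕ} (hφ : ∀ n, 2 * n ≤ φ n) {θ : ℝ}
    (h : ¬ IsMeagre {c : Cuts φ | Good θ (mixS b (UU c))}) {ε : ℝ} (hε : 0 < ε) :
    ∃ (c0 : Cuts φ) (K n : ℕ), ∀ c : Cuts φ, (∀ j ≤ K, (c : ℕ → ℕ) j = (c0 : ℕ → ℕ) j) →
      Cau (mixS b (UU c)) (1 - θ - ε) n :=
  cyl (P := fun c : Cuts φ => Good θ (mixS b (UU c))) (Q := fun n c => Cau (mixS b (UU c)) (1 - θ - ε) n)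
    (fun n => closed_cau hb hφ _ _) (fun _ hc => Good.cau hc hε) h

end Pool.Agent.H49.RH
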