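import Pool.Agent.H49.RH.One1
import Pool.Agent.H49.RH.Top

/-!
# Uniform distribution of the integers of the truncated mixtures
-/

set_option autoImplicit false

open Complex MeasureTheory Filter Topology Set

namespace Pool.Agent.H49.RH

open Pool.Agent.H49.BP (gint one_le_gint fin_le ht zero_bot)

theorem term34 {b : ℕ → ℝ} {b0 : ℝ} (hb : Fam b b0) {j : ℕ} {V : ℝ} (hj : b j ≤ V) {s : ℂ} (hs : 1 / 2 ≤ s.re) :
    ‖(b j : ℂ) ^ (-s)‖ ≤ V ^ (3 / 4 : ℝ) * (b j) ^ (-(5 / 4) : ℝ) := by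
  rw [hb.norm]
  have h0 := hb.pos j
  calc (b j) ^ (-s.re) ≤ (b j) ^ (-(1 / 2) : ℝ) := Real.rpow_le_rpow_of_exponent_le (hb.one_lt j).le (by linarith)
    _ = (b j) ^ (3 / 4 : ℝ) * (b j) ^ (-(5 / 4) : ℝ) := by
        rw [← Real.rpow_add h0]
        norm_num
    _ ≤ V ^ (3 / 4 : ℝ) * (b j) ^ (-(5 / 4) : ℝ) :=
        mul_le_mul_of_nonneg_right (Real.rpow_le_rpow h0.le hj (by norm_num)) (by positivity)

theorem WS_norm2 {b : ℕ → ℝ} {b0 : ℝ} (hb : Fam b b0) {U : Set ℝ} {V : ℝ} (hV : 0 ≤ V) (hU : ∀ x ∈ U, x ≤ V) {s : ℂ}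
    (hs : 1 / 2 ≤ s.re) : ‖WS b U s‖ ≤ V ^ (3 / 4 : ℝ) * ∑' j, (b j) ^ (-(5 / 4) : ℝ) := by
  have h1 := (hb.sum (5 / 4) (by norm_num)).hasSum.mul_left (V ^ (3 / 4 : ℝ))
  refine tsum_of_norm_bounded h1 fun j => ?_
  rw [norm_mul]
  unfold wt
  split_ifs with h
  · rw [norm_one, one_mul]
    exact term34 hb (hU _ h) hs
  · rw [norm_zero, zero_mul]
    have := hb.pos j
    positivity

theorem WS_sub {b : ℕ → ℝ} {b0 : ℝ} (hb : Fam b b0) {U T : Set ℝ} {V : ℝ} (hUT : U ⊆ T) (hT : ∀ x ∈ T, x ≤ V) (s : ℂ) :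
    WS b T s - WS b U s = WS b (T \ U) s := by
  have h1 := (WS_sum hb hT s).1
  have h2 := (WS_sum hb (U := U) (fun x hx => hT x (hUT hx)) s).1
  have h3 := (WS_sum hb (U := T \ U) (fun x hx => hT x hx.1) s).1
  refine (h3.unique ((h1.sub h2).congr_fun fun j => ?_)).symm
  unfold wt
  by_cases hjT : b j ∈ T <;> by_cases hjU : b j ∈ U
  · rw [if_neg (fun h => h.2 hjU), if_pos hjT, if_pos hjU]
    ring
  · rw [if_pos ⟨hjT, hjU⟩, if_pos hjT, if_neg hjU]
    ring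
  · exact absurd (hUT hjU) hjT
  · rw [if_neg (fun h => hjT h.1), if_neg hjT, if_neg hjU]
    ring

/-- the exponent of the zeta function of a mixture with a bounded part of primes -/
noncomputable def gm (b : ℕ → ℝ) (G : ℂ → ℂ) (U : Set ℝ) (s : ℂ) : ℂ :=
  G s + ((WS pr U s - WS b U s) + (hv pr (wt pr U) s - hv b (wt b U) s))

theorem gm_diff {b : ℕ → ℝ} {b0 : ℝ} {G : ℂ → ℂ} (hb : Dat b b0 G) {U : Set ℝ} {V : ℝ} (hU : ∀ x ∈ U, x ≤ V) :
    DifferentiableOn ℂ (gm b G U) {s | 1 / 2 < s.re} :=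
  hb.diff.add ((((WS_diff pr_fam hU).sub (WS_diff hb.fam hU)).differentiableOn).add
    ((pr_fam.hv_diff (wt_le pr U)).sub (hb.fam.hv_diff (wt_le b U))))

theorem gm_zeta {b : ℕ → ℝ} {b0 : ℝ} {G : ℂ → ℂ} (hb : Dat b b0 G) (hbi : Function.Injective b) {U : Set ℝ}
    {m : ℕ → ℝ} (hm : Function.Injective m) (hr : range m = mixS b U) {s : ℂ} (hs : 1 < s.re) :
    ∑' n : ℕ, ((gint m (n + 1) : ℝ) : ℂ) ^ (-s) = s / (s - 1) * Complex.exp (gm b G U s) := by
  rw [(mix_fam hb.fam hbi U hm hr).euler hs]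
  exact mix_zeta hb hbi U hm hr hs rfl

/-- the constant of the hulls of the prime powers -/
noncomputable def chv (b : ℕ → ℝ) (b0 σ : ℝ) : ℝ :=
  (∑' j, kp 2 * (pr j) ^ (-(2 * σ))) + ∑' j, kp b0 * (b j) ^ (-(2 * σ))

theorem chv_nonneg {b : ℕ → ℝ} {b0 : ℝ} (hb : Fam b b0) (σ : ℝ) : 0 ≤ chv b b0 σ :=
  add_nonneg (tsum_nonneg fun j => mul_nonneg pr_fam.kp_nonneg (Real.rpow_nonneg (pr_fam.pos j).le _))
    (tsum_nonneg fun j => mul_nonneg hb.kp_nonneg (Real.rpow_nonneg (hb.pos j).le _))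

/-- the constant of the sums over primes -/
noncomputable def cws (b : ℕ → ℝ) : ℝ := (∑' j, (pr j) ^ (-(5 / 4) : ℝ)) + ∑' j, (b j) ^ (-(5 / 4) : ℝ)

theorem cws_nonneg {b : ℕ → ℝ} {b0 : ℝ} (hb : Fam b b0) : 0 ≤ cws b :=
  add_nonneg (tsum_nonneg fun j => Real.rpow_nonneg (pr_fam.pos j).le _)
    (tsum_nonneg fun j => Real.rpow_nonneg (hb.pos j).le _)

theorem WS2_norm {b : ℕ → ℝ} {b0 : ℝ} (hb : Fam b b0) {U : Set ℝ} {V : ℝ} (hV : 0 ≤ V) (hU : ∀ x ∈ U, x ≤ V) {s : ℂ}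
    (hs : 1 / 2 ≤ s.re) : ‖WS pr U s - WS b U s‖ ≤ cws b * V ^ (3 / 4 : ℝ) := by
  refine (norm_sub_le _ _).trans ?_
  have h1 := WS_norm2 pr_fam hV hU hs
  have h2 := WS_norm2 hb hV hU hs
  unfold cws
  linarith

/-- enlarging the part of primes by a set bounded by `z` -/
theorem gm_close {b : ℕ → ℝ} {b0 : ℝ} {G : ℂ → ℂ} (hb : Fam b b0) {U T : Set ℝ} {V z : ℝ} (hz : 0 ≤ z) (hUT : U ⊆ T)
    (hT : ∀ x ∈ T, x ≤ V) (h : ∀ x ∈ T, x ∉ U → x ≤ z) {σ : ℝ} (hσ : 1 / 2 < σ) {s : ℂ} (hs : σ ≤ s.re) :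
    ‖gm b G T s - gm b G U s‖ ≤ cws b * z ^ (3 / 4 : ℝ) + 2 * chv b b0 σ := by
  have e : gm b G T s - gm b G U s = (WS pr (T \ U) s - WS b (T \ U) s) +
      ((hv pr (wt pr T) s - hv b (wt b T) s) - (hv pr (wt pr U) s - hv b (wt b U) s)) := by
    rw [← WS_sub pr_fam hUT hT, ← WS_sub hb hUT hT]
    unfold gm
    ring
  have h1 := WS2_norm hb hz (U := T \ U) (fun x hx => h x hx.1 hx.2) (s := s) (by linarith)
  have h2 : ∀ U : Set ℝ, ‖hv pr (wt pr U) s - hv b (wt b U) s‖ ≤ chv b b0 σ := fun U =>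
    (norm_sub_le _ _).trans (add_le_add (pr_fam.hv_norm (wt_le pr U) hσ hs) (hb.hv_norm (wt_le b U) hσ hs))
  rw [e]
  refine (norm_add_le _ _).trans ?_
  have h3 := norm_sub_le (hv pr (wt pr T) s - hv b (wt b T) s) (hv pr (wt pr U) s - hv b (wt b U) s)
  have h4 := h2 T
  have h5 := h2 U
  linarith

theorem pow34 (B : ℝ) {κ : ℝ} (hκ : 0 < κ) : ∀ᶠ z : ℝ in atTop, B * z ^ (3 / 4 : ℝ) ≤ κ * z := by
  have h1 := tendsto_rpow_atTop (show (0 : ℝ) < 1 / 4 by norm_num)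
  filter_upwards [h1.eventually_ge_atTop (B / κ), eventually_gt_atTop 0] with z hz hz0
  rw [div_le_iff₀ hκ] at hz
  have h2 : 0 < z ^ (3 / 4 : ℝ) := by positivity
  calc B * z ^ (3 / 4 : ℝ) ≤ (z ^ (1 / 4 : ℝ) * κ) * z ^ (3 / 4 : ℝ) := mul_le_mul_of_nonneg_right hz h2.le
    _ = κ * (z ^ (1 / 4 : ℝ) * z ^ (3 / 4 : ℝ)) := by ring
    _ = κ * z := by
        rw [← Real.rpow_add hz0]
        norm_num

theorem two_pow_lac {c : ℕ → ℕ} (hc : c ∈ Cuts fun n => 2 ^ n) : Lac c := by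
  refine ⟨hc.1, fun i => ?_⟩
  have h1 := hc.2 i
  have h2 : ∀ n : ℕ, 2 * n ≤ 2 ^ n := by
    intro n
    induction n with
    | zero => simp
    | succ n ih =>
      rcases Nat.eq_zero_or_pos n with h | h
      · subst h
        simp
      · have : 2 ≤ 2 ^ n := by
          calc 2 = 2 ^ 1 := by norm_num
            _ ≤ 2 ^ n := Nat.pow_le_pow_right (by norm_num) h
        rw [pow_succ]
        omega
  exact (h2 _).trans h1

theorem unif {b : ℕ → ℝ} {b0 : ℝ} {G : ℂ → ℂ} (hb : Dat b b0 G) (hbi : Function.Injective b) {c : ℕ → ℕ}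
    (hc : c ∈ Cuts fun n => 2 ^ n) {θ ε : ℝ} (hθ : 1 / 2 ≤ θ) (hε : 0 < ε) (hbig : θ + 2 * ε < 1) {ρ C : ℝ}
    (h : ∀ x : ℝ, 1 ≤ x → |(ints (mixS b (UU c)) x : ℝ) - ρ * x| ≤ C * x ^ (θ + ε)) :
    ∃ (R0 C1 : ℝ) (i0 : ℕ), 0 ≤ R0 ∧ 0 ≤ C1 ∧ ∀ i : ℕ, i0 ≤ i → ∀ s : ℂ, θ + 2 * ε < s.re →
      ‖Complex.exp (gm b G (UU c ∩ Iio (c (2 * i + 1) : ℝ)) s)‖ ≤ R0 + ‖s - 1‖ * (C1 / (s.re - (θ + 2 * ε))) := by
  have hC0 : 0 ≤ C := by
    have := (abs_nonneg _).trans (h 1 le_rfl)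
    rw [Real.one_rpow, mul_one] at this
    exact this
  obtain ⟨K, hK0, hK⟩ := mix_count hb hbi hθ hε (by linarith)
  have hlac := two_pow_lac hc
  have hlog2 : 0 < Real.log 2 := Real.log_pos (by norm_num)
  have hev := (tendsto_natCast_atTop_atTop (R := ℝ)).eventually
    (pow34 (cws b) (show 0 < ε * Real.log 2 / 2 by positivity))
  obtain ⟨V0, hV0⟩ := eventually_atTop.1 hev
  set a := θ + 2 * ε with ha
  set C1 := C + 2 * (C + K) + K with hC1
  refine ⟨|ρ| + (C + K), C1, V0, by positivity, by positivity, fun i hi s hs => ?_⟩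
  set V := c (2 * i + 1) with hV
  have hVi : 2 * i + 1 < V := lt_of_lt_of_le Nat.lt_two_pow_self (hlac.pow_le _)
  have hV2 : 2 ≤ V := by omega
  have hV2' : (2 : ℝ) ≤ V := by exact_mod_cast hV2
  have hA := hV0 V (by omega)
  set A := cws b * (V : ℝ) ^ (3 / 4 : ℝ) with hAdef
  set U := UU c ∩ Iio (V : ℝ) with hU
  have hUV : ∀ x ∈ U, x ≤ V := fun x hx => le_of_lt hx.2
  obtain ⟨m, hm, hr⟩ := enum_bdd hb.fam hUV
  have hfam := mix_fam hb.fam hbi U hm hr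
  have hD : ∀ s : ℂ, 1 / 2 ≤ s.re → ‖WS pr U s - WS b U s‖ ≤ A := fun s hs =>
    WS2_norm hb.fam (by linarith) hUV hs
  have hA0 : 0 ≤ A := (norm_nonneg _).trans (hD 1 (by norm_num))
  obtain ⟨ρi, hρi0, -, hρi⟩ := hK U m (fun s => WS pr U s - WS b U s) A hm hr
    ((WS_diff pr_fam hUV).sub (WS_diff hb.fam hUV)).differentiableOn (fun s _ => rfl)
    (fun σ δ hσ hδ => ⟨A, hA0, fun s hs => by
      have := hD s (by linarith)
      have h2 := log_ge_one s.im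
      have : 0 ≤ δ * Real.log (|s.im| + 3) := by positivity
      linarith⟩) (fun s hs => by
      have := hD s (by linarith)
      have h2 := log_ge_one s.im
      have : 0 ≤ ε / 8 * Real.log (|s.im| + 3) := by positivity
      linarith)
  -- the two ranges
  set x0 : ℝ := (c (2 * i + 2) : ℝ) / 2 with hx0
  have hc2 : 2 ^ V ≤ c (2 * i + 2) := hc.2 (2 * i + 1)
  have hx0V : (2 : ℝ) ^ (V - 1 : ℝ) ≤ x0 := by
    rw [hx0, le_div_iff₀ (by norm_num)]
    have h1 : ((2 : ℝ) ^ (V - 1 : ℝ)) * 2 = (2 : ℝ) ^ (V : ℝ) := by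
      nth_rewrite 2 [← Real.rpow_one 2]
      rw [← Real.rpow_add (by norm_num)]
      congr 1
      ring
    rw [h1, Real.rpow_natCast]
    exact_mod_cast hc2
  have hx01 : 1 ≤ x0 := le_trans (Real.one_le_rpow (by norm_num) (by linarith)) hx0V
  have hhigh : ∀ x : ℝ, x0 ≤ x → |(ints (mixS b U) x : ℝ) - ρi * x| ≤ K * x ^ a := by
    intro x hx
    have hx1 : 1 ≤ x := hx01.trans hx
    have hxp : 0 < x := by linarith
    rw [ints_eq hm hr]
    refine (hρi x hx1).trans ?_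
    have h1 : Real.exp A ≤ x ^ ε := by
      rw [Real.rpow_def_of_pos hxp]
      refine Real.exp_le_exp.2 ?_
      have h2 : (V - 1 : ℝ) * Real.log 2 ≤ Real.log x := by
        rw [← Real.log_rpow (by norm_num)]
        exact Real.log_le_log (by positivity) (hx0V.trans hx)
      have h3 : (V : ℝ) / 2 ≤ V - 1 := by linarith
      calc A ≤ ε * Real.log 2 / 2 * V := hA
        _ = ε * ((V / 2) * Real.log 2) := by ring
        _ ≤ ε * ((V - 1) * Real.log 2) := by gcongr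
        _ ≤ ε * Real.log x := by gcongr
        _ = Real.log x * ε := mul_comm _ _
    calc K * Real.exp A * x ^ (θ + ε) ≤ K * x ^ ε * x ^ (θ + ε) := by gcongr
      _ = K * x ^ a := by
          rw [mul_assoc, ← Real.rpow_add hxp]
          congr 2
          rw [ha]
          ring
  have hlow : ∀ x : ℝ, 1 ≤ x → x < 2 * x0 → |(ints (mixS b U) x : ℝ) - ρ * x| ≤ C * x ^ a := by
    intro x hx1 hx
    have hagree : ints (mixS b U) x = ints (mixS b (UU c)) x := by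
      refine mix_agree hb.fam fun y hy => ⟨fun h => h.1, fun h => ⟨h, ?_⟩⟩
      obtain ⟨l, h1, h2⟩ := h
      have h3 : (c (2 * l) : ℝ) < c (2 * i + 2) := by
        have : y < (c (2 * i + 2) : ℝ) := by rw [hx0] at hx; linarith
        linarith
      have h4 : 2 * l < 2 * i + 2 := by
        by_contra h5
        have h6 : c (2 * i + 2) ≤ c (2 * l) := hlac.mono.monotone (by omega)
        have h7 : (c (2 * i + 2) : ℝ) ≤ c (2 * l) := by exact_mod_cast h6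
        linarith
      have h5 : c (2 * l + 1) ≤ V := hlac.mono.monotone (by omega)
      have h6 : (c (2 * l + 1) : ℝ) ≤ V := by exact_mod_cast h5
      show y < (V : ℝ)
      linarith
    rw [hagree]
    refine (h x hx1).trans (mul_le_mul_of_nonneg_left (Real.rpow_le_rpow_of_exponent_le hx1 ?_) hC0)
    rw [ha]
    linarith
  have hx0p : 0 < x0 := by linarith
  have hdens : |ρi - ρ| ≤ (C + K) * x0 ^ (-(1 - a)) := by
    have h1 := hhigh x0 le_rfl
    have h2 := hlow x0 hx01 (by linarith)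
    have h3 : |ρi - ρ| * x0 ≤ (C + K) * x0 ^ a := by
      have e : |ρi - ρ| * x0 = |((ints (mixS b U) x0 : ℝ) - ρ * x0) - ((ints (mixS b U) x0 : ℝ) - ρi * x0)| := by
        rw [show ((ints (mixS b U) x0 : ℝ) - ρ * x0) - ((ints (mixS b U) x0 : ℝ) - ρi * x0) = (ρi - ρ) * x0 by ring,
          abs_mul, abs_of_pos hx0p]
      rw [e]
      refine (abs_sub _ _).trans ?_
      linarith
    rw [← le_div_iff₀ hx0p] at h3
    refine h3.trans (le_of_eq ?_)
    rw [mul_div_assoc]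
    congr 1
    nth_rewrite 2 [← Real.rpow_one x0]
    rw [← Real.rpow_sub hx0p]
    congr 1
    ring
  have hfull : ∀ x : ℝ, 1 ≤ x → |(ints (mixS b U) x : ℝ) - ρi * x| ≤ C1 * x ^ a := by
    intro x hx1
    have hxp : 0 < x := by linarith
    have hxa : 0 < x ^ a := by positivity
    rcases le_or_gt x0 x with hx | hx
    · refine (hhigh x hx).trans (mul_le_mul_of_nonneg_right ?_ hxa.le)
      rw [hC1]
      nlinarith
    · have h1 := hlow x hx1 (by linarith)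
      have h2 : x0 ^ (-(1 - a)) ≤ 2 * x ^ (-(1 - a)) :=
        half_pow hxp (by linarith) (by rw [ha]; linarith) (by linarith)
      have h3 : |ρi - ρ| * x ≤ 2 * (C + K) * x ^ a := by
        have h4 : x ^ (-(1 - a)) * x = x ^ a := by
          nth_rewrite 2 [← Real.rpow_one x]
          rw [← Real.rpow_add hxp]
          congr 1
          ring
        calc |ρi - ρ| * x ≤ ((C + K) * x0 ^ (-(1 - a))) * x := mul_le_mul_of_nonneg_right hdens hxp.le
          _ ≤ ((C + K) * (2 * x ^ (-(1 - a)))) * x := by gcongr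
          _ = 2 * (C + K) * (x ^ (-(1 - a)) * x) := by ring
          _ = 2 * (C + K) * x ^ a := by rw [h4]
      have e : (ints (mixS b U) x : ℝ) - ρi * x = ((ints (mixS b U) x : ℝ) - ρ * x) - (ρi - ρ) * x := by ring
      rw [e]
      refine (abs_sub _ _).trans ?_
      rw [abs_mul, abs_of_pos hxp, hC1]
      nlinarith
  have hρb : |ρi| ≤ |ρ| + (C + K) := by
    have h1 : x0 ^ (-(1 - a)) ≤ 1 := Real.rpow_le_one_of_one_le_of_nonpos hx01 (by linarith)
    have h2 : |ρi - ρ| ≤ C + K := hdens.trans (by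
      have : 0 ≤ C + K := by positivity
      nlinarith)
    have h3 := abs_sub_abs_le_abs_sub ρi ρ
    linarith
  have hcb := cont_bound (l := fun n => gint m (n + 1)) (fun n => one_le_gint hfam.one_lt _)
    (fun σ hσ => hfam.summable_gint hσ) (ρ := ρi) (C := C1) (a := a) (by rw [ha]; linarith) (by rw [ha]; linarith)
    (fun x hx => by
      rw [CT_eq (fun n => one_le_gint hfam.one_lt _) (fun σ hσ => hfam.summable_gint hσ)]
      have := hfull x hx
      rw [ints_eq hm hr] at this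
      exact this) (gm_diff hb hUV) (fun s hs => gm_zeta hb hbi hm hr hs) hs
  linarith

end Pool.Agent.H49.RH
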