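import Pool.Agent.H49.RH.One2

/-!
# One good mixture with sparse cuts suffices
-/

set_option autoImplicit false

open Complex MeasureTheory Filter Topology Set

namespace Pool.Agent.H49.RH

open Pool.Agent.H49.BP (gint one_le_gint fin_le ht zero_bot)

/-- the constant of the tails -/
noncomputable def ctl (b : ℕ → ℝ) (b0 : ℝ) : ℝ := (1 + kp b0) * ∑' j, (b j) ^ (-2 : ℝ)

theorem ctl_nonneg {b : ℕ → ℝ} {b0 : ℝ} (hb : Fam b b0) : 0 ≤ ctl b b0 :=
  mul_nonneg (by linarith [hb.kp_nonneg]) (tsum_nonneg fun j => Real.rpow_nonneg (hb.pos j).le _)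

theorem tail_three {b : ℕ → ℝ} {b0 : ℝ} (hb : Fam b b0) {V : ℝ} (hV : 1 ≤ V) {s : ℂ} (hs : 3 ≤ s.re) :
    ‖((∑' j, (b j : ℂ) ^ (-s)) + hv b (fun _ => 1) s) - (WS b (Iio V) s + hv b (wt b (Iio V)) s)‖ ≤
      ctl b b0 * V⁻¹ := by
  have hv1 : ∀ j : ℕ, ‖(fun _ : ℕ => (1 : ℂ)) j‖ ≤ 1 := fun j => by simp
  have h1 : HasSum (fun j => (b j : ℂ) ^ (-s)) (∑' j, (b j : ℂ) ^ (-s)) := (hb.summable_s (by linarith)).hasSum
  have h2 : HasSum (fun j => (fun _ => (1 : ℂ)) j * ht b j s) (hv b (fun _ => 1) s) :=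
    (hb.hv_summable hv1 (by linarith)).hasSum
  have h3 : HasSum (fun j => wt b (Iio V) j * (b j : ℂ) ^ (-s)) (WS b (Iio V) s) :=
    (WS_sum hb (U := Iio V) (V := V) (fun x hx => le_of_lt hx) s).1
  have h4 : HasSum (fun j => wt b (Iio V) j * ht b j s) (hv b (wt b (Iio V)) s) :=
    (hb.hv_summable (wt_le b (Iio V)) (by linarith)).hasSum
  have h5 := (h1.add h2).sub (h3.add h4)
  rw [← h5.tsum_eq]
  have h6 : HasSum (fun j => (1 + kp b0) * V⁻¹ * (b j) ^ (-2 : ℝ)) ((1 + kp b0) * V⁻¹ * ∑' j, (b j) ^ (-2 : ℝ)) :=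
    (hb.sum 2 (by norm_num)).hasSum.mul_left _
  refine (tsum_of_norm_bounded h6 fun j => ?_).trans (le_of_eq ?_)
  · have hbj := hb.pos j
    have hk := hb.kp_nonneg
    have e : (b j : ℂ) ^ (-s) + (fun _ => (1 : ℂ)) j * ht b j s -
        (wt b (Iio V) j * (b j : ℂ) ^ (-s) + wt b (Iio V) j * ht b j s) =
        (1 - wt b (Iio V) j) * ((b j : ℂ) ^ (-s) + ht b j s) := by ring
    rw [e, norm_mul]
    unfold wt
    by_cases hj : b j ∈ Iio V
    · rw [if_pos hj, sub_self, norm_zero, zero_mul]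
      positivity
    · rw [if_neg hj, sub_zero, norm_one, one_mul]
      have hjV : V ≤ b j := not_lt.1 hj
      have g1 : (b j) ^ (-3 : ℝ) ≤ V⁻¹ * (b j) ^ (-2 : ℝ) := by
        have e3 : (b j) ^ (-3 : ℝ) = (b j)⁻¹ * (b j) ^ (-2 : ℝ) := by
          rw [← Real.rpow_neg_one, ← Real.rpow_add hbj]
          norm_num
        rw [e3]
        exact mul_le_mul_of_nonneg_right (inv_anti₀ (by linarith) hjV) (by positivity)
      have g2 : ‖(b j : ℂ) ^ (-s)‖ ≤ (b j) ^ (-3 : ℝ) := by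
        rw [hb.norm]
        exact Real.rpow_le_rpow_of_exponent_le (hb.one_lt j).le (by linarith)
      have g3 : ‖ht b j s‖ ≤ kp b0 * (b j) ^ (-3 : ℝ) := by
        have := hb.ht_bound j (s := s) (σ := 3 / 2) (by norm_num) (by linarith)
        rwa [show -(2 * (3 / 2) : ℝ) = -3 by norm_num] at this
      calc ‖(b j : ℂ) ^ (-s) + ht b j s‖ ≤ (b j) ^ (-3 : ℝ) + kp b0 * (b j) ^ (-3 : ℝ) :=
            (norm_add_le _ _).trans (add_le_add g2 g3)
        _ = (1 + kp b0) * (b j) ^ (-3 : ℝ) := by ring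
        _ ≤ (1 + kp b0) * (V⁻¹ * (b j) ^ (-2 : ℝ)) := mul_le_mul_of_nonneg_left g1 (by linarith)
        _ = _ := by ring
  · unfold ctl
    ring

/-- the exponent of the zeta function -/
noncomputable def gz (b : ℕ → ℝ) (G : ℂ → ℂ) (s : ℂ) : ℂ :=
  G s + (((∑' j, (pr j : ℂ) ^ (-s)) + hv pr (fun _ => 1) s) - ((∑' j, (b j : ℂ) ^ (-s)) + hv b (fun _ => 1) s))

theorem Zs_gz {b : ℕ → ℝ} {b0 : ℝ} {G : ℂ → ℂ} (hb : Dat b b0 G) {s : ℂ} (hs : 1 < s.re) :
    Zs s = s * Complex.exp (gz b G s) := by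
  have hs1 : s ≠ 1 := by
    intro h
    rw [h] at hs
    simp at hs
  have hs0 : s ≠ 0 := by
    intro h
    rw [h] at hs
    simp at hs
    linarith
  have hs2 : s - 1 ≠ 0 := sub_ne_zero.2 hs1
  have e1 := hb.zeta s hs
  rw [hv_one hb.fam hs] at e1
  have e2 := zeta_pr hs
  rw [hv_one pr_fam hs] at e2
  rw [← Zs_eq hs1, ← e2]
  unfold gz
  have e3 : Complex.exp (G s) = (s - 1) / s * Complex.exp ((∑' j, (b j : ℂ) ^ (-s)) + hv b (fun _ => 1) s) := by
    rw [e1]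
    field_simp
  rw [Complex.exp_add (G s), Complex.exp_sub, e3]
  have := Complex.exp_ne_zero ((∑' j, (b j : ℂ) ^ (-s)) + hv b (fun _ => 1) s)
  field_simp

theorem gz_close {b : ℕ → ℝ} {b0 : ℝ} {G : ℂ → ℂ} (hb : Fam b b0) {V : ℝ} (hV : 1 ≤ V) {s : ℂ} (hs : 3 ≤ s.re) :
    ‖gm b G (Iio V) s - gz b G s‖ ≤ (ctl pr 2 + ctl b b0) * V⁻¹ := by
  have h1 := tail_three pr_fam hV hs
  have h2 := tail_three hb hV hs
  have e : gm b G (Iio V) s - gz b G s =
      (((∑' j, (b j : ℂ) ^ (-s)) + hv b (fun _ => 1) s) - (WS b (Iio V) s + hv b (wt b (Iio V)) s)) -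
      (((∑' j, (pr j : ℂ) ^ (-s)) + hv pr (fun _ => 1) s) - (WS pr (Iio V) s + hv pr (wt pr (Iio V)) s)) := by
    unfold gm gz
    ring
  rw [e]
  refine (norm_sub_le _ _).trans ?_
  linarith

/-- the damping factor -/
theorem damp {s0 s : ℂ} (h1 : |s.re - s0.re| ≤ 3) :
    (‖s‖ + 1) ^ 2 * ‖Complex.exp ((s - s0) ^ 2)‖ ≤ Real.exp 9 * (2 * (‖s0‖ + 4) ^ 2 + 2) := by
  set v := s - s0 with hv
  have hvr : |v.re| ≤ 3 := by rw [hv, Complex.sub_re]; exact h1
  have hsn : ‖s‖ ≤ ‖s0‖ + 3 + |v.im| := by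
    have e : s = s0 + v := by rw [hv]; ring
    rw [e]
    have h2 := norm_add_le s0 v
    have h3 := Complex.norm_le_abs_re_add_abs_im v
    linarith
  have hexp : ‖Complex.exp (v ^ 2)‖ ≤ Real.exp 9 * Real.exp (-v.im ^ 2) := by
    rw [Complex.norm_exp, ← Real.exp_add]
    refine Real.exp_le_exp.2 ?_
    have e : (v ^ 2).re = v.re ^ 2 - v.im ^ 2 := by rw [pow_two]; simp; ring
    have h2 : v.re ^ 2 ≤ 9 := by
      rw [← sq_abs]
      nlinarith [abs_nonneg v.re]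
    rw [e]
    linarith
  have h4 : (‖s‖ + 1) ^ 2 ≤ 2 * (‖s0‖ + 4) ^ 2 + 2 * v.im ^ 2 := by
    have h5 : (‖s‖ + 1) ^ 2 ≤ ((‖s0‖ + 4) + |v.im|) ^ 2 := by
      refine pow_le_pow_left₀ (by positivity) ?_ 2
      linarith
    have h6 : |v.im| ^ 2 = v.im ^ 2 := sq_abs _
    nlinarith [sq_nonneg ((‖s0‖ + 4) - |v.im|)]
  have h7 : v.im ^ 2 * Real.exp (-v.im ^ 2) ≤ 1 := by
    have h8 := Real.add_one_le_exp (v.im ^ 2)
    have h9 : Real.exp (v.im ^ 2) * Real.exp (-v.im ^ 2) = 1 := by rw [← Real.exp_add]; simp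
    have h10 : 0 < Real.exp (-v.im ^ 2) := Real.exp_pos _
    nlinarith
  have h8 : Real.exp (-v.im ^ 2) ≤ 1 := Real.exp_le_one_iff.2 (by nlinarith [sq_nonneg v.im])
  have h9 : 0 < Real.exp (-v.im ^ 2) := Real.exp_pos _
  calc (‖s‖ + 1) ^ 2 * ‖Complex.exp (v ^ 2)‖
      ≤ (2 * (‖s0‖ + 4) ^ 2 + 2 * v.im ^ 2) * (Real.exp 9 * Real.exp (-v.im ^ 2)) :=
        mul_le_mul h4 hexp (norm_nonneg _) (by positivity)
    _ = Real.exp 9 * (2 * (‖s0‖ + 4) ^ 2 * Real.exp (-v.im ^ 2) + 2 * (v.im ^ 2 * Real.exp (-v.im ^ 2))) := by ring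
    _ ≤ Real.exp 9 * (2 * (‖s0‖ + 4) ^ 2 * 1 + 2 * 1) := by gcongr
    _ = _ := by ring

/-- a limit of functions without zeros -/
theorem hurwitz {Z : ℂ → ℂ} (hZ : Differentiable ℂ Z) {p : ℂ} (hp : Z p ≠ 0) {s0 : ℂ} {r : ℝ} (hr : 0 < r)
    (h : ∀ δ : ℝ, 0 < δ → ∃ Y : ℂ → ℂ, DifferentiableOn ℂ Y (Metric.closedBall s0 r) ∧
      (∀ s ∈ Metric.closedBall s0 r, Y s ≠ 0) ∧ ∀ s ∈ Metric.closedBall s0 r, ‖Z s - Y s‖ ≤ δ) : Z s0 ≠ 0 := by
  intro h0
  have han : AnalyticAt ℂ Z s0 := hZ.analyticAt s0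
  rcases han.eventually_eq_zero_or_eventually_ne_zero with h1 | h1
  · have h2 : AnalyticOnNhd ℂ Z univ := fun z _ => hZ.analyticAt z
    have h3 := h2.eqOn_zero_of_preconnected_of_eventuallyEq_zero isPreconnected_univ (mem_univ s0) h1
    exact hp (h3 (mem_univ p))
  · obtain ⟨e, he, hball⟩ := Metric.eventually_nhds_iff_ball.1 (eventually_nhdsWithin_iff.1 h1)
    set r' := min (e / 2) r with hr'
    have hr'0 : 0 < r' := lt_min (by linarith) hr
    have hr'r : r' ≤ r := min_le_right _ _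
    have hsub : Metric.closedBall s0 r' ⊆ Metric.closedBall s0 r := Metric.closedBall_subset_closedBall hr'r
    have hne : ∀ s ∈ Metric.sphere s0 r', Z s ≠ 0 := by
      intro s hs
      refine hball s ?_ ?_
      · rw [Metric.mem_ball, Metric.mem_sphere.1 hs]
        have := min_le_left (e / 2) r
        linarith
      · intro h2
        have h3 : s = s0 := h2
        rw [h3, Metric.mem_sphere, dist_self] at hs
        linarith
    have hcpt : IsCompact (Metric.sphere s0 r') := isCompact_sphere s0 r'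
    have hnemp : (Metric.sphere s0 r').Nonempty := NormedSpace.sphere_nonempty.2 hr'0.le
    obtain ⟨y, hy, hmin⟩ := hcpt.exists_isMinOn hnemp hZ.continuous.norm.continuousOn
    set μ := ‖Z y‖ with hμ
    have hμ0 : 0 < μ := norm_pos_iff.2 (hne y hy)
    obtain ⟨Y, hYd, hY0, hYa⟩ := h (μ / 3) (by positivity)
    have hcl : closure (Metric.ball s0 r') = Metric.closedBall s0 r' := closure_ball s0 hr'0.ne'
    have hfr : frontier (Metric.ball s0 r') = Metric.sphere s0 r' := frontier_ball s0 hr'0.ne'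
    have hdc : DiffContOnCl ℂ (fun s => (Y s)⁻¹) (Metric.ball s0 r') := by
      refine DifferentiableOn.diffContOnCl ?_
      rw [hcl]
      exact (hYd.mono hsub).inv fun s hs => hY0 s (hsub hs)
    have hmax := Complex.norm_le_of_forall_mem_frontier_norm_le Metric.isBounded_ball hdc (C := (2 * μ / 3)⁻¹)
      (fun s hs => by
        rw [hfr] at hs
        have h2 : μ ≤ ‖Z s‖ := hmin hs
        have h3 := hYa s (hsub (Metric.sphere_subset_closedBall hs))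
        have h4 : ‖Z s‖ ≤ ‖Z s - Y s‖ + ‖Y s‖ := by
          calc ‖Z s‖ = ‖(Z s - Y s) + Y s‖ := by rw [sub_add_cancel]
            _ ≤ _ := norm_add_le _ _
        rw [norm_inv]
        exact inv_anti₀ (by positivity) (by linarith))
      (z := s0) (subset_closure (Metric.mem_ball_self hr'0))
    rw [norm_inv] at hmax
    have h5 := hYa s0 (Metric.mem_closedBall_self hr.le)
    rw [h0, zero_sub, norm_neg] at h5
    have h6 : 0 < ‖Y s0‖ := norm_pos_iff.2 (hY0 s0 (Metric.mem_closedBall_self hr.le))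
    have h7 := (inv_le_inv₀ h6 (by positivity)).1 hmax
    linarith

end Pool.Agent.H49.RH
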