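import Pool.Agent.H49.RH.One3

/-!
# One good mixture with sparse cuts suffices: the conclusion
-/

set_option autoImplicit false

open Complex MeasureTheory Filter Topology Set

namespace Pool.Agent.H49.RH

theorem one {b : ℕ → ℝ} {b0 : ℝ} {G : ℂ → ℂ} (hb : Dat b b0 G) (hbi : Function.Injective b) {c : ℕ → ℕ}
    (hc : c ∈ Cuts fun n => 2 ^ n) {θ : ℝ} (hθ : 1 / 2 ≤ θ) (hgood : Good θ (mixS b (UU c))) :
    ∀ s : ℂ, θ < s.re → riemannZeta s ≠ 0 := by
  intro s0 hs0
  by_cases hs1 : 1 ≤ s0.re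
  · exact riemannZeta_ne_zero_of_one_le_re hs1
  push Not at hs1
  have hs0ne : s0 ≠ 1 := by
    intro h
    rw [h] at hs1
    simp at hs1
  suffices hZ : Zs s0 ≠ 0 by
    intro h
    rw [← Zs_eq hs0ne, h, mul_zero] at hZ
    exact hZ rfl
  have hlog2 : 0 < Real.log 2 := Real.log_pos (by norm_num)
  have hlac := two_pow_lac hc
  obtain ⟨ρ, hρ⟩ := hgood
  set ε := (s0.re - θ) / 5 with hε
  have hε0 : 0 < ε := by rw [hε]; linarith
  have hε1 : ε ≤ 1 := by rw [hε]; linarith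
  have hs0re : s0.re = θ + 5 * ε := by rw [hε]; ring
  obtain ⟨C, hC⟩ := hρ ε hε0
  obtain ⟨R0, C1, i0, hR0, hC10, hunif⟩ := unif hb hbi hc hθ hε0 (by linarith) hC
  set σ1 := θ + 3 * ε with hσ1
  set B := cws b with hB
  have hB0 : 0 ≤ B := cws_nonneg hb.fam
  set Ch := chv b b0 σ1 with hCh
  have hCh0 : 0 ≤ Ch := chv_nonneg hb.fam σ1
  set L := ctl pr 2 + ctl b b0 with hL
  have hL0 : 0 ≤ L := add_nonneg (ctl_nonneg pr_fam) (ctl_nonneg hb.fam)
  set Q := Real.exp 9 * (2 * (‖s0‖ + 4) ^ 2 + 2) with hQ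
  have hQ0 : 0 ≤ Q := by positivity
  set P := 5 + R0 + C1 / ε with hP
  have hP0 : 0 ≤ P := by positivity
  set κ0 := ε / (3 - σ1) with hκ0
  have h3σ : 0 < 3 - σ1 := by rw [hσ1]; linarith
  have hκ00 : 0 < κ0 := div_pos hε0 h3σ
  set H := 10 * Q * L + L + 1 with hH
  have hH0 : 0 < H := by positivity
  set W := Real.exp 1 * ((P * Q * Real.exp (2 * Ch) + 1) * H ^ κ0) with hW
  have hW0 : 0 < W := by positivity
  set nu0 := κ0 * Real.log 2 / 2 with hnu0
  have hnu00 : 0 < nu0 := by positivity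
  refine hurwitz Zs_differentiable (p := 2) (s0 := s0) (r := ε) ?_ hε0 ?_
  · rw [← Zs_eq (by norm_num)]
    refine mul_ne_zero (by norm_num) (riemannZeta_ne_zero_of_one_le_re (by norm_num))
  intro δ hδ
  -- the choice of the truncation
  have hct : Tendsto (fun i : ℕ => (c (2 * i) : ℝ)) atTop atTop := by
    refine tendsto_atTop_mono (fun i => ?_) (tendsto_natCast_atTop_atTop (R := ℝ))
    have h1 : 2 * i < 2 ^ (2 * i) := Nat.lt_two_pow_self
    have h2 := hlac.pow_le (2 * i)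
    exact_mod_cast (by omega : i ≤ c (2 * i))
  have hexpt : ∀ κ : ℝ, 0 < κ → Tendsto (fun z : ℝ => Real.exp (-(κ * z))) atTop (𝓝 0) := by
    intro κ hκ
    exact Real.tendsto_exp_neg_atTop_nhds_zero.comp (tendsto_id.const_mul_atTop hκ)
  have hlim2 : Tendsto (fun z : ℝ => W * Real.exp (-(nu0 * z))) atTop (𝓝 0) := by
    simpa using (hexpt nu0 hnu00).const_mul W
  have hlim3 : Tendsto (fun z : ℝ => H * Real.exp (-(Real.log 2 * z))) atTop (𝓝 0) := by
    simpa using (hexpt (Real.log 2) hlog2).const_mul H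
  have hev := hct.eventually ((pow34 B hnu00).and ((hlim2.eventually (gt_mem_nhds hδ)).and
    (hlim3.eventually (gt_mem_nhds one_pos))))
  obtain ⟨i, ⟨he1, he2, he3⟩, hi0⟩ := (hev.and (eventually_ge_atTop i0)).exists
  set z : ℝ := (c (2 * i) : ℝ) with hz
  set V : ℝ := (c (2 * i + 1) : ℝ) with hV
  have hz0 : 0 ≤ z := Nat.cast_nonneg _
  have hVz : Real.exp (Real.log 2 * z) ≤ V := by
    have h1 : 2 ^ c (2 * i) ≤ c (2 * i + 1) := hc.2 (2 * i)
    have h2 : Real.exp (Real.log 2 * z) = (2 : ℝ) ^ (c (2 * i)) := by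
      rw [← Real.rpow_natCast, Real.rpow_def_of_pos (by norm_num)]
    rw [h2, hV]
    exact_mod_cast h1
  have hV1 : 1 ≤ V := (Real.one_le_exp (by positivity)).trans hVz
  have hVp : 0 < V := by linarith
  have hVi : V⁻¹ ≤ Real.exp (-(Real.log 2 * z)) := by
    rw [Real.exp_neg]
    exact inv_anti₀ (Real.exp_pos _) hVz
  set D := H * Real.exp (-(Real.log 2 * z)) with hD
  have hD0 : 0 < D := by positivity
  set E := Real.exp (B * z ^ (3 / 4 : ℝ) + 2 * Ch) with hE
  have hE0 : 0 < E := Real.exp_pos _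
  have hE1 : 1 ≤ E := Real.one_le_exp (by positivity)
  set Y : ℂ → ℂ := fun s => s * Complex.exp (gm b G (Iio V) s) with hY
  have hTV : ∀ x ∈ Iio V, x ≤ V := fun x hx => le_of_lt hx
  have hYd : DifferentiableOn ℂ Y {s | 1 / 2 < s.re} := differentiableOn_id.mul (gm_diff hb hTV).cexp
  have hσ12 : 1 / 2 < σ1 := by rw [hσ1]; linarith
  -- the bound in the half plane
  have hYb : ∀ s : ℂ, σ1 ≤ s.re → ‖Y s‖ ≤ (‖s‖ + 1) ^ 2 * (R0 + C1 / ε) * E := by
    intro s hs
    have h1 := hunif i hi0 s (by rw [hσ1] at hs; linarith)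
    have h2 := gm_close (G := G) hb.fam (U := UU c ∩ Iio V) (T := Iio V) (V := V) (z := z) hz0 inter_subset_right hTV
      (fun x hx hxU => by
        by_contra hxz
        push Not at hxz
        exact hxU ⟨⟨i, hxz.le, hx⟩, hx⟩) hσ12 hs
    have h3 : ‖Complex.exp (gm b G (Iio V) s)‖ ≤ (R0 + ‖s - 1‖ * (C1 / ε)) * E := by
      have e : gm b G (Iio V) s = gm b G (UU c ∩ Iio V) s + (gm b G (Iio V) s - gm b G (UU c ∩ Iio V) s) := by ring
      rw [e, Complex.exp_add, norm_mul]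
      refine mul_le_mul (h1.trans ?_) ?_ (norm_nonneg _) (by positivity)
      · have : C1 / (s.re - (θ + 2 * ε)) ≤ C1 / ε :=
          div_le_div_of_nonneg_left hC10 hε0 (by rw [hσ1] at hs; linarith)
        have := mul_le_mul_of_nonneg_left this (norm_nonneg (s - 1))
        linarith
      · exact (Complex.norm_exp_le_exp_norm _).trans (Real.exp_le_exp.2 h2)
    simp only [hY]
    rw [norm_mul]
    have h4 : ‖s - 1‖ ≤ ‖s‖ + 1 := by
      have := norm_sub_le s 1
      rwa [norm_one] at this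
    have h5 : 0 ≤ ‖s‖ := norm_nonneg s
    have h6 : 0 ≤ C1 / ε := by positivity
    calc ‖s‖ * ‖Complex.exp (gm b G (Iio V) s)‖ ≤ ‖s‖ * ((R0 + ‖s - 1‖ * (C1 / ε)) * E) :=
          mul_le_mul_of_nonneg_left h3 h5
      _ = (‖s‖ * (R0 + ‖s - 1‖ * (C1 / ε))) * E := by ring
      _ ≤ ((‖s‖ + 1) ^ 2 * (R0 + C1 / ε)) * E := by
          refine mul_le_mul_of_nonneg_right ?_ hE0.le
          have h7 : ‖s - 1‖ * (C1 / ε) ≤ (‖s‖ + 1) * (C1 / ε) := mul_le_mul_of_nonneg_right h4 h6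
          have h8 : ‖s‖ * (R0 + ‖s - 1‖ * (C1 / ε)) ≤ ‖s‖ * (R0 + (‖s‖ + 1) * (C1 / ε)) :=
            mul_le_mul_of_nonneg_left (by linarith) h5
          have h9 : ‖s‖ * (R0 + (‖s‖ + 1) * (C1 / ε)) ≤ (‖s‖ + 1) ^ 2 * (R0 + C1 / ε) := by
            have h10 : 0 ≤ ‖s‖ * R0 := mul_nonneg h5 hR0
            have h11 : 0 ≤ ‖s‖ * (C1 / ε) := mul_nonneg h5 h6
            have h12 : 0 ≤ ‖s‖ ^ 2 * R0 := by positivity
            nlinarith
          linarith
  set f : ℂ → ℂ := fun s => (Zs s - Y s) * Complex.exp ((s - s0) ^ 2) with hf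
  have hstrip : ∀ s : ℂ, σ1 ≤ s.re → s.re ≤ 3 → |s.re - s0.re| ≤ 3 := by
    intro s h1 h2
    rw [abs_le]
    constructor <;> linarith
  have hfb : ∀ s : ℂ, σ1 ≤ s.re → s.re ≤ 3 → ‖f s‖ ≤ P * Q * E + 1 := by
    intro s h1 h2
    have h3 := Zs_norm_le (s := s) (by linarith)
    have h4 := hYb s h1
    have h5 := damp (s0 := s0) (hstrip s h1 h2)
    have h6 : ‖Zs s - Y s‖ ≤ (‖s‖ + 1) ^ 2 * (P * E) := by
      refine (norm_sub_le _ _).trans ?_
      have h7 : 5 * (‖s‖ + 1) ^ 2 ≤ 5 * (‖s‖ + 1) ^ 2 * E := le_mul_of_one_le_right (by positivity) hE1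
      rw [hP]
      linarith
    simp only [hf]
    rw [norm_mul]
    calc ‖Zs s - Y s‖ * ‖Complex.exp ((s - s0) ^ 2)‖ ≤ ((‖s‖ + 1) ^ 2 * (P * E)) * ‖Complex.exp ((s - s0) ^ 2)‖ :=
          mul_le_mul_of_nonneg_right h6 (norm_nonneg _)
      _ = (P * E) * ((‖s‖ + 1) ^ 2 * ‖Complex.exp ((s - s0) ^ 2)‖) := by ring
      _ ≤ (P * E) * Q := mul_le_mul_of_nonneg_left h5 (by positivity)
      _ ≤ P * Q * E + 1 := by linarith
  have hfr : ∀ s : ℂ, s.re = 3 → ‖f s‖ ≤ D := by
    intro s hs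
    have h1 := gz_close (G := G) hb.fam hV1 (s := s) hs.ge
    have hLV : L * V⁻¹ ≤ 1 := by
      have : L * V⁻¹ ≤ H * Real.exp (-(Real.log 2 * z)) :=
        mul_le_mul (by rw [hH]; have : 0 ≤ Q * L := by positivity
                       linarith) hVi (by positivity) hH0.le
      linarith
    have h2 : ‖Complex.exp (gm b G (Iio V) s - gz b G s) - 1‖ ≤ 2 * (L * V⁻¹) :=
      (Complex.norm_exp_sub_one_le (h1.trans hLV)).trans (by linarith)
    have h3 : Zs s - Y s = -(Zs s * (Complex.exp (gm b G (Iio V) s - gz b G s) - 1)) := by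
      have h4 := Zs_gz hb (s := s) (by linarith)
      simp only [hY]
      rw [h4, Complex.exp_sub]
      have := Complex.exp_ne_zero (gz b G s)
      field_simp
      ring
    have h5 := Zs_norm_le (s := s) (by linarith)
    have h6 := damp (s0 := s0) (hstrip s (by linarith) hs.le)
    simp only [hf]
    rw [norm_mul, h3, norm_neg, norm_mul]
    calc ‖Zs s‖ * ‖Complex.exp (gm b G (Iio V) s - gz b G s) - 1‖ * ‖Complex.exp ((s - s0) ^ 2)‖
        ≤ (5 * (‖s‖ + 1) ^ 2) * (2 * (L * V⁻¹)) * ‖Complex.exp ((s - s0) ^ 2)‖ := by gcongr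
      _ = 10 * (L * V⁻¹) * ((‖s‖ + 1) ^ 2 * ‖Complex.exp ((s - s0) ^ 2)‖) := by ring
      _ ≤ 10 * (L * V⁻¹) * Q := mul_le_mul_of_nonneg_left h6 (by positivity)
      _ = (10 * Q * L) * V⁻¹ := by ring
      _ ≤ H * Real.exp (-(Real.log 2 * z)) :=
          mul_le_mul (by rw [hH]; linarith) hVi (by positivity) hH0.le
  have hfd : DifferentiableOn ℂ f {s | 1 / 2 < s.re} :=
    (Zs_differentiable.differentiableOn.sub hYd).mul (by fun_prop)
  have hdc : DiffContOnCl ℂ f (Complex.HadamardThreeLines.verticalStrip σ1 3) := by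
    refine DifferentiableOn.diffContOnCl ?_
    refine hfd.mono ?_
    intro z hz
    have hcl : closure (Complex.HadamardThreeLines.verticalStrip σ1 3) ⊆ {z : ℂ | σ1 ≤ z.re} := by
      refine closure_minimal ?_ (isClosed_le continuous_const Complex.continuous_re)
      intro w hw
      exact hw.1.le
    have := hcl hz
    exact lt_of_lt_of_le hσ12 this
  have hball : ∀ s ∈ Metric.closedBall s0 ε, θ + 4 * ε ≤ s.re ∧ s.re ≤ 2 := by
    intro s hs
    rw [Metric.mem_closedBall, dist_eq_norm] at hs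
    have h1 := (Complex.abs_re_le_norm (s - s0)).trans hs
    rw [Complex.sub_re, abs_le] at h1
    constructor <;> linarith [h1.1, h1.2]
  refine ⟨Y, hYd.mono fun s hs => ?_, fun s hs => ?_, fun s hs => ?_⟩
  · have := (hball s hs).1
    show 1 / 2 < s.re
    linarith
  · have := (hball s hs).1
    refine mul_ne_zero ?_ (Complex.exp_ne_zero _)
    intro h
    rw [h] at this
    simp at this
    linarith
  · obtain ⟨hb1, hb2⟩ := hball s hs
    have h3l := Complex.HadamardThreeLines.norm_le_interp_of_mem_verticalClosedStrip' (f := f)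
      (z := s) (a := P * Q * E + 1) (b := D) (l := σ1) (u := 3) (by linarith)
      (by
        show s.re ∈ Icc σ1 3
        exact ⟨by rw [hσ1]; linarith, by linarith⟩) hdc
      ⟨P * Q * E + 1, by
        rintro _ ⟨w, hw, rfl⟩
        exact hfb w hw.1 hw.2⟩
      (fun w hw => hfb w (le_of_eq (show w.re = σ1 from hw).symm) (by
        rw [show w.re = σ1 from hw]; linarith))
      (fun w hw => hfr w hw)
    set κ := (s.re - σ1) / (3 - σ1) with hκ
    have hκκ : κ0 ≤ κ := div_le_div_of_nonneg_right (by rw [hσ1]; linarith) h3σ.le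
    have hκ1 : κ ≤ 1 := by rw [hκ, div_le_one h3σ]; linarith
    have hM1 : 1 ≤ P * Q * E + 1 := by
      have : 0 ≤ P * Q * E := by positivity
      linarith
    have hfs : ‖f s‖ ≤ (P * Q * E + 1) * D ^ κ0 := by
      refine h3l.trans (mul_le_mul ?_ ?_ (by positivity) (by linarith))
      · calc (P * Q * E + 1) ^ (1 - κ) ≤ (P * Q * E + 1) ^ (1 : ℝ) :=
              Real.rpow_le_rpow_of_exponent_le hM1 (by linarith)
          _ = _ := Real.rpow_one _
      · exact Real.rpow_le_rpow_of_exponent_ge hD0 he3.le hκκ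
    have hfs2 : ‖f s‖ * Real.exp 1 ≤ δ := by
      have h1 : P * Q * E + 1 ≤ (P * Q * Real.exp (2 * Ch) + 1) * Real.exp (B * z ^ (3 / 4 : ℝ)) := by
        have h2 : E = Real.exp (B * z ^ (3 / 4 : ℝ)) * Real.exp (2 * Ch) := by rw [hE, Real.exp_add]
        have h3 : 1 ≤ Real.exp (B * z ^ (3 / 4 : ℝ)) := Real.one_le_exp (by positivity)
        rw [h2]
        linarith
      have h2 : D ^ κ0 = H ^ κ0 * Real.exp (-(κ0 * Real.log 2 * z)) := by
        rw [hD, Real.mul_rpow hH0.le (Real.exp_pos _).le, ← Real.exp_mul]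
        congr 2
        ring
      have h3 : Real.exp (B * z ^ (3 / 4 : ℝ)) * Real.exp (-(κ0 * Real.log 2 * z)) ≤ Real.exp (-(nu0 * z)) := by
        rw [← Real.exp_add]
        refine Real.exp_le_exp.2 ?_
        have : κ0 * Real.log 2 * z = 2 * (nu0 * z) := by rw [hnu0]; ring
        linarith
      calc ‖f s‖ * Real.exp 1 ≤ ((P * Q * E + 1) * D ^ κ0) * Real.exp 1 :=
            mul_le_mul_of_nonneg_right hfs (Real.exp_pos _).le
        _ ≤ (((P * Q * Real.exp (2 * Ch) + 1) * Real.exp (B * z ^ (3 / 4 : ℝ))) *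
            (H ^ κ0 * Real.exp (-(κ0 * Real.log 2 * z)))) * Real.exp 1 := by
            rw [h2]
            gcongr
        _ = W * (Real.exp (B * z ^ (3 / 4 : ℝ)) * Real.exp (-(κ0 * Real.log 2 * z))) := by
            rw [hW]
            ring
        _ ≤ W * Real.exp (-(nu0 * z)) := mul_le_mul_of_nonneg_left h3 hW0.le
        _ ≤ δ := he2.le
    have e : Zs s - Y s = f s * Complex.exp (-((s - s0) ^ 2)) := by
      simp only [hf]
      rw [mul_assoc, ← Complex.exp_add, add_neg_cancel, Complex.exp_zero, mul_one]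
    rw [e, norm_mul]
    refine (mul_le_mul_of_nonneg_left ?_ (norm_nonneg _)).trans hfs2
    refine (Complex.norm_exp_le_exp_norm _).trans (Real.exp_le_exp.2 ?_)
    rw [norm_neg, norm_pow]
    have h1 : ‖s - s0‖ ≤ 1 := by
      rw [← dist_eq_norm]
      exact (Metric.mem_closedBall.1 hs).trans hε1
    exact pow_le_one₀ (norm_nonneg _) h1

end Pool.Agent.H49.RH
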