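import Pool.Agent.H49.RH.Trn

/-!
# The rate of convergence of the partial sums
-/

set_option autoImplicit false

open Complex MeasureTheory Filter Topology Set

namespace Pool.Agent.H49.RH

theorem PR_short {b : ℕ → ℝ} {b0 : ℝ} (hb : Fam b b0) {ε C : ℝ}
    (hC : ∀ x : ℝ, 1 ≤ x → ({j : ℕ | x ≤ b j ∧ b j ≤ x + √x}.ncard : ℝ) ≤ C * x ^ (1 / 2 + ε)) {x y : ℝ}
    (hx : 1 ≤ x) (hxy : x ≤ y) (hy : y ≤ x + √x) : |PR b y - PR b x| ≤ C * x ^ (-(1 / 2 - ε)) := by
  have hx0 : 0 < x := by linarith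
  rw [abs_of_nonneg (sub_nonneg.2 (PR_mono hb hxy))]
  have hfin : {j : ℕ | x ≤ b j ∧ b j ≤ x + √x}.Finite := (hb.fin (x + √x)).subset fun j hj => hj.2
  have hind : HasSum (fun j => if x ≤ b j ∧ b j ≤ x + √x then x⁻¹ else 0)
      (({j : ℕ | x ≤ b j ∧ b j ≤ x + √x}.ncard : ℝ) * x⁻¹) := by
    have h1 : HasSum (fun j => if x ≤ b j ∧ b j ≤ x + √x then x⁻¹ else 0)
        (∑ j ∈ hfin.toFinset, if x ≤ b j ∧ b j ≤ x + √x then x⁻¹ else 0) :=
      hasSum_sum_of_ne_finset_zero (fun j hj => by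
        rw [Set.Finite.mem_toFinset] at hj
        exact if_neg hj)
    have h2 : (∑ j ∈ hfin.toFinset, if x ≤ b j ∧ b j ≤ x + √x then x⁻¹ else 0) =
        ({j : ℕ | x ≤ b j ∧ b j ≤ x + √x}.ncard : ℝ) * x⁻¹ := by
      rw [Set.ncard_eq_toFinset_card _ hfin, Finset.sum_congr rfl (fun j hj => by
        rw [Set.Finite.mem_toFinset] at hj
        exact if_pos hj : ∀ j ∈ hfin.toFinset, (if x ≤ b j ∧ b j ≤ x + √x then x⁻¹ else 0) = x⁻¹)]
      simp
    rw [← h2]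
    exact h1
  have h3 := hasSum_le (fun j => (by
    have hinv := inv_nonneg.2 (hb.pos j).le
    have hxinv : 0 ≤ x⁻¹ := inv_nonneg.2 hx0.le
    rcases lt_or_ge (b j) x with h | h
    · rw [if_pos (h.trans_le hxy), if_pos h, sub_self]
      split_ifs
      · exact hxinv
      · exact le_rfl
    · rw [if_neg (not_lt.2 h)]
      rcases lt_or_ge (b j) y with h4 | h4
      · rw [if_pos h4, if_pos ⟨h, h4.le.trans hy⟩, sub_zero]
        exact inv_anti₀ hx0 h
      · rw [if_neg (not_lt.2 h4), sub_zero]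
        split_ifs
        · exact hxinv
        · exact le_rfl :
    (if b j < y then (b j)⁻¹ else 0) - (if b j < x then (b j)⁻¹ else 0) ≤
      if x ≤ b j ∧ b j ≤ x + √x then x⁻¹ else 0)) ((PR_sum hb y).sub (PR_sum hb x)) hind
  refine h3.trans ?_
  calc ({j : ℕ | x ≤ b j ∧ b j ≤ x + √x}.ncard : ℝ) * x⁻¹ ≤ (C * x ^ (1 / 2 + ε)) * x⁻¹ :=
        mul_le_mul_of_nonneg_right (hC x hx) (inv_nonneg.2 hx0.le)
    _ = C * x ^ (-(1 / 2 - ε)) := by
        rw [mul_assoc, ← Real.rpow_neg_one x, ← Real.rpow_add hx0]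
        congr 2
        ring

theorem half_pow {x a : ℝ} (hx : 0 < x) (ha : 0 < a) (ha1 : a ≤ 1) {n : ℝ} (hn : x / 2 ≤ n) :
    n ^ (-a) ≤ 2 * x ^ (-a) := by
  calc n ^ (-a) ≤ (x / 2) ^ (-a) := Real.rpow_le_rpow_of_nonpos (by linarith) hn (by linarith)
    _ = 2 ^ a * x ^ (-a) := by
        rw [Real.div_rpow hx.le (by norm_num), Real.rpow_neg (by norm_num : (0 : ℝ) ≤ 2), div_inv_eq_mul, mul_comm]
    _ ≤ 2 ^ (1 : ℝ) * x ^ (-a) :=
        mul_le_mul_of_nonneg_right (Real.rpow_le_rpow_of_exponent_le (by norm_num) ha1) (by positivity)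
    _ = 2 * x ^ (-a) := by rw [Real.rpow_one]

theorem rate {b : ℕ → ℝ} {b0 : ℝ} (hb : Fam b b0) (hbs : Short b) (hps : Short pr) {a C : ℝ} (ha0 : 0 < a)
    (ha : a < 1 / 2) {z1 : ℕ} (hz1 : 1 ≤ z1) {φ : ℕ → ℕ}
    (h : ∀ z w : ℕ, z1 ≤ z → φ z ≤ w → |(PR pr w - PR b w) - (PR pr z - PR b z)| ≤ C * (z : ℝ) ^ (-a)) :
    ∃ l C' : ℝ, ∀ x : ℝ, 1 ≤ x → |PR pr x - PR b x - l| ≤ C' * x ^ (-a) := by
  set d : ℝ → ℝ := fun x => PR pr x - PR b x with hd
  have hC0 : 0 ≤ C := by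
    have h1 := (abs_nonneg _).trans (h z1 (φ z1) le_rfl le_rfl)
    have h2 : (0 : ℝ) < (z1 : ℝ) ^ (-a) := by
      have : (0 : ℝ) < z1 := by exact_mod_cast hz1
      positivity
    by_contra h3
    push Not at h3
    nlinarith
  have h2 : ∀ z z' : ℕ, z1 ≤ z → z1 ≤ z' → |d z - d z'| ≤ C * (z : ℝ) ^ (-a) + C * (z' : ℝ) ^ (-a) := by
    intro z z' hz hz'
    have e1 := h z (max (φ z) (φ z')) hz (le_max_left _ _)
    have e2 := h z' (max (φ z) (φ z')) hz' (le_max_right _ _)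
    have e3 : d z - d z' = (d (max (φ z) (φ z') : ℕ) - d z') - (d (max (φ z) (φ z') : ℕ) - d z) := by ring
    rw [e3]
    refine (abs_sub _ _).trans ?_
    rw [add_comm]
    exact add_le_add e1 e2
  have hlim0 : Tendsto (fun n : ℕ => (n : ℝ) ^ (-a)) atTop (𝓝 0) :=
    (tendsto_rpow_neg_atTop ha0).comp tendsto_natCast_atTop_atTop
  have hcau : CauchySeq (fun n : ℕ => d n) := by
    rw [Metric.cauchySeq_iff]
    intro δ hδ
    have h3 : ∀ᶠ n : ℕ in atTop, (n : ℝ) ^ (-a) < δ / (2 * (C + 1)) :=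
      hlim0.eventually (gt_mem_nhds (by positivity))
    obtain ⟨N, hN⟩ := eventually_atTop.1 (h3.and (eventually_ge_atTop z1))
    refine ⟨N, fun m hm n hn => ?_⟩
    obtain ⟨f1, f2⟩ := hN m hm
    obtain ⟨f3, f4⟩ := hN n hn
    rw [Real.dist_eq]
    refine lt_of_le_of_lt (h2 m n f2 f4) ?_
    rw [lt_div_iff₀ (by positivity)] at f1 f3
    have f5 : 0 ≤ (m : ℝ) ^ (-a) := by positivity
    have f6 : 0 ≤ (n : ℝ) ^ (-a) := by positivity
    have f7 : C * (m : ℝ) ^ (-a) ≤ (C + 1) * (m : ℝ) ^ (-a) := by nlinarith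
    have f8 : C * (n : ℝ) ^ (-a) ≤ (C + 1) * (n : ℝ) ^ (-a) := by nlinarith
    linarith
  obtain ⟨l, hl⟩ := cauchySeq_tendsto_of_complete hcau
  have h4 : ∀ z : ℕ, z1 ≤ z → |d z - l| ≤ C * (z : ℝ) ^ (-a) := by
    intro z hz
    have f1 : Tendsto (fun n : ℕ => |d z - d n|) atTop (𝓝 |d z - l|) := (tendsto_const_nhds.sub hl).abs
    have f2 : Tendsto (fun n : ℕ => C * (z : ℝ) ^ (-a) + C * (n : ℝ) ^ (-a)) atTop (𝓝 (C * (z : ℝ) ^ (-a) + C * 0)) :=
      tendsto_const_nhds.add (hlim0.const_mul C)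
    rw [mul_zero, add_zero] at f2
    refine le_of_tendsto_of_tendsto f1 f2 ?_
    filter_upwards [eventually_ge_atTop z1] with n hn
    exact h2 z n hz hn
  obtain ⟨CP, hCP0, hCP⟩ := hps (1 / 2 - a) (by linarith)
  obtain ⟨CB, hCB0, hCB⟩ := hbs (1 / 2 - a) (by linarith)
  set M := PR pr (z1 + 1) + PR b (z1 + 1) + |l| with hM
  have hM0 : 0 ≤ M := by
    have f1 : 0 ≤ PR pr (z1 + 1) := (PR_sum pr_fam _).nonneg fun j => by
      split_ifs
      · exact inv_nonneg.2 (pr_fam.pos j).le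
      · exact le_rfl
    have f2 : 0 ≤ PR b (z1 + 1) := (PR_sum hb _).nonneg fun j => by
      split_ifs
      · exact inv_nonneg.2 (hb.pos j).le
      · exact le_rfl
    positivity
  refine ⟨l, 2 * (C + CP + CB) + M * (z1 + 1), fun x hx => ?_⟩
  have hx0 : 0 < x := by linarith
  have hxa : 0 < x ^ (-a) := by positivity
  have hz1' : (1 : ℝ) ≤ z1 := by exact_mod_cast hz1
  rcases le_total x (z1 + 1) with hxz | hxz
  · have f1 : |PR pr x - PR b x - l| ≤ M := by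
      have g1 : 0 ≤ PR pr x := (PR_sum pr_fam _).nonneg fun j => by
        split_ifs
        · exact inv_nonneg.2 (pr_fam.pos j).le
        · exact le_rfl
      have g2 : 0 ≤ PR b x := (PR_sum hb _).nonneg fun j => by
        split_ifs
        · exact inv_nonneg.2 (hb.pos j).le
        · exact le_rfl
      have g3 := PR_mono pr_fam hxz
      have g4 := PR_mono hb hxz
      have g5 := le_abs_self l
      have g6 := neg_abs_le l
      rw [abs_le]
      constructor <;> rw [hM] <;> linarith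
    have f2 : 1 ≤ (z1 + 1) * x ^ (-a) := by
      have g1 : x ^ a ≤ z1 + 1 := by
        calc x ^ a ≤ x ^ (1 : ℝ) := Real.rpow_le_rpow_of_exponent_le hx (by linarith)
          _ = x := Real.rpow_one x
          _ ≤ z1 + 1 := hxz
      rw [Real.rpow_neg hx0.le, ← div_eq_mul_inv, le_div_iff₀ (by positivity), one_mul]
      exact g1
    have f3 : M ≤ M * ((z1 + 1) * x ^ (-a)) := le_mul_of_one_le_right hM0 f2
    have f4 : 0 ≤ 2 * (C + CP + CB) * x ^ (-a) := by positivity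
    calc |PR pr x - PR b x - l| ≤ M := f1
      _ ≤ M * ((z1 + 1) * x ^ (-a)) := f3
      _ ≤ (2 * (C + CP + CB) + M * (z1 + 1)) * x ^ (-a) := by linarith
  · set n := ⌊x⌋₊ with hn
    have hnx : (n : ℝ) ≤ x := Nat.floor_le hx0.le
    have hxn : x < n + 1 := Nat.lt_floor_add_one x
    have hnz : z1 ≤ n := Nat.le_floor (by linarith)
    have hn1 : (1 : ℝ) ≤ n := by
      have : 1 ≤ n := hz1.trans hnz
      exact_mod_cast this
    have hsq : (1 : ℝ) ≤ √n := by rw [Real.one_le_sqrt]; exact hn1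
    have f1 := PR_short pr_fam hCP hn1 hnx (by linarith)
    have f2 := PR_short hb hCB hn1 hnx (by linarith)
    have e1 : -(1 / 2 - (1 / 2 - a)) = -a := by ring
    rw [e1] at f1 f2
    have f3 := h4 n hnz
    have f4 : (n : ℝ) ^ (-a) ≤ 2 * x ^ (-a) := half_pow hx0 ha0 (by linarith) (by linarith)
    have f5 : |PR pr x - PR b x - l| ≤ |PR pr x - PR pr n| + |PR b x - PR b n| + |d n - l| := by
      have g : PR pr x - PR b x - l = (PR pr x - PR pr n) - (PR b x - PR b n) + (d n - l) := by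
        simp only [hd]
        ring
      rw [g]
      exact (abs_add_le _ _).trans (add_le_add (abs_sub _ _) le_rfl)
    have f6 : 0 ≤ M * (z1 + 1) * x ^ (-a) := by positivity
    calc |PR pr x - PR b x - l| ≤ CP * (n : ℝ) ^ (-a) + CB * (n : ℝ) ^ (-a) + C * (n : ℝ) ^ (-a) := by linarith
      _ = (C + CP + CB) * (n : ℝ) ^ (-a) := by ring
      _ ≤ (C + CP + CB) * (2 * x ^ (-a)) := mul_le_mul_of_nonneg_left f4 (by positivity)
      _ ≤ (2 * (C + CP + CB) + M * (z1 + 1)) * x ^ (-a) := by linarith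

end Pool.Agent.H49.RH
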