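import Pool.Agent.H49.BP.Count

/-!
# Weighted Riesz means
-/

set_option autoImplicit false

open Complex MeasureTheory Filter Topology Set

namespace Pool.Agent.H49.RH

open Pool.Agent.H49.BP (ff fg ff_scale inv_ff norm_den den_ne cpow_quot line_int shift K_bd int_pow min_bd)

theorem riesz_w {l : ℕ → ℝ} {a : ℕ → ℂ} (hl : ∀ n, 1 ≤ l n) (hsum : Summable fun n => ‖a n‖ * (l n) ^ (-2 : ℝ))
    {x : ℝ} (hx : 1 ≤ x) :
    Integrable (fun t : ℝ => (∑' n, a n * (l n : ℂ) ^ (-(((2 : ℝ) : ℂ) + t * I))) *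
      (x : ℂ) ^ (((2 : ℝ) : ℂ) + t * I + 1) / ((((2 : ℝ) : ℂ) + t * I) * (((2 : ℝ) : ℂ) + t * I + 1))) ∧
    HasSum (fun n => a n * ((max (x - l n) 0 : ℝ) : ℂ)) (1 / (2 * Real.pi) *
      ∫ t : ℝ, (∑' n, a n * (l n : ℂ) ^ (-(((2 : ℝ) : ℂ) + t * I))) *
      (x : ℂ) ^ (((2 : ℝ) : ℂ) + t * I + 1) / ((((2 : ℝ) : ℂ) + t * I) * (((2 : ℝ) : ℂ) + t * I + 1))) := by
  have hx0 : 0 < x := by linarith
  have hc : (1 : ℝ) < 2 := by norm_num
  have hpi : (2 * Real.pi : ℂ) ≠ 0 := by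
    have : (Real.pi : ℂ) ≠ 0 := by exact_mod_cast Real.pi_ne_zero
    simp [this]
  let S : ℝ → ℂ := fun t => ((2 : ℝ) : ℂ) + t * I
  let F : ℕ → ℝ → ℂ := fun n t => a n * (l n : ℂ) ^ (-(S t)) * (x : ℂ) ^ (S t + 1) / (S t * (S t + 1))
  have hSre : ∀ t, (S t).re = 2 := by intro t; simp [S]
  have hScont : Continuous S := by simp only [S]; fun_prop
  have hnx : ∀ t : ℝ, ‖(x : ℂ) ^ (S t + 1)‖ = x ^ (3 : ℝ) := by
    intro t
    rw [Complex.norm_cpow_eq_rpow_re_of_pos hx0]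
    congr 1
    rw [Complex.add_re, hSre]; norm_num
  have hnl : ∀ (n : ℕ) (t : ℝ), ‖(l n : ℂ) ^ (-(S t))‖ = (l n) ^ (-2 : ℝ) := by
    intro n t
    rw [Complex.norm_cpow_eq_rpow_re_of_pos (by linarith [hl n]), Complex.neg_re, hSre]
  have hbd : ∀ (n : ℕ) (t : ℝ), ‖F n t‖ ≤ (‖a n‖ * (l n) ^ (-2 : ℝ) * x ^ (3 : ℝ)) * (1 + t ^ 2)⁻¹ := by
    intro n t
    simp only [F]
    rw [norm_div, norm_mul, norm_mul, hnx, hnl, div_eq_mul_inv]
    have h3 : (‖S t * (S t + 1)‖)⁻¹ ≤ (1 + t ^ 2)⁻¹ :=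
      inv_anti₀ (by positivity) (norm_den hc)
    have h4 : 0 ≤ (l n) ^ (-2 : ℝ) := Real.rpow_nonneg (by linarith [hl n]) _
    exact mul_le_mul_of_nonneg_left h3 (by positivity)
  have hcont : ∀ n : ℕ, Continuous (F n) := by
    intro n
    simp only [F]
    have hn0 : (l n : ℂ) ≠ 0 := by
      have : l n ≠ 0 := by linarith [hl n]
      exact_mod_cast this
    have hxx : (x : ℂ) ≠ 0 := by exact_mod_cast hx0.ne'
    refine Continuous.div (Continuous.mul (continuous_const.mul ?_) ?_) (by fun_prop) fun t => den_ne hc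
    · exact Continuous.const_cpow (by fun_prop) (Or.inl hn0)
    · exact Continuous.const_cpow (by fun_prop) (Or.inl hxx)
  have hint : ∀ n : ℕ, Integrable (F n) := by
    intro n
    refine ((integrable_inv_one_add_sq).const_mul (‖a n‖ * (l n) ^ (-2 : ℝ) * x ^ (3 : ℝ))).mono'
      (hcont n).aestronglyMeasurable (Eventually.of_forall fun t => hbd n t)
  have hsum' : Summable fun n : ℕ => ∫ t, ‖F n t‖ := by
    have h1 : Summable fun n : ℕ => ‖a n‖ * (l n) ^ (-2 : ℝ) * (x ^ (3 : ℝ) * Real.pi) := hsum.mul_right _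
    refine Summable.of_nonneg_of_le (fun n => integral_nonneg fun t => norm_nonneg _) (fun n => ?_) h1
    calc ∫ t, ‖F n t‖ ≤ ∫ t, (‖a n‖ * (l n) ^ (-2 : ℝ) * x ^ (3 : ℝ)) * (1 + t ^ 2)⁻¹ :=
          integral_mono (hint n).norm ((integrable_inv_one_add_sq).const_mul _) (fun t => hbd n t)
      _ = ‖a n‖ * (l n) ^ (-2 : ℝ) * (x ^ (3 : ℝ) * Real.pi) := by
          rw [integral_const_mul, integral_univ_inv_one_add_sq]; ring
  have hH := hasSum_integral_of_summable_integral_norm hint hsum'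
  -- the terms
  have hT : ∀ n : ℕ, ∫ t, F n t = (2 * Real.pi) * (a n * ((max (x - l n) 0 : ℝ) : ℂ)) := by
    intro n
    have hln : 0 < l n := by linarith [hl n]
    rw [← ff_scale hx0, inv_ff (div_pos hln hx0)]
    have e : (2 * Real.pi : ℂ) * (a n * (x * (1 / (2 * Real.pi) * ∫ t : ℝ, ((l n / x : ℝ) : ℂ) ^ (-(((2 : ℝ) : ℂ) + t * I)) /
      ((((2 : ℝ) : ℂ) + t * I) * (((2 : ℝ) : ℂ) + t * I + 1))))) = (a n * x) * ∫ t : ℝ, ((l n / x : ℝ) : ℂ) ^ (-(((2 : ℝ) : ℂ) + t * I)) /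
      ((((2 : ℝ) : ℂ) + t * I) * (((2 : ℝ) : ℂ) + t * I + 1)) := by
      generalize (∫ t : ℝ, ((l n / x : ℝ) : ℂ) ^ (-(((2 : ℝ) : ℂ) + t * I)) /
      ((((2 : ℝ) : ℂ) + t * I) * (((2 : ℝ) : ℂ) + t * I + 1))) = J
      field_simp
    rw [e, ← integral_const_mul]
    refine integral_congr_ae (Eventually.of_forall fun t => ?_)
    simp only [F]
    rw [cpow_quot hx0 hln]
    have hxx : (x : ℂ) ≠ 0 := by exact_mod_cast hx0.ne'
    rw [Complex.cpow_add _ _ hxx, Complex.cpow_one]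
    simp only [S]
    ring
  have hsumI : Integrable fun t => ∑' n, F n t := by
    have hm : AEStronglyMeasurable (fun t => ∑' n, F n t) volume := by
      have hcc : Continuous fun t => ∑' n, F n t := by
        refine continuous_tsum hcont (u := fun n => ‖a n‖ * (l n) ^ (-2 : ℝ) * x ^ (3 : ℝ)) (hsum.mul_right _) ?_
        intro n t
        refine (hbd n t).trans ?_
        have h4 : 0 ≤ (l n) ^ (-2 : ℝ) := Real.rpow_nonneg (by linarith [hl n]) _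
        have h5 : (1 + t ^ 2)⁻¹ ≤ 1 := inv_le_one_of_one_le₀ (by nlinarith [sq_nonneg t])
        exact mul_le_of_le_one_right (by positivity) h5
      exact hcc.aestronglyMeasurable
    refine ((integrable_inv_one_add_sq).const_mul ((∑' n, ‖a n‖ * (l n) ^ (-2 : ℝ)) * x ^ (3 : ℝ))).mono' hm ?_
    refine Eventually.of_forall fun t => ?_
    have h6 : HasSum (fun n => (‖a n‖ * (l n) ^ (-2 : ℝ) * x ^ (3 : ℝ)) * (1 + t ^ 2)⁻¹)
        (((∑' n, ‖a n‖ * (l n) ^ (-2 : ℝ)) * x ^ (3 : ℝ)) * (1 + t ^ 2)⁻¹) :=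
      (hsum.hasSum.mul_right _).mul_right _
    exact tsum_of_norm_bounded h6 fun n => hbd n t
  have hFe : (fun t => ∑' n, F n t) = fun t : ℝ => (∑' n, a n * (l n : ℂ) ^ (-(((2 : ℝ) : ℂ) + t * I))) *
      (x : ℂ) ^ (((2 : ℝ) : ℂ) + t * I + 1) / ((((2 : ℝ) : ℂ) + t * I) * (((2 : ℝ) : ℂ) + t * I + 1)) := by
    funext t
    simp only [F]
    rw [tsum_div_const, tsum_mul_right]
  rw [hFe] at hsumI hH
  refine ⟨hsumI, ?_⟩
  simp_rw [hT] at hH
  have h7 := hH.mul_left (1 / (2 * Real.pi) : ℂ)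
  have e1 : (fun n => a n * ((max (x - l n) 0 : ℝ) : ℂ)) =
      fun n => (1 / (2 * Real.pi) : ℂ) * (2 * Real.pi * (a n * ((max (x - l n) 0 : ℝ) : ℂ))) := by
    funext n
    rw [← mul_assoc (1 / (2 * Real.pi) : ℂ), one_div, inv_mul_cancel₀ hpi, one_mul]
  rw [e1]
  exact h7

end Pool.Agent.H49.RH
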