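import Pool.Agent.H49.RH.Fwd

/-!
# Sets of generalised primes and their integers
-/

set_option autoImplicit false

open Complex MeasureTheory Filter Topology Set

namespace Pool.Agent.H49.RH

open Pool.Agent.H49.BP (gint one_le_gint fin_le ht)

/-- The number of generalised integers up to `x` of the set `A` of generalised primes: the number of finite multisets
of elements of `A` whose product is at most `x`. -/
noncomputable def ints (A : Set ℝ) (x : ℝ) : ℕ := {w : Multiset ℝ | (∀ a ∈ w, a ∈ A) ∧ w.prod ≤ x}.ncard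

/-- the multiset of an index -/
noncomputable def msf (m : ℕ → ℝ) (n : ℕ) : Multiset ℝ :=
  ((n + 1).primeFactorsList.map fun p => m (Nat.primeCounting' p) : List ℝ)

theorem msf_prod (m : ℕ → ℝ) (n : ℕ) : (msf m n).prod = gint m (n + 1) := by
  unfold msf gint
  rw [Multiset.prod_coe]

theorem ints_eq {A : Set ℝ} {m : ℕ → ℝ} (hm : Function.Injective m) (hr : range m = A) (x : ℝ) :
    ints A x = {n : ℕ | gint m (n + 1) ≤ x}.ncard := by
  have hinv : ∀ j, Function.invFun m (m j) = j := Function.leftInverse_invFun hm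
  set g : ℝ → ℕ := fun a => Nat.nth Nat.Prime (Function.invFun m a) with hg
  have hgf : ∀ p : ℕ, p.Prime → g (m (Nat.primeCounting' p)) = p := by
    intro p hp
    simp only [hg]
    rw [hinv]
    unfold Nat.primeCounting'
    exact Nat.nth_count hp
  have hfg : ∀ a : ℝ, a ∈ A → m (Nat.primeCounting' (g a)) = a := by
    intro a ha
    rw [← hr] at ha
    obtain ⟨j, rfl⟩ := ha
    simp only [hg]
    rw [hinv, Nat.primeCounting'_nth_eq]
  have hgp : ∀ a : ℝ, (g a).Prime := fun a => Nat.prime_nth_prime _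
  have hmap : ∀ n : ℕ, ((msf m n).map g) = ((n + 1).primeFactorsList : Multiset ℕ) := by
    intro n
    unfold msf
    rw [Multiset.map_coe, List.map_map]
    congr 1
    have : ∀ p ∈ (n + 1).primeFactorsList, (g ∘ fun p => m (Nat.primeCounting' p)) p = id p := by
      intro p hp
      exact hgf p (Nat.prime_of_mem_primeFactorsList hp)
    rw [List.map_congr_left this, List.map_id]
  have hinj : Function.Injective (msf m) := by
    intro n n' h
    have h1 := hmap n
    rw [h, hmap n'] at h1
    have h2 : ((n' + 1).primeFactorsList : Multiset ℕ).prod = ((n + 1).primeFactorsList : Multiset ℕ).prod := by rw [h1]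
    rw [Multiset.prod_coe, Multiset.prod_coe, Nat.prod_primeFactorsList (Nat.succ_ne_zero _),
      Nat.prod_primeFactorsList (Nat.succ_ne_zero _)] at h2
    omega
  unfold ints
  rw [← Set.ncard_image_of_injective _ hinj]
  congr 1
  ext w
  constructor
  · rintro ⟨h1, h2⟩
    induction w using Quotient.inductionOn with
    | _ L =>
      have hL : ∀ a ∈ L, a ∈ A := fun a ha => h1 a (by simpa using ha)
      set P := L.map g with hP
      have hPp : ∀ p ∈ P, p.Prime := by
        intro p hp
        rw [hP, List.mem_map] at hp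
        obtain ⟨a, _, rfl⟩ := hp
        exact hgp a
      have hne : P.prod ≠ 0 := by
        intro h0
        rw [List.prod_eq_zero_iff] at h0
        exact (hPp 0 h0).ne_zero rfl
      have hperm : P.Perm (P.prod).primeFactorsList := Nat.primeFactorsList_unique rfl hPp
      have hms : msf m (P.prod - 1) = (L : Multiset ℝ) := by
        unfold msf
        rw [Nat.sub_add_cancel (Nat.one_le_iff_ne_zero.2 hne)]
        rw [Multiset.coe_eq_coe]
        refine (hperm.map fun p => m (Nat.primeCounting' p)).symm.trans ?_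
        rw [hP, List.map_map]
        have : ∀ a ∈ L, ((fun p => m (Nat.primeCounting' p)) ∘ g) a = id a := fun a ha => hfg a (hL a ha)
        rw [List.map_congr_left this, List.map_id]
      refine ⟨P.prod - 1, ?_, hms⟩
      show gint m (P.prod - 1 + 1) ≤ x
      rw [← msf_prod, hms]
      exact h2
  · rintro ⟨n, hn, rfl⟩
    refine ⟨fun a ha => ?_, ?_⟩
    · unfold msf at ha
      rw [Multiset.mem_coe, List.mem_map] at ha
      obtain ⟨p, _, rfl⟩ := ha
      rw [← hr]
      exact mem_range_self _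
    · rw [msf_prod]
      exact hn

theorem one_le_prod (w : Multiset ℝ) : (∀ a ∈ w, 1 ≤ a) → 1 ≤ w.prod := by
  induction w using Multiset.induction_on with
  | empty => intro _; simp
  | cons a t ih =>
    intro h
    rw [Multiset.prod_cons]
    exact one_le_mul_of_one_le_of_one_le (h a (Multiset.mem_cons_self a t))
      (ih fun b hb => h b (Multiset.mem_cons_of_mem hb))

theorem le_prod_of_mem {w : Multiset ℝ} (h1 : ∀ a ∈ w, 1 ≤ a) {a : ℝ} (ha : a ∈ w) : a ≤ w.prod := by
  obtain ⟨t, rfl⟩ := Multiset.exists_cons_of_mem ha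
  rw [Multiset.prod_cons]
  have h2 : 1 ≤ t.prod := one_le_prod t (fun b hb => h1 b (Multiset.mem_cons_of_mem hb))
  have h3 : 1 ≤ a := h1 a (Multiset.mem_cons_self a t)
  exact le_mul_of_one_le_right (by linarith) h2

/-- the number of integers up to `x` depends only on the generalised primes up to `x` -/
theorem ints_congr {A A' : Set ℝ} (h1 : ∀ a ∈ A, 1 ≤ a) (h1' : ∀ a ∈ A', 1 ≤ a) {x : ℝ}
    (h : ∀ a, a ≤ x → (a ∈ A ↔ a ∈ A')) : ints A x = ints A' x := by
  unfold ints
  congr 1
  ext w
  constructor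
  · rintro ⟨h2, h3⟩
    exact ⟨fun a ha => (h a ((le_prod_of_mem (fun b hb => h1 b (h2 b hb)) ha).trans h3)).1 (h2 a ha), h3⟩
  · rintro ⟨h2, h3⟩
    exact ⟨fun a ha => (h a ((le_prod_of_mem (fun b hb => h1' b (h2 b hb)) ha).trans h3)).2 (h2 a ha), h3⟩

theorem mixS_ge {b : ℕ → ℝ} {b0 : ℝ} (hb : Fam b b0) (U : Set ℝ) : ∀ a ∈ mixS b U, 1 ≤ a := by
  rintro a (⟨⟨i, rfl⟩, _⟩ | ⟨⟨i, rfl⟩, _⟩)
  · exact (pr_fam.one_lt i).le
  · exact (hb.one_lt i).le

theorem enum {A : Set ℝ} (hi : A.Infinite) (hc : A.Countable) :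
    ∃ m : ℕ → ℝ, Function.Injective m ∧ range m = A := by
  have : Infinite A := hi.to_subtype
  have : Countable A := hc.to_subtype
  obtain ⟨e⟩ : Nonempty (ℕ ≃ A) := nonempty_equiv_of_countable
  refine ⟨fun j => (e j : ℝ), fun i j h => e.injective (Subtype.ext h), ?_⟩
  ext a
  constructor
  · rintro ⟨j, rfl⟩
    exact (e j).2
  · intro ha
    exact ⟨e.symm ⟨a, ha⟩, by simp⟩

theorem mixS_countable (b : ℕ → ℝ) (U : Set ℝ) : (mixS b U).Countable :=
  ((countable_range pr).mono inter_subset_left).union ((countable_range b).mono sdiff_subset)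

theorem Fam.exists_gt {b : ℕ → ℝ} {b0 : ℝ} (hb : Fam b b0) (V : ℝ) : ∃ j, V < b j := by
  by_contra h
  push Not at h
  have hfin := fin_le (l := b) (fun n => (hb.one_lt n).le) (hb.sum 2 (by norm_num)) V
  have : {n | b n ≤ V} = univ := eq_univ_of_forall h
  rw [this] at hfin
  exact Set.infinite_univ hfin

/-- a mixture with a bounded part of primes -/
theorem enum_bdd {b : ℕ → ℝ} {b0 : ℝ} (hb : Fam b b0) {U : Set ℝ} {V : ℝ} (hU : ∀ x ∈ U, x ≤ V) :
    ∃ m : ℕ → ℝ, Function.Injective m ∧ range m = mixS b U := by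
  refine enum (Set.infinite_of_not_bddAbove ?_) (mixS_countable b U)
  rintro ⟨B, hB⟩
  obtain ⟨j, hj⟩ := hb.exists_gt (max B V)
  have h1 : b j ∈ mixS b U := Or.inr ⟨mem_range_self j, fun h => by
    have := hU _ h
    have := le_max_right B V
    linarith⟩
  have := hB h1
  have := le_max_left B V
  linarith

/-- a mixture with lacunary cuts -/
theorem enum_lac (b : ℕ → ℝ) {c : ℕ → ℕ} (hc : Lac c) :
    ∃ m : ℕ → ℝ, Function.Injective m ∧ range m = mixS b (UU c) := by
  refine enum (Set.infinite_of_not_bddAbove ?_) (mixS_countable b _)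
  rintro ⟨B, hB⟩
  obtain ⟨i, hi⟩ := exists_nat_gt B
  have h1 : 2 ^ (2 * (i + 1)) ≤ c (2 * (i + 1)) := hc.pow_le _
  have h2 : i + 2 ≤ 2 ^ (2 * (i + 1)) := by
    have h3 : i + 1 < 2 ^ (i + 1) := Nat.lt_two_pow_self
    have h4 : 2 ^ (i + 1) ≤ 2 ^ (2 * (i + 1)) := Nat.pow_le_pow_right (by norm_num) (by omega)
    omega
  obtain ⟨p, hp, h3, h4⟩ := Nat.exists_prime_lt_and_le_two_mul (c (2 * (i + 1))) (by omega)
  have h5 := hc.2 (2 * (i + 1))
  have h6 : p < c (2 * (i + 1) + 1) := by
    rcases lt_or_eq_of_le (h4.trans h5) with h | h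
    · exact h
    · exfalso
      have h7 : p = 2 * c (2 * (i + 1)) := le_antisymm h4 (h ▸ h5)
      have h8 := (Nat.prime_dvd_prime_iff_eq Nat.prime_two hp).1 ⟨_, h7⟩
      omega
  have h7 : (p : ℝ) ∈ mixS b (UU c) := by
    refine Or.inl ⟨⟨Nat.primeCounting' p, ?_⟩, i + 1, ?_, ?_⟩
    · unfold pr Nat.primeCounting'
      rw [Nat.nth_count hp]
    · exact_mod_cast h3.le
    · exact_mod_cast h6
  have h8 := hB h7
  have h9 : (i : ℝ) < p := by exact_mod_cast (by omega : i < p)
  linarith

end Pool.Agent.H49.RH
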