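import Pool.Agent.H49.RH.Rate

/-!
# Comparison of two mixtures
-/

set_option autoImplicit false

open Complex MeasureTheory Filter Topology Set

namespace Pool.Agent.H49.RH

/-- the integers of `A` have a density, with a power saving, in the form of a Cauchy condition -/
def Cau (A : Set ℝ) (a n : ℝ) : Prop := ∀ x y : ℝ, 1 ≤ x → 1 ≤ y →
  |(ints A x : ℝ) / x - (ints A y : ℝ) / y| ≤ n * (x ^ (-a) + y ^ (-a))

theorem Cau.lim {A : Set ℝ} {a n ρ : ℝ} (ha : 0 < a) (h : Cau A a n)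
    (hρ : Tendsto (fun x : ℝ => (ints A x : ℝ) / x) atTop (𝓝 ρ)) {x : ℝ} (hx : 1 ≤ x) :
    |(ints A x : ℝ) / x - ρ| ≤ n * x ^ (-a) := by
  have f1 : Tendsto (fun y : ℝ => |(ints A x : ℝ) / x - (ints A y : ℝ) / y|) atTop
      (𝓝 |(ints A x : ℝ) / x - ρ|) := (tendsto_const_nhds.sub hρ).abs
  have f2 : Tendsto (fun y : ℝ => n * (x ^ (-a) + y ^ (-a))) atTop (𝓝 (n * (x ^ (-a) + 0))) :=
    ((tendsto_const_nhds.add (tendsto_rpow_neg_atTop ha)).const_mul n)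
  rw [add_zero] at f2
  refine le_of_tendsto_of_tendsto f1 f2 ?_
  filter_upwards [eventually_ge_atTop 1] with y hy
  exact h x y hx hy

theorem exp_close {δ η : ℝ} (h : |Real.exp δ - 1| ≤ η) (hη : η ≤ 1 / 2) : |δ| ≤ 2 * η := by
  have h0 : 0 ≤ η := (abs_nonneg _).trans h
  obtain ⟨h1, h2⟩ := abs_le.1 h
  have h3 := Real.add_one_le_exp δ
  have h4 := Real.add_one_le_exp (-δ)
  have h5 : Real.exp (-δ) * Real.exp δ = 1 := by rw [← Real.exp_add]; simp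
  have h6 : 0 < Real.exp (-δ) := Real.exp_pos _
  have h7 : Real.exp (-δ) ≤ 1 + 2 * η := by
    by_contra h8
    push Not at h8
    have h9 : (1 + 2 * η) * (1 - η) ≤ Real.exp (-δ) * Real.exp δ :=
      mul_le_mul h8.le (by linarith) (by linarith) h6.le
    rw [h5] at h9
    have h10 : Real.exp (-δ) * Real.exp δ > (1 + 2 * η) * (1 - η) := by
      have : (1 + 2 * η) * (1 - η) < Real.exp (-δ) * (1 - η) := by
        have : 0 < 1 - η := by linarith
        nlinarith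
      have : Real.exp (-δ) * (1 - η) ≤ Real.exp (-δ) * Real.exp δ := by
        apply mul_le_mul_of_nonneg_left _ h6.le
        linarith
      linarith
    rw [h5] at h10
    nlinarith
  rw [abs_le]
  constructor <;> linarith

theorem step {b : ℕ → ℝ} {b0 : ℝ} {G : ℂ → ℂ} (hb : Dat b b0 G) (hbi : Function.Injective b) {U : Set ℝ} {z0 : ℕ}
    (hU : ∀ x ∈ U, x < z0) {a n : ℝ} (ha0 : 0 < a) (ha : a ≤ 1 / 2) (hn : 0 ≤ n) {φ : ℕ → ℕ} (hφ : ∀ z, z ≤ φ z)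
    (hA : Cau (mixS b U) a n)
    (hB : ∀ z w : ℕ, z0 ≤ z → φ z ≤ w → Cau (mixS b (U ∪ Ico (z : ℝ) (w : ℝ))) a n) :
    ∃ (C : ℝ) (z1 : ℕ), 1 ≤ z1 ∧ ∀ z w : ℕ, z1 ≤ z → φ z ≤ w →
      |(PR pr w - PR b w) - (PR pr z - PR b z)| ≤ C * (z : ℝ) ^ (-a) := by
  obtain ⟨ρ, hρ0, hρe, -, hρl⟩ := bdd_density hb hbi (U := U) (V := z0) (fun x hx => (hU x hx).le)
  set K1 := (kp 2 * ∑' j, (pr j) ^ (-(3 / 2) : ℝ)) with hK1
  set K2 := (kp b0 * ∑' j, (b j) ^ (-(3 / 2) : ℝ)) with hK2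
  have hK10 : 0 ≤ K1 := mul_nonneg pr_fam.kp_nonneg (tsum_nonneg fun j => Real.rpow_nonneg (pr_fam.pos j).le _)
  have hK20 : 0 ≤ K2 := mul_nonneg hb.fam.kp_nonneg (tsum_nonneg fun j => Real.rpow_nonneg (hb.fam.pos j).le _)
  have hlim0 : Tendsto (fun z : ℕ => (4 * n / ρ) * (z : ℝ) ^ (-a)) atTop (𝓝 0) := by
    have := ((tendsto_rpow_neg_atTop ha0).comp tendsto_natCast_atTop_atTop).const_mul (4 * n / ρ)
    simpa using this
  have hev : ∀ᶠ z : ℕ in atTop, (4 * n / ρ) * (z : ℝ) ^ (-a) < 1 / 2 := hlim0.eventually (gt_mem_nhds (by norm_num))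
  obtain ⟨z1, hz1⟩ := eventually_atTop.1 (hev.and ((eventually_ge_atTop z0).and (eventually_ge_atTop 2)))
  refine ⟨2 * (4 * n / ρ) + K1 + K2, max z1 1, le_max_right _ _, fun z w hz hw => ?_⟩
  obtain ⟨h1, h2, h3⟩ := hz1 z ((le_max_left _ _).trans hz)
  have hzw : z ≤ w := (hφ z).trans hw
  have hz2 : (2 : ℝ) ≤ z := by exact_mod_cast h3
  have hz0' : (z0 : ℝ) ≤ z := by exact_mod_cast h2
  have hzw' : (z : ℝ) ≤ w := by exact_mod_cast hzw
  have hzp : (0 : ℝ) < z := by linarith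
  have hUz : ∀ x ∈ U, x < (z : ℝ) := fun x hx => (hU x hx).trans_le hz0'
  obtain ⟨ρ', hρ0', hρe', -, hρl'⟩ := bdd_density hb hbi (U := U ∪ Ico (z : ℝ) (w : ℝ)) (V := w) (by
    rintro x (hx | hx)
    · exact ((hUz x hx).le).trans hzw'
    · exact hx.2.le)
  -- the densities are close
  have hclose : |ρ' - ρ| ≤ 4 * n * (z : ℝ) ^ (-a) := by
    have e1 := Cau.lim ha0 hA hρl (x := (z : ℝ) / 2) (by linarith)
    have e2 := Cau.lim ha0 (hB z w h2 hw) hρl' (x := (z : ℝ) / 2) (by linarith)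
    have e3 : ints (mixS b (U ∪ Ico (z : ℝ) (w : ℝ))) ((z : ℝ) / 2) = ints (mixS b U) ((z : ℝ) / 2) := by
      refine ints_congr (mixS_ge hb.fam _) (mixS_ge hb.fam _) fun t ht => ?_
      have h4 : t ∉ Ico (z : ℝ) (w : ℝ) := fun h => by
        have := h.1
        linarith
      unfold mixS
      constructor
      · rintro (⟨h5, h6 | h6⟩ | ⟨h5, h6⟩)
        · exact Or.inl ⟨h5, h6⟩
        · exact absurd h6 h4
        · exact Or.inr ⟨h5, fun h7 => h6 (Or.inl h7)⟩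
      · rintro (⟨h5, h6⟩ | ⟨h5, h6⟩)
        · exact Or.inl ⟨h5, Or.inl h6⟩
        · exact Or.inr ⟨h5, fun h7 => by
            rcases h7 with h7 | h7
            · exact h6 h7
            · exact h4 h7⟩
    rw [e3] at e2
    have e4 := half_pow hzp ha0 (by linarith) (n := (z : ℝ) / 2) le_rfl
    have e5 : ρ' - ρ = ((ints (mixS b U) ((z : ℝ) / 2) : ℝ) / ((z : ℝ) / 2) - ρ) -
        ((ints (mixS b U) ((z : ℝ) / 2) : ℝ) / ((z : ℝ) / 2) - ρ') := by ring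
    rw [e5]
    refine (abs_sub _ _).trans ?_
    have e6 := mul_le_mul_of_nonneg_left e4 hn
    linarith
  -- the exponents
  set I := Ico (z : ℝ) (w : ℝ) with hI
  set Δ : ℂ := ((PS pr w 1 - PS pr z 1) - (PS b w 1 - PS b z 1)) + (hv pr (wt pr I) 1 - hv b (wt b I) 1) with hΔ
  have hEx : Ex b G (U ∪ I) = Ex b G U + Δ := by
    unfold Ex
    rw [WS_union pr_fam hzw' hUz, WS_union hb.fam hzw' hUz, hv_union pr_fam hUz, hv_union hb.fam hUz]
    rw [hΔ]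
    ring
  have hΔim : Δ.im = 0 := by
    rw [hΔ]
    simp only [Complex.add_im, Complex.sub_im]
    rw [PS_real, PS_real, PS_real, PS_real, hv_real pr_fam, hv_real hb.fam]
    ring
  set δ := Δ.re with hδ
  have hΔδ : Δ = (δ : ℂ) := by
    apply Complex.ext
    · rw [Complex.ofReal_re]
    · rw [Complex.ofReal_im, hΔim]
  have hexp : Real.exp δ = ρ' / ρ := by
    rw [hEx, Complex.exp_add, hρe, hΔδ] at hρe'
    rw [eq_div_iff hρ0.ne', mul_comm]
    exact_mod_cast hρe'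
  have hη : |Real.exp δ - 1| ≤ (4 * n / ρ) * (z : ℝ) ^ (-a) := by
    rw [hexp]
    have e : ρ' / ρ - 1 = (ρ' - ρ) / ρ := by field_simp
    rw [e, abs_div, abs_of_pos hρ0, div_le_iff₀ hρ0]
    refine hclose.trans (le_of_eq ?_)
    field_simp
  have hδb := exp_close hη h1.le
  have ht1 := hv_tail pr_fam (z := z) (w := w) (by linarith)
  have ht2 := hv_tail hb.fam (z := z) (w := w) (by linarith)
  have hpow : (z : ℝ) ^ (-(1 / 2) : ℝ) ≤ (z : ℝ) ^ (-a) := Real.rpow_le_rpow_of_exponent_le (by linarith) (by linarith)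
  have hmain : (((PR pr w - PR b w) - (PR pr z - PR b z) : ℝ) : ℂ) =
      (δ : ℂ) - (hv pr (wt pr I) 1 - hv b (wt b I) 1) := by
    rw [← hΔδ, hΔ, PS_one, PS_one, PS_one, PS_one]
    push_cast
    ring
  have hfin : |(PR pr w - PR b w) - (PR pr z - PR b z)| ≤ |δ| + (‖hv pr (wt pr I) 1‖ + ‖hv b (wt b I) 1‖) := by
    rw [← Real.norm_eq_abs, ← Complex.norm_real, hmain]
    refine (norm_sub_le _ _).trans (add_le_add ?_ (norm_sub_le _ _))
    rw [Complex.norm_real, Real.norm_eq_abs]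
  have g1 : K1 * (z : ℝ) ^ (-(1 / 2) : ℝ) ≤ K1 * (z : ℝ) ^ (-a) := mul_le_mul_of_nonneg_left hpow hK10
  have g2 : K2 * (z : ℝ) ^ (-(1 / 2) : ℝ) ≤ K2 * (z : ℝ) ^ (-a) := mul_le_mul_of_nonneg_left hpow hK20
  have g3 : (2 * (4 * n / ρ) + K1 + K2) * (z : ℝ) ^ (-a) =
      2 * ((4 * n / ρ) * (z : ℝ) ^ (-a)) + K1 * (z : ℝ) ^ (-a) + K2 * (z : ℝ) ^ (-a) := by ring
  rw [g3]
  linarith

end Pool.Agent.H49.RH
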