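import Pool.Agent.H49.RH.Tail3
import Pool.Agent.H49.BP.Gaps
import Pool.Agent.H49.BP.DiscB
import Pool.Agent.H49.BP.Zeta
import Pool.Agent.H49.BP.Samp

/-!
# Systems with the Riemann hypothesis and the Lindelöf hypothesis
-/

set_option autoImplicit false

open Complex MeasureTheory Filter Topology Set

namespace Pool.Agent.H49.RH

open Pool.Agent.H49.BP (gint)

theorem fin_of_tendsto {q : ℕ → ℝ} (ht : Tendsto q atTop atTop) (x : ℝ) : {j : ℕ | q j ≤ x}.Finite := by
  have h1 : ∀ᶠ j in atTop, x < q j := ht.eventually (eventually_gt_atTop x)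
  obtain ⟨N, hN⟩ := eventually_atTop.1 h1
  refine (Set.finite_Iio N).subset fun j hj => ?_
  by_contra h
  have h2 := hN j (not_lt.1 h)
  have h3 : q j ≤ x := hj
  linarith

theorem li_le {x y : ℝ} (hx : 2 ≤ x) (hxy : x ≤ y) : ∫ u in x..y, (Real.log u)⁻¹ ≤ 2 * (y - x) := by
  have h1 : ∀ u ∈ Icc x y, (Real.log u)⁻¹ ≤ 2 := by
    intro u hu
    have h2 : 1 / 2 ≤ Real.log u := by
      have h3 : Real.log 2 ≤ Real.log u := Real.log_le_log (by norm_num) (hx.trans hu.1)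
      have h4 := Real.log_two_gt_d9
      linarith
    rw [inv_le_comm₀ (by linarith) (by norm_num)]
    linarith
  have hint : IntervalIntegrable (fun u => (Real.log u)⁻¹) volume x y := by
    refine ContinuousOn.intervalIntegrable ?_
    rw [uIcc_of_le hxy]
    intro u hu
    have hu2 : 2 ≤ u := hx.trans hu.1
    refine ContinuousAt.continuousWithinAt ?_
    refine (Real.continuousAt_log (by linarith)).inv₀ ?_
    have : 0 < Real.log u := Real.log_pos (by linarith)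
    exact this.ne'
  have h5 := intervalIntegral.integral_mono_on hxy hint intervalIntegrable_const h1
  rw [intervalIntegral.integral_const, smul_eq_mul, mul_comm] at h5
  exact h5

theorem li_nonneg {x y : ℝ} (hx : 2 ≤ x) (hxy : x ≤ y) : 0 ≤ ∫ u in x..y, (Real.log u)⁻¹ := by
  refine intervalIntegral.integral_nonneg hxy fun u hu => inv_nonneg.2 (Real.log_nonneg ?_)
  linarith [hu.1]

theorem li_sub {x y : ℝ} (hx : 2 ≤ x) (hy : 2 ≤ y) :
    (∫ u in (2 : ℝ)..y, (Real.log u)⁻¹) - (∫ u in (2 : ℝ)..x, (Real.log u)⁻¹) = ∫ u in x..y, (Real.log u)⁻¹ := by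
  have hint : ∀ z : ℝ, 2 ≤ z → IntervalIntegrable (fun u => (Real.log u)⁻¹) volume 2 z := by
    intro z hz
    refine ContinuousOn.intervalIntegrable ?_
    rw [uIcc_of_le hz]
    intro u hu
    refine ContinuousAt.continuousWithinAt ?_
    refine (Real.continuousAt_log (by linarith [hu.1])).inv₀ ?_
    have : 0 < Real.log u := Real.log_pos (by linarith [hu.1])
    exact this.ne'
  exact intervalIntegral.integral_interval_sub_left (hint y hy) (hint x hx)

/-- the prime number theorem with the error term of the Riemann hypothesis -/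
def PNT (q : ℕ → ℝ) : Prop := ∀ ε : ℝ, 0 < ε → ∃ C : ℝ, ∀ x : ℝ, 2 ≤ x →
  |({j : ℕ | q j ≤ x}.ncard : ℝ) - ∫ u in (2 : ℝ)..x, (Real.log u)⁻¹| ≤ C * x ^ (1 / 2 + ε)

theorem PNT.fam {q : ℕ → ℝ} (h : PNT q) (hq : StrictMono q) (hq0 : 1 < q 0) (ht : Tendsto q atTop atTop) :
    Fam q (q 0) := by
  obtain ⟨C, hC⟩ := h (1 / 2) (by norm_num)
  have hC0 : 0 ≤ C := by
    have h1 := (abs_nonneg _).trans (hC 2 le_rfl)
    by_contra h2
    push Not at h2
    have : C * (2 : ℝ) ^ (1 / 2 + 1 / 2 : ℝ) < 0 := mul_neg_of_neg_of_pos h2 (by positivity)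
    linarith
  have hq1 : ∀ j, 1 < q j := fun j => lt_of_lt_of_le hq0 (hq.monotone (Nat.zero_le j))
  set K := 2 * (C + 2) with hK
  have hKp : 0 < K := by positivity
  have hlow : ∀ j : ℕ, ((j : ℝ) + 1) / K ≤ q j := by
    intro j
    have h1 := hC (max 2 (q j)) (le_max_left _ _)
    set x := max 2 (q j) with hx
    have hx2 : 2 ≤ x := le_max_left _ _
    have hx3 : x ≤ 2 * q j := by
      rw [hx]
      refine max_le ?_ ?_ <;> linarith [hq1 j]
    have h2 := li_le le_rfl hx2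
    rw [show (1 / 2 + 1 / 2 : ℝ) = 1 by norm_num, Real.rpow_one] at h1
    have h3 : ((j : ℝ) + 1) ≤ ({i : ℕ | q i ≤ x}.ncard : ℝ) := by
      have h4 : (Finset.range (j + 1) : Set ℕ) ⊆ {i : ℕ | q i ≤ x} := by
        intro i hi
        have h5 : i ≤ j := Nat.lt_succ_iff.1 (Finset.mem_range.1 (Finset.mem_coe.1 hi))
        exact (hq.monotone h5).trans (le_max_right _ _)
      have h6 := Set.ncard_le_ncard h4 (fin_of_tendsto ht x)
      rw [Set.ncard_coe_finset, Finset.card_range] at h6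
      exact_mod_cast h6
    have h7 := (abs_le.1 h1).2
    rw [div_le_iff₀ hKp]
    calc (j : ℝ) + 1 ≤ C * x + 2 * (x - 2) := by linarith
      _ ≤ (C + 2) * x := by linarith
      _ ≤ (C + 2) * (2 * q j) := mul_le_mul_of_nonneg_left hx3 (by linarith)
      _ = q j * K := by rw [hK]; ring
  refine ⟨hq0, fun j => hq.monotone (Nat.zero_le j), fun σ hσ => ?_⟩
  have h1 : Summable fun j : ℕ => ((j : ℝ) + 1) ^ (-σ) := by
    have h2 := (summable_nat_add_iff 1).2 (Real.summable_nat_rpow.2 (show -σ < -1 by linarith))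
    refine h2.congr fun j => ?_
    push_cast
    rfl
  refine Summable.of_nonneg_of_le (fun j => Real.rpow_nonneg (by linarith [hq1 j]) _) (fun j => ?_)
    (h1.mul_left (K ^ σ))
  calc (q j) ^ (-σ) ≤ (((j : ℝ) + 1) / K) ^ (-σ) :=
        Real.rpow_le_rpow_of_nonpos (by positivity) (hlow j) (by linarith)
    _ = K ^ σ * ((j : ℝ) + 1) ^ (-σ) := by
        rw [Real.div_rpow (by positivity) hKp.le, Real.rpow_neg hKp.le, div_inv_eq_mul, mul_comm]

theorem PNT.short {q : ℕ → ℝ} (h : PNT q) (ht : Tendsto q atTop atTop) : Short q := by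
  intro ε hε
  obtain ⟨C, hC⟩ := h ε hε
  have hC0 : 0 ≤ C := by
    have h1 := (abs_nonneg _).trans (hC 2 le_rfl)
    by_contra h2
    push Not at h2
    have : C * (2 : ℝ) ^ (1 / 2 + ε) < 0 := mul_neg_of_neg_of_pos h2 (by positivity)
    linarith
  set N := ({j : ℕ | q j ≤ 5}.ncard : ℝ) with hN
  refine ⟨N + 4 + C * 2 ^ (1 / 2 + ε) + C, by positivity, fun x hx => ?_⟩
  have hxp : 0 < x := by linarith
  have hx1 : 1 ≤ x ^ (1 / 2 + ε) := Real.one_le_rpow hx (by linarith)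
  have hsx : √x ≤ x := by
    rw [Real.sqrt_le_left (by linarith)]
    nlinarith
  have hs1 : 1 ≤ √x := Real.one_le_sqrt.2 hx
  rcases le_or_gt 3 x with h3 | h3
  · have h1 := (abs_le.1 (hC (x + √x) (by linarith))).2
    have h2 := (abs_le.1 (hC (x - 1) (by linarith))).1
    have h4 := li_sub (x := x - 1) (y := x + √x) (by linarith) (by linarith)
    have h5 := li_le (x := x - 1) (y := x + √x) (by linarith) (by linarith)
    have h6 : ({j : ℕ | x ≤ q j ∧ q j ≤ x + √x}.ncard : ℝ) + ({j : ℕ | q j ≤ x - 1}.ncard : ℝ) ≤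
        ({j : ℕ | q j ≤ x + √x}.ncard : ℝ) := by
      have hf1 := fin_of_tendsto ht (x + √x)
      have hf2 := fin_of_tendsto ht (x - 1)
      have hf3 : {j : ℕ | x ≤ q j ∧ q j ≤ x + √x}.Finite := hf1.subset fun j hj => hj.2
      have hd : Disjoint {j : ℕ | x ≤ q j ∧ q j ≤ x + √x} {j : ℕ | q j ≤ x - 1} := by
        rw [Set.disjoint_left]
        intro j hj1 hj2
        have h7 : x ≤ q j := hj1.1
        have h8 : q j ≤ x - 1 := hj2
        linarith
      have h7 := Set.ncard_union_eq hd hf3 hf2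
      have h8 : {j : ℕ | x ≤ q j ∧ q j ≤ x + √x} ∪ {j : ℕ | q j ≤ x - 1} ⊆ {j : ℕ | q j ≤ x + √x} := by
        rintro j (hj | hj)
        · exact hj.2
        · have : q j ≤ x - 1 := hj
          show q j ≤ x + √x
          linarith
      have h9 := Set.ncard_le_ncard h8 hf1
      rw [h7] at h9
      exact_mod_cast h9
    have h10 : √x ≤ x ^ (1 / 2 + ε) := by
      rw [Real.sqrt_eq_rpow]
      exact Real.rpow_le_rpow_of_exponent_le hx (by linarith)
    have h11 : (x + √x) ^ (1 / 2 + ε) ≤ 2 ^ (1 / 2 + ε) * x ^ (1 / 2 + ε) := by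
      rw [← Real.mul_rpow (by norm_num) hxp.le]
      exact Real.rpow_le_rpow (by positivity) (by linarith) (by linarith)
    have h12 : (x - 1) ^ (1 / 2 + ε) ≤ x ^ (1 / 2 + ε) :=
      Real.rpow_le_rpow (by linarith) (by linarith) (by linarith)
    have h13 := mul_le_mul_of_nonneg_left h11 hC0
    have h14 := mul_le_mul_of_nonneg_left h12 hC0
    have h15 : 0 ≤ N := Nat.cast_nonneg _
    have h16 : 0 ≤ N * x ^ (1 / 2 + ε) := by positivity
    calc ({j : ℕ | x ≤ q j ∧ q j ≤ x + √x}.ncard : ℝ)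
        ≤ 4 * x ^ (1 / 2 + ε) + C * (2 ^ (1 / 2 + ε) * x ^ (1 / 2 + ε)) + C * x ^ (1 / 2 + ε) := by linarith
      _ ≤ (N + 4 + C * 2 ^ (1 / 2 + ε) + C) * x ^ (1 / 2 + ε) := by linarith
  · have h1 : ({j : ℕ | x ≤ q j ∧ q j ≤ x + √x}.ncard : ℝ) ≤ N := by
      have h2 : {j : ℕ | x ≤ q j ∧ q j ≤ x + √x} ⊆ {j : ℕ | q j ≤ 5} := by
        intro j hj
        have h4 : √x ≤ 2 := by
          rw [Real.sqrt_le_left (by norm_num)]
          linarith
        have h5 := hj.2
        show q j ≤ 5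
        linarith
      rw [hN]
      exact_mod_cast Set.ncard_le_ncard h2 (fin_of_tendsto ht 5)
    have h15 : 0 ≤ N := Nat.cast_nonneg _
    have h16 : 0 ≤ (4 + C * 2 ^ (1 / 2 + ε) + C) := by positivity
    calc ({j : ℕ | x ≤ q j ∧ q j ≤ x + √x}.ncard : ℝ) ≤ N := h1
      _ ≤ (N + 4 + C * 2 ^ (1 / 2 + ε) + C) * 1 := by linarith
      _ ≤ (N + 4 + C * 2 ^ (1 / 2 + ε) + C) * x ^ (1 / 2 + ε) := mul_le_mul_of_nonneg_left hx1 (by positivity)

theorem short_pr : Short pr := by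
  intro ε hε
  refine ⟨2, by norm_num, fun x hx => ?_⟩
  have hxp : 0 < x := by linarith
  have hs1 : 1 ≤ √x := Real.one_le_sqrt.2 hx
  have h10 : √x ≤ x ^ (1 / 2 + ε) := by
    rw [Real.sqrt_eq_rpow]
    exact Real.rpow_le_rpow_of_exponent_le hx (by linarith)
  have h1 : {j : ℕ | x ≤ pr j ∧ pr j ≤ x + √x}.ncard ≤ (Finset.Icc ⌈x⌉₊ ⌊x + √x⌋₊).card := by
    rw [← Set.ncard_coe_finset]
    refine Set.ncard_le_ncard_of_injOn (fun j => Nat.nth Nat.Prime j) ?_ ?_ (Finset.finite_toSet _)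
    · intro j hj
      rw [Finset.mem_coe, Finset.mem_Icc]
      exact ⟨Nat.ceil_le.2 hj.1, Nat.le_floor hj.2⟩
    · exact (Nat.nth_injective Nat.infinite_setOfPred_prime).injOn
  rw [Nat.card_Icc] at h1
  have h2 : ((⌊x + √x⌋₊ + 1 - ⌈x⌉₊ : ℕ) : ℝ) ≤ √x + 1 := by
    rcases le_or_gt ⌈x⌉₊ (⌊x + √x⌋₊ + 1) with h | h
    · rw [Nat.cast_sub h]
      push_cast
      have h3 := Nat.floor_le (show 0 ≤ x + √x by positivity)
      have h4 := Nat.le_ceil x
      linarith
    · rw [Nat.sub_eq_zero_of_le h.le]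
      simp
      positivity
  have h3 : ({j : ℕ | x ≤ pr j ∧ pr j ≤ x + √x}.ncard : ℝ) ≤ ((⌊x + √x⌋₊ + 1 - ⌈x⌉₊ : ℕ) : ℝ) := by
    exact_mod_cast h1
  linarith

/-- the Euler product -/
theorem Fam.eulerProd {b : ℕ → ℝ} {b0 : ℝ} (h : Fam b b0) {s : ℂ} (hs : 1 < s.re) :
    ∏' j, (1 - (b j : ℂ) ^ (-s))⁻¹ = Complex.exp (∑' j, -Complex.log (1 - (b j : ℂ) ^ (-s))) := by
  have hlt : ∀ j, ‖(b j : ℂ) ^ (-s)‖ < 1 := fun j => (h.s_le j (by linarith)).trans_lt h.z_lt
  have hre : ∀ j, 0 < (1 - (b j : ℂ) ^ (-s)).re := fun j => by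
    have h4 := Complex.abs_re_le_norm ((b j : ℂ) ^ (-s))
    have h5 := (abs_le.1 h4).2
    have h6 := hlt j
    rw [Complex.sub_re, Complex.one_re]
    linarith
  have hlog : ∀ j, Complex.log ((1 - (b j : ℂ) ^ (-s))⁻¹) = -Complex.log (1 - (b j : ℂ) ^ (-s)) := fun j => by
    rw [Complex.log_inv]
    intro harg
    have := Complex.arg_eq_pi_iff.1 harg
    have := hre j
    linarith
  have hne : ∀ j, (1 - (b j : ℂ) ^ (-s))⁻¹ ≠ 0 := fun j => by
    refine inv_ne_zero fun h0 => ?_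
    have := hre j
    rw [h0] at this
    simp at this
  have hsum : Summable fun j => Complex.log ((1 - (b j : ℂ) ^ (-s))⁻¹) := by
    simp only [hlog]
    have := (h.hv_split (v := fun _ => 1) (fun j => by simp) hs).summable
    simpa using this
  rw [← Complex.cexp_tsum_eq_tprod hne hsum]
  simp only [hlog]

open Pool.Agent.H49.BP in
/-- the existence of the systems -/
theorem exists_sys : ∃ (q : ℕ → ℝ) (G : ℂ → ℂ), StrictMono q ∧ 1 < q 0 ∧ Tendsto q atTop atTop ∧ PNT q ∧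
    DifferentiableOn ℂ G {s | 1 / 2 < s.re} ∧
    (∀ s : ℂ, 1 < s.re → ∏' j, (1 - (q j : ℂ) ^ (-s))⁻¹ = s / (s - 1) * Complex.exp (G s)) ∧
    ∀ σ ε : ℝ, 1 / 2 < σ → 0 < ε → ∃ C : ℝ, ∀ s : ℂ, σ ≤ s.re → ‖G s‖ ≤ ε * Real.log (|s.im| + 3) + C := by
  obtain ⟨q', hq'1, hq'2⟩ := sample
  have hlim : Tendsto (fun x : ℝ => (Real.log x ^ 2) / Real.log x) atTop atTop := by
    refine Real.tendsto_log_atTop.congr' ?_
    filter_upwards [eventually_gt_atTop 1] with x hx
    have := (Real.log_pos hx).ne'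
    field_simp
  have hup : ∃ A : ℝ, ∀ᶠ x : ℝ in atTop, Real.log x ^ 2 ≤ A * √x * Real.log x := by
    have h := (isLittleO_log_rpow_rpow_atTop (1 : ℝ) (show (0 : ℝ) < 1 / 2 by norm_num)).bound one_pos
    refine ⟨1, ?_⟩
    filter_upwards [h, eventually_gt_atTop 1] with x hx h1
    rw [one_mul, Real.norm_of_nonneg (Real.rpow_nonneg (Real.log_nonneg h1.le) _),
      Real.norm_of_nonneg (Real.rpow_nonneg (by linarith) _), Real.rpow_one, ← Real.sqrt_eq_rpow] at hx
    have := mul_le_mul_of_nonneg_right hx (Real.log_nonneg h1.le)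
    rw [one_mul, pow_two]
    exact this
  obtain ⟨q, B, hB, hmono, hgt, hF, hgap⟩ := system hlim hup hq'1
  have hg : ∀ j : ℕ, (j : ℝ) + 1 ≤ q j := fun j => (tt_ge j).trans (hgt j).le
  have hq0 : 1 < q 0 := by
    have := hgt 0
    rwa [tt_zero] at this
  have hD : Disc q := disc_of hmono hg hgt hB hF hq'2
  obtain ⟨G, hG1, hG2, hG3, ρ, hρ, hN⟩ := zeta hmono hg hq0 hD
  have htop : Tendsto q atTop atTop := by
    refine tendsto_atTop_mono hg ?_
    exact tendsto_atTop_add_const_right _ _ tendsto_natCast_atTop_atTop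
  have hpnt : PNT q := by
    intro ε hε
    obtain ⟨C, hC⟩ := primes_of hmono hg hgt hB hF
    refine ⟨|C|, fun x hx => (hC x hx).trans ?_⟩
    have h1 : √x ≤ x ^ (1 / 2 + ε) := by
      rw [Real.sqrt_eq_rpow]
      exact Real.rpow_le_rpow_of_exponent_le (by linarith) (by linarith)
    have h2 := le_abs_self C
    have h3 := Real.sqrt_nonneg x
    calc C * √x ≤ |C| * √x := mul_le_mul_of_nonneg_right h2 h3
      _ ≤ |C| * x ^ (1 / 2 + ε) := mul_le_mul_of_nonneg_left h1 (abs_nonneg C)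
  have hfam : Fam q (q 0) := hpnt.fam hmono hq0 htop
  refine ⟨q, G, hmono, hq0, htop, hpnt, hG1, fun s hs => ?_, fun σ ε hσ hε => ?_⟩
  · rw [hfam.eulerProd hs, ← hfam.euler hs]
    exact hG2 s hs
  · obtain ⟨C, hC⟩ := hG3 σ hσ
    refine ⟨C ^ 2 / (4 * ε), fun s hs => (hC s hs).trans ?_⟩
    set ℓ := Real.log (|s.im| + 3) with hℓ
    have hℓ0 : 0 ≤ ℓ := Real.log_nonneg (by linarith [abs_nonneg s.im])
    set r := √ℓ with hr
    have h1 : ℓ = r * r := (Real.mul_self_sqrt hℓ0).symm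
    rw [h1, ← sub_nonneg]
    have h2 : ε * (r * r) + C ^ 2 / (4 * ε) - C * r = (2 * ε * r - C) ^ 2 / (4 * ε) := by
      field_simp
      ring
    rw [h2]
    positivity

end Pool.Agent.H49.RH
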