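import Pool.Agent.H49.RH.Ext
import Pool.Agent.H49.RH.Riesz

/-!
# The partial sums over primes in a zero free half plane
-/

set_option autoImplicit false

open Complex MeasureTheory Filter Topology Set

namespace Pool.Agent.H49.RH

open Pool.Agent.H49.BP (ff fg ff_scale inv_ff norm_den den_ne cpow_quot line_int shift K_bd int_pow min_bd fin_le)

/-- the difference quotient -/
theorem K_bd2 {κ η x h : ℝ} (hκ : 0 < κ) (hκ1 : κ < 1) (hη : 0 < η) (hη1 : η ≤ 1) (hx : 1 ≤ x) (hh : 0 < h)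
    (hhx : h ≤ x) {z : ℂ} (hz : z.re = -κ) :
    ‖(((x + h : ℝ) : ℂ) ^ (z + 1) - (x : ℂ) ^ (z + 1)) / (z + 1)‖ ≤
      3 * h * x ^ (-κ) * ((x / h) / ‖z + 1‖) ^ η := by
  have hx0 : 0 < x := by linarith
  have hs1 : z + 1 ≠ 0 := by
    intro h
    have := congrArg Complex.re h
    simp [hz] at this
    linarith
  have hn1 : 0 < ‖z + 1‖ := norm_pos_iff.2 hs1
  have hxκ : 0 < x ^ (-κ) := by positivity
  have hA : ‖(((x + h : ℝ) : ℂ) ^ (z + 1) - (x : ℂ) ^ (z + 1)) / (z + 1)‖ ≤ 3 * h * x ^ (-κ) := by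
    have hd : ∀ u ∈ Icc x (x + h), HasDerivWithinAt (fun y : ℝ => (y : ℂ) ^ (z + 1) / (z + 1))
        ((u : ℂ) ^ z) (Icc x (x + h)) u := by
      intro u hu
      exact (hasDerivAt_ofReal_cpow_const' (by linarith [hu.1]) (by
        intro h; apply hs1; rw [h]; ring)).hasDerivWithinAt
    have hb : ∀ u ∈ Ico x (x + h), ‖(u : ℂ) ^ z‖ ≤ x ^ (-κ) := by
      intro u hu
      rw [Complex.norm_cpow_eq_rpow_re_of_pos (by linarith [hu.1]), hz]
      exact Real.rpow_le_rpow_of_nonpos hx0 hu.1 (by linarith)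
    have h1 := norm_image_sub_le_of_norm_deriv_le_segment' hd hb (x + h) ⟨by linarith, le_refl _⟩
    rw [← sub_div, add_sub_cancel_left] at h1
    refine h1.trans ?_
    nlinarith [mul_pos hxκ hh]
  -- second bound
  have hB : ‖(((x + h : ℝ) : ℂ) ^ (z + 1) - (x : ℂ) ^ (z + 1)) / (z + 1)‖ ≤
      3 * h * x ^ (-κ) * ((x / h) / ‖z + 1‖) := by
    have e0 : 3 * h * x ^ (-κ) * ((x / h) / ‖z + 1‖) = (3 * x ^ (-κ) * x) / ‖z + 1‖ := by
      field_simp
    rw [norm_div, e0, div_le_div_iff_of_pos_right hn1]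
    refine (norm_sub_le _ _).trans ?_
    rw [Complex.norm_cpow_eq_rpow_re_of_pos (by linarith), Complex.norm_cpow_eq_rpow_re_of_pos hx0]
    have hre : (z + 1).re = -κ + 1 := by simp [hz]
    rw [hre]
    have h3 : x ^ (-κ + 1) = x ^ (-κ) * x := by rw [Real.rpow_add hx0, Real.rpow_one]
    have h2 : (x + h) ^ (-κ + 1) ≤ 2 * x ^ (-κ + 1) := by
      calc (x + h) ^ (-κ + 1) ≤ (2 * x) ^ (-κ + 1) :=
            Real.rpow_le_rpow (by linarith) (by linarith) (by linarith)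
        _ = 2 ^ (-κ + 1) * x ^ (-κ + 1) := Real.mul_rpow (by norm_num) hx0.le
        _ ≤ 2 ^ (1 : ℝ) * x ^ (-κ + 1) := by
            gcongr
            · norm_num
            · linarith
        _ = 2 * x ^ (-κ + 1) := by norm_num
    rw [h3] at h2 ⊢
    linarith
  have hu : 0 ≤ (x / h) / ‖z + 1‖ := by positivity
  have hp : 0 ≤ 3 * h * x ^ (-κ) := by positivity
  calc ‖(((x + h : ℝ) : ℂ) ^ (z + 1) - (x : ℂ) ^ (z + 1)) / (z + 1)‖
      ≤ min (3 * h * x ^ (-κ)) (3 * h * x ^ (-κ) * ((x / h) / ‖z + 1‖)) := le_min hA hB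
    _ = 3 * h * x ^ (-κ) * min 1 ((x / h) / ‖z + 1‖) := by rw [mul_min_of_nonneg _ _ hp, mul_one]
    _ ≤ 3 * h * x ^ (-κ) * ((x / h) / ‖z + 1‖) ^ η := mul_le_mul_of_nonneg_left (min_bd hu hη hη1) hp

/-- slow growth in half planes -/
def Slow (F : ℂ → ℂ) (θ : ℝ) : Prop := ∀ σ ε : ℝ, θ < σ → 0 < ε → ∃ C : ℝ, 0 ≤ C ∧ ∀ s : ℂ, σ ≤ s.re →
  ‖F s‖ ≤ ε * Real.log (|s.im| + 3) + C

/-- the quotient -/
noncomputable def Ps (F : ℂ → ℂ) (s : ℂ) : ℂ → ℂ := dslope (fun z => F (s + z) - F s) 0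

/-- the integrand -/
noncomputable def Wf (F : ℂ → ℂ) (s : ℂ) (y : ℝ) (z : ℂ) : ℂ := Ps F s z * (y : ℂ) ^ (z + 1) / (z + 1)

theorem Ps_ne (F : ℂ → ℂ) (s : ℂ) {z : ℂ} (hz : z ≠ 0) : Ps F s z = (F (s + z) - F s) / z := by
  unfold Ps
  rw [dslope_of_ne _ hz, slope_def_field, add_zero, sub_self, sub_zero, sub_zero]

section
variable {F : ℂ → ℂ} {θ σ κ : ℝ} (hF : DifferentiableOn ℂ F {s | θ < s.re}) (hκ : 0 < κ) (hκ1 : 4 * κ ≤ σ - θ)
  (hκ2 : 4 * κ ≤ 1)
include hF hκ hκ1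

theorem Ps_diff {s : ℂ} (hs : σ ≤ s.re) : DifferentiableOn ℂ (Ps F s) {z | -(4 * κ) < z.re} := by
  have h0 : {z : ℂ | -(4 * κ) < z.re} ∈ 𝓝 (0 : ℂ) := (hp_open _).mem_nhds (by
    show -(4 * κ) < (0 : ℂ).re
    simp; linarith)
  refine (Complex.differentiableOn_dslope h0).2 ?_
  refine DifferentiableOn.sub_const ?_ _
  refine hF.comp (by fun_prop) ?_
  intro z hz
  have hz' : -(4 * κ) < z.re := hz
  show θ < (s + z).re
  rw [Complex.add_re]
  linarith

include hκ2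

theorem Wf_diff {s : ℂ} (hs : σ ≤ s.re) {y : ℝ} (hy : 1 ≤ y) :
    DifferentiableOn ℂ (Wf F s y) {z | -(4 * κ) < z.re} := by
  unfold Wf
  intro z hz
  have hz' : -(4 * κ) < z.re := hz
  have h1 : z + 1 ≠ 0 := by
    intro h
    have := congrArg Complex.re h
    simp at this; linarith
  refine DifferentiableWithinAt.div ((Ps_diff hF hκ hκ1 hs z hz).mul ?_) (by fun_prop) h1
  have : DifferentiableAt ℂ (fun z : ℂ => (y : ℂ) ^ (z + 1)) z := by
    refine DifferentiableAt.const_cpow (by fun_prop) (Or.inl ?_)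
    have : y ≠ 0 := by linarith
    exact_mod_cast this
  exact this.differentiableWithinAt

theorem Wf_bd (hsl : Slow F θ) {s : ℂ} (hs : σ ≤ s.re) {y : ℝ} (hy : 1 ≤ y) :
    ∃ C : ℝ, ∀ z : ℂ, -(2 * κ) ≤ z.re → z.re ≤ 2 → ‖Wf F s y z‖ ≤ C * (|z.im| + 3) ^ (-(3 : ℝ) / 2) := by
  obtain ⟨C, hC0, hC⟩ := hsl (σ - 2 * κ) 1 (by linarith) one_pos
  -- the quotient
  have hK : IsCompact (Complex.reProdIm (Icc (-(2 * κ)) 2) (Icc (-1) 1)) := isCompact_Icc.reProdIm isCompact_Icc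
  obtain ⟨M, hM⟩ := hK.exists_bound_of_continuousOn (f := Ps F s) ((Ps_diff hF hκ hκ1 hs).continuousOn.mono (by
    intro z hz
    rw [Complex.mem_reProdIm] at hz
    show -(4 * κ) < z.re
    linarith [hz.1.1]))
  set D := 4 * (|M| + (Real.log (|s.im| + 3) + 1) * 2 + 2 * C + 4) with hD
  have hls := log_ge_one s.im
  have hD0 : 0 ≤ D := by positivity
  have hPs : ∀ z : ℂ, -(2 * κ) ≤ z.re → z.re ≤ 2 → ‖Ps F s z‖ ≤ D * (|z.im| + 3) ^ (-(1 / 2) : ℝ) := by
    intro z hz1 hz2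
    set T := |z.im| + 3 with hT
    have hT3 : 3 ≤ T := by linarith [abs_nonneg z.im]
    have hT0 : 0 < T := by linarith
    by_cases h : |z.im| ≤ 1
    · have h1 := hM z (by
        rw [Complex.mem_reProdIm]
        exact ⟨⟨hz1, hz2⟩, abs_le.1 h⟩)
      have h2 : (1 / 2 : ℝ) ≤ T ^ (-(1 / 2) : ℝ) := by
        have h3 : T ≤ 4 := by linarith
        calc (1 / 2 : ℝ) = (4 : ℝ) ^ (-(1 / 2) : ℝ) := by
              rw [show (4 : ℝ) = 2 ^ (2 : ℝ) by norm_num, ← Real.rpow_mul (by norm_num)]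
              norm_num
          _ ≤ T ^ (-(1 / 2) : ℝ) := Real.rpow_le_rpow_of_nonpos hT0 h3 (by norm_num)
      have h3 : |M| ≤ D / 4 := by
        rw [hD]
        have : 0 ≤ (Real.log (|s.im| + 3) + 1) * 2 + 2 * C + 4 := by positivity
        linarith
      calc ‖Ps F s z‖ ≤ |M| := h1.trans (le_abs_self M)
        _ ≤ D * (1 / 2) := by linarith
        _ ≤ D * T ^ (-(1 / 2) : ℝ) := mul_le_mul_of_nonneg_left h2 hD0
    · push Not at h
      have hz0 : z ≠ 0 := by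
        intro h0
        rw [h0] at h
        simp at h
        linarith
      rw [Ps_ne F s hz0, norm_div]
      have e1 := hC (s + z) (by rw [Complex.add_re]; linarith)
      have e2 := hC s (by linarith)
      have e3 : Real.log (|(s + z).im| + 3) ≤ Real.log (|s.im| + 3) + 2 * T ^ (1 / 2 : ℝ) := by
        have e4 : |(s + z).im| + 3 ≤ (|s.im| + 3) * T := by
          rw [Complex.add_im, hT]
          have := abs_add_le s.im z.im
          nlinarith [abs_nonneg s.im, abs_nonneg z.im]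
        calc Real.log (|(s + z).im| + 3) ≤ Real.log ((|s.im| + 3) * T) :=
              Real.log_le_log (by positivity) e4
          _ = Real.log (|s.im| + 3) + Real.log T := Real.log_mul (by positivity) hT0.ne'
          _ ≤ Real.log (|s.im| + 3) + T ^ (1 / 2 : ℝ) / (1 / 2) := by
              have := Real.log_le_rpow_div hT0.le (show (0 : ℝ) < 1 / 2 by norm_num)
              linarith
          _ = _ := by ring
      have e5 : 1 ≤ T ^ (1 / 2 : ℝ) := Real.one_le_rpow (by linarith) (by norm_num)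
      have e6 : ‖F (s + z) - F s‖ ≤ (D / 4) * T ^ (1 / 2 : ℝ) := by
        refine (norm_sub_le _ _).trans ?_
        have e7 : D / 4 = |M| + (Real.log (|s.im| + 3) + 1) * 2 + 2 * C + 4 := by rw [hD]; ring
        rw [e7]
        have e8 : 0 ≤ |M| * T ^ (1 / 2 : ℝ) := by positivity
        have e9 : 0 ≤ (2 * Real.log (|s.im| + 3) + 2 * C) * (T ^ (1 / 2 : ℝ) - 1) :=
          mul_nonneg (by positivity) (by linarith)
        nlinarith
      have e10 : T / 4 ≤ ‖z‖ := by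
        have := Complex.abs_im_le_norm z
        linarith
      calc ‖F (s + z) - F s‖ / ‖z‖ ≤ ((D / 4) * T ^ (1 / 2 : ℝ)) / (T / 4) :=
            div_le_div₀ (by positivity) e6 (by positivity) e10
        _ = D * (T ^ (1 / 2 : ℝ) / T) := by field_simp
        _ = D * T ^ (-(1 / 2) : ℝ) := by
            congr 1
            nth_rewrite 2 [← Real.rpow_one T]
            rw [← Real.rpow_sub hT0]
            norm_num
  refine ⟨D * y ^ (3 : ℝ) * 7, fun z hz1 hz2 => ?_⟩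
  set T := |z.im| + 3 with hT
  have hT3 : 3 ≤ T := by linarith [abs_nonneg z.im]
  have hT0 : 0 < T := by linarith
  have h1 := hPs z hz1 hz2
  unfold Wf
  rw [norm_div, norm_mul, Complex.norm_cpow_eq_rpow_re_of_pos (by linarith)]
  have h2 : y ^ (z + 1).re ≤ y ^ (3 : ℝ) := by
    apply Real.rpow_le_rpow_of_exponent_le hy
    simp; linarith
  have h3 : T / 7 ≤ ‖z + 1‖ := by
    have h4 := Complex.abs_im_le_norm (z + 1)
    have h5 := (le_abs_self _).trans (Complex.abs_re_le_norm (z + 1))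
    simp only [Complex.add_im, Complex.one_im, add_zero, Complex.add_re, Complex.one_re] at h4 h5
    linarith
  calc ‖Ps F s z‖ * y ^ (z + 1).re / ‖z + 1‖ ≤ (D * T ^ (-(1 / 2) : ℝ)) * y ^ (3 : ℝ) / (T / 7) := by
        apply div_le_div₀ (by positivity) _ (by positivity) h3
        exact mul_le_mul h1 h2 (by positivity) (by positivity)
    _ = D * y ^ (3 : ℝ) * 7 * (T ^ (-(1 / 2) : ℝ) / T) := by field_simp
    _ = D * y ^ (3 : ℝ) * 7 * T ^ (-(3 : ℝ) / 2) := by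
        congr 1
        nth_rewrite 2 [← Real.rpow_one T]
        rw [← Real.rpow_sub hT0]
        norm_num

theorem Wf_shift (hsl : Slow F θ) {s : ℂ} (hs : σ ≤ s.re) {y : ℝ} (hy : 1 ≤ y) :
    Integrable (fun t : ℝ => Wf F s y (((-(2 * κ) : ℝ) : ℂ) + t * I)) ∧
    ∫ t : ℝ, Wf F s y (((-(2 * κ) : ℝ) : ℂ) + t * I) = ∫ t : ℝ, Wf F s y (((2 : ℝ) : ℂ) + t * I) := by
  obtain ⟨C, hC⟩ := Wf_bd hF hκ hκ1 hκ2 hsl hs hy
  refine ⟨line_int (θ := -(4 * κ)) (C := C) (by linarith) (Wf_diff hF hκ hκ1 hκ2 hs hy) fun t => ?_,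
    shift (Wf F s y) (-(4 * κ)) (-(2 * κ)) 2 C (by linarith) (by linarith) (Wf_diff hF hκ hκ1 hκ2 hs hy) hC⟩
  have := hC (((-(2 * κ) : ℝ) : ℂ) + t * I) (by simp) (by simp; linarith)
  simpa using this

end

end Pool.Agent.H49.RH
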