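import Pool.Agent.H49.RH.Tail

/-!
# The partial sums over primes in a zero free half plane, II
-/

set_option autoImplicit false

open Complex MeasureTheory Filter Topology Set

namespace Pool.Agent.H49.RH

open Pool.Agent.H49.BP (ff fg ff_scale inv_ff norm_den den_ne cpow_quot line_int shift K_bd int_pow min_bd fin_le)

theorem main_bound {F : ℂ → ℂ} {θ σ κ : ℝ} (hF : DifferentiableOn ℂ F {s | θ < s.re}) (hκ : 0 < κ)
    (hκ1 : 4 * κ ≤ σ - θ) (hκ2 : 4 * κ ≤ 1) (hsl : Slow F θ) : ∃ K : ℝ, 0 ≤ K ∧ ∀ ε C : ℝ, 0 ≤ ε → 0 ≤ C →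
      (∀ s : ℂ, σ - 2 * κ ≤ s.re → ‖F s‖ ≤ ε * Real.log (|s.im| + 3) + C) → ∀ s : ℂ, σ ≤ s.re → ∀ x : ℝ, 1 ≤ x →
        ‖(∫ t : ℝ, Wf F s (x + √x) (((-(2 * κ) : ℝ) : ℂ) + t * I)) -
          ∫ t : ℝ, Wf F s x (((-(2 * κ) : ℝ) : ℂ) + t * I)‖ ≤
          K * √x * x ^ (-κ) * (ε * Real.log (|s.im| + 3) + ε + C) := by
  set J := ∫ t : ℝ, (|t| + 3) ^ (-(1 + κ)) with hJ
  have hJ0 : 0 ≤ J := integral_nonneg fun t => by positivity
  set lm := 1 + 3 / (2 * κ) with hlm
  have hlm0 : 0 < lm := by positivity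
  refine ⟨2 / κ * lm * 21 * J, by positivity, fun ε C hε hC hFb s hs x hx => ?_⟩
  have hx0 : 0 < x := by linarith
  have hh0 : 0 < √x := Real.sqrt_pos.2 hx0
  have hhx : √x ≤ x := by
    rw [Real.sqrt_le_left (by linarith)]
    nlinarith
  set ℓ := Real.log (|s.im| + 3) with hℓ
  have hℓ1 : 1 ≤ ℓ := log_ge_one _
  have hA0 : 0 ≤ ε * ℓ + ε + C := by positivity
  obtain ⟨i1, _⟩ := Wf_shift hF hκ hκ1 hκ2 hsl hs (y := x + √x) (by linarith)
  obtain ⟨i2, _⟩ := Wf_shift hF hκ hκ1 hκ2 hsl hs (y := x) hx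
  rw [← integral_sub i1 i2]
  have hpt : ∀ t : ℝ, ‖Wf F s (x + √x) (((-(2 * κ) : ℝ) : ℂ) + t * I) - Wf F s x (((-(2 * κ) : ℝ) : ℂ) + t * I)‖ ≤
      (2 / κ * lm * 21 * √x * x ^ (-κ) * (ε * ℓ + ε + C)) * (|t| + 3) ^ (-(1 + κ)) := by
    intro t
    set z : ℂ := ((-(2 * κ) : ℝ) : ℂ) + t * I with hz
    have hzre : z.re = -(2 * κ) := by simp [hz]
    have hzim : z.im = t := by simp [hz]
    set T := |t| + 3 with hT
    have hT3 : 3 ≤ T := by linarith [abs_nonneg t]
    have hT0 : 0 < T := by linarith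
    have hz0 : z ≠ 0 := by
      intro h
      rw [h] at hzre
      simp at hzre
      linarith
    have hzn : T ≤ lm * ‖z‖ := by
      have h1 := Complex.abs_im_le_norm z
      have h2 := Complex.abs_re_le_norm z
      rw [hzre, abs_neg, abs_of_pos (by linarith)] at h2
      rw [hzim] at h1
      have h3 : 3 ≤ 3 / (2 * κ) * ‖z‖ := by
        rw [div_mul_eq_mul_div, le_div_iff₀ (by linarith)]
        nlinarith
      rw [hlm]
      nlinarith
    have hzn1 : T ≤ 7 * ‖z + 1‖ := by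
      have h4 := Complex.abs_im_le_norm (z + 1)
      have h5 := (le_abs_self _).trans (Complex.abs_re_le_norm (z + 1))
      simp only [Complex.add_im, Complex.one_im, add_zero, Complex.add_re, Complex.one_re, hzre, hzim] at h4 h5
      linarith
    have hzpos : 0 < ‖z‖ := norm_pos_iff.2 hz0
    have hz1pos : 0 < ‖z + 1‖ := by nlinarith
    -- the first factor
    have hTκ : 1 ≤ T ^ κ := Real.one_le_rpow (by linarith) hκ.le
    have e1 : ‖Ps F s z‖ ≤ 2 / κ * (ε * ℓ + ε + C) * T ^ κ * (lm / T) := by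
      rw [Ps_ne F s hz0, norm_div]
      have f1 := hFb (s + z) (by rw [Complex.add_re, hzre]; linarith)
      have f2 := hFb s (by linarith)
      have f3 : Real.log (|(s + z).im| + 3) ≤ ℓ + T ^ κ / κ := by
        have e4 : |(s + z).im| + 3 ≤ (|s.im| + 3) * T := by
          rw [Complex.add_im, hzim, hT]
          have := abs_add_le s.im t
          nlinarith [abs_nonneg s.im, abs_nonneg t]
        calc Real.log (|(s + z).im| + 3) ≤ Real.log ((|s.im| + 3) * T) :=
              Real.log_le_log (by positivity) e4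
          _ = ℓ + Real.log T := Real.log_mul (by positivity) hT0.ne'
          _ ≤ ℓ + T ^ κ / κ := by
              have := Real.log_le_rpow_div hT0.le hκ
              linarith
      have f4 : ‖F (s + z) - F s‖ ≤ 2 / κ * (ε * ℓ + ε + C) * T ^ κ := by
        refine (norm_sub_le _ _).trans ?_
        have hk1 : 1 ≤ 1 / κ := by
          rw [le_div_iff₀ hκ]; linarith
        have g1 : ε * Real.log (|(s + z).im| + 3) ≤ ε * (ℓ + T ^ κ / κ) := mul_le_mul_of_nonneg_left f3 hε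
        have g2 : ε * ℓ + C ≤ 1 / κ * (ε * ℓ + C) * T ^ κ := by
          have : 0 ≤ ε * ℓ + C := by positivity
          calc ε * ℓ + C ≤ 1 / κ * (ε * ℓ + C) := le_mul_of_one_le_left this hk1
            _ ≤ _ := le_mul_of_one_le_right (by positivity) hTκ
        have g3 : 2 / κ * (ε * ℓ + ε + C) * T ^ κ = 2 * (1 / κ * (ε * ℓ + C) * T ^ κ) + 2 * (ε * (T ^ κ / κ)) := by
          field_simp
          ring
        rw [g3]
        have g4 : 0 ≤ ε * (T ^ κ / κ) := by positivity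
        linarith
      have f5 : 1 / ‖z‖ ≤ lm / T := by
        rw [div_le_div_iff₀ hzpos hT0]; linarith
      calc ‖F (s + z) - F s‖ / ‖z‖ = ‖F (s + z) - F s‖ * (1 / ‖z‖) := by ring
        _ ≤ _ := mul_le_mul f4 f5 (by positivity) (by positivity)
    -- the second factor
    have e2 : ‖(((x + √x : ℝ) : ℂ) ^ (z + 1) - (x : ℂ) ^ (z + 1)) / (z + 1)‖ ≤
        21 * √x * x ^ (-κ) * T ^ (-(2 * κ)) := by
      refine (K_bd2 (κ := 2 * κ) (η := 2 * κ) (by linarith) (by linarith) (by linarith) (by linarith) hx hh0 hhx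
        hzre).trans ?_
      have f1 : x / √x = √x := by
        rw [div_eq_iff hh0.ne', Real.mul_self_sqrt hx0.le]
      rw [f1]
      have f2 : (√x / ‖z + 1‖) ^ (2 * κ) ≤ 7 * x ^ κ * T ^ (-(2 * κ)) := by
        have f3 : √x / ‖z + 1‖ ≤ 7 * √x / T := by
          rw [div_le_div_iff₀ hz1pos hT0]
          nlinarith
        calc (√x / ‖z + 1‖) ^ (2 * κ) ≤ (7 * √x / T) ^ (2 * κ) :=
              Real.rpow_le_rpow (by positivity) f3 (by linarith)
          _ = 7 ^ (2 * κ) * (√x) ^ (2 * κ) * T ^ (-(2 * κ)) := by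
              rw [Real.div_rpow (by positivity) hT0.le, Real.mul_rpow (by norm_num) hh0.le, Real.rpow_neg hT0.le,
                div_eq_mul_inv]
          _ = 7 ^ (2 * κ) * x ^ κ * T ^ (-(2 * κ)) := by
              congr 2
              rw [Real.sqrt_eq_rpow, ← Real.rpow_mul hx0.le]
              congr 1
              ring
          _ ≤ 7 ^ (1 : ℝ) * x ^ κ * T ^ (-(2 * κ)) := by
              have : (7 : ℝ) ^ (2 * κ) ≤ 7 ^ (1 : ℝ) :=
                Real.rpow_le_rpow_of_exponent_le (by norm_num) (by linarith)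
              gcongr
          _ = _ := by rw [Real.rpow_one]
      have f4 : x ^ (-(2 * κ)) * x ^ κ = x ^ (-κ) := by
        rw [← Real.rpow_add hx0]
        congr 1
        ring
      calc 3 * √x * x ^ (-(2 * κ)) * (√x / ‖z + 1‖) ^ (2 * κ)
          ≤ 3 * √x * x ^ (-(2 * κ)) * (7 * x ^ κ * T ^ (-(2 * κ))) :=
            mul_le_mul_of_nonneg_left f2 (by positivity)
        _ = 21 * √x * (x ^ (-(2 * κ)) * x ^ κ) * T ^ (-(2 * κ)) := by ring
        _ = _ := by rw [f4]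
    have e3 : Wf F s (x + √x) z - Wf F s x z =
        Ps F s z * ((((x + √x : ℝ) : ℂ) ^ (z + 1) - (x : ℂ) ^ (z + 1)) / (z + 1)) := by
      unfold Wf
      ring
    rw [e3, norm_mul]
    calc ‖Ps F s z‖ * ‖(((x + √x : ℝ) : ℂ) ^ (z + 1) - (x : ℂ) ^ (z + 1)) / (z + 1)‖
        ≤ (2 / κ * (ε * ℓ + ε + C) * T ^ κ * (lm / T)) * (21 * √x * x ^ (-κ) * T ^ (-(2 * κ))) :=
          mul_le_mul e1 e2 (norm_nonneg _) (by positivity)
      _ = (2 / κ * lm * 21 * √x * x ^ (-κ) * (ε * ℓ + ε + C)) * (T ^ κ * T⁻¹ * T ^ (-(2 * κ))) := by ring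
      _ = _ := by
          congr 1
          rw [← Real.rpow_neg_one, ← Real.rpow_add hT0, ← Real.rpow_add hT0]
          congr 1
          ring
  refine (norm_integral_le_of_norm_le ((int_pow (by linarith)).const_mul _) (Eventually.of_forall hpt)).trans
    (le_of_eq ?_)
  rw [integral_const_mul, ← hJ]
  ring

/-- the partial sums -/
noncomputable def PS (b : ℕ → ℝ) (x : ℝ) (s : ℂ) : ℂ := ∑' j, if b j < x then (b j : ℂ) ^ (-s) else 0

/-- few elements in short intervals -/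
def Short (b : ℕ → ℝ) : Prop := ∀ ε : ℝ, 0 < ε → ∃ C : ℝ, 0 ≤ C ∧ ∀ x : ℝ, 1 ≤ x →
  ({j : ℕ | x ≤ b j ∧ b j ≤ x + √x}.ncard : ℝ) ≤ C * x ^ (1 / 2 + ε)

/-- the smoothed partial sum -/
theorem edge {b : ℕ → ℝ} {b0 : ℝ} (hb : Fam b b0) {σ ε C : ℝ} (hσ : 0 ≤ σ)
    (hC : ∀ x : ℝ, 1 ≤ x → ({j : ℕ | x ≤ b j ∧ b j ≤ x + √x}.ncard : ℝ) ≤ C * x ^ (1 / 2 + ε)) {s : ℂ}
    (hs : σ ≤ s.re) {x : ℝ} (hx : 1 ≤ x) {S : ℂ}
    (hS : HasSum (fun j => (b j : ℂ) ^ (-s) * ((max (x + √x - b j) 0 - max (x - b j) 0 : ℝ) : ℂ)) S) :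
    ‖S / (√x : ℝ) - PS b x s‖ ≤ C * x ^ (1 / 2 + ε - σ) := by
  have hx0 : 0 < x := by linarith
  have hh0 : 0 < √x := Real.sqrt_pos.2 hx0
  have hfin : {j : ℕ | x ≤ b j ∧ b j ≤ x + √x}.Finite := by
    refine (fin_le (l := b) (fun n => (hb.one_lt n).le) ?_ (x + √x)).subset fun j hj => hj.2
    exact hb.sum 2 (by norm_num)
  have hfin2 : {j : ℕ | b j < x}.Finite := by
    refine (fin_le (l := b) (fun n => (hb.one_lt n).le) ?_ x).subset fun j hj => (le_of_lt (show b j < x from hj) : b j ≤ x)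
    exact hb.sum 2 (by norm_num)
  have hPS : HasSum (fun j => if b j < x then (b j : ℂ) ^ (-s) else 0) (PS b x s) := by
    refine (summable_of_hasFiniteSupport ?_).hasSum
    refine hfin2.subset fun j hj => ?_
    by_contra h
    exact hj (if_neg h)
  have hD := (hS.div_const ((√x : ℝ) : ℂ)).sub hPS
  rw [← hD.tsum_eq]
  have hind : HasSum (fun j => if x ≤ b j ∧ b j ≤ x + √x then x ^ (-σ) else 0)
      (({j : ℕ | x ≤ b j ∧ b j ≤ x + √x}.ncard : ℝ) * x ^ (-σ)) := by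
    have h1 : HasSum (fun j => if x ≤ b j ∧ b j ≤ x + √x then x ^ (-σ) else 0)
        (∑ j ∈ hfin.toFinset, if x ≤ b j ∧ b j ≤ x + √x then x ^ (-σ) else 0) :=
      hasSum_sum_of_ne_finset_zero (fun j hj => by
        rw [Set.Finite.mem_toFinset] at hj
        exact if_neg hj)
    have h2 : (∑ j ∈ hfin.toFinset, if x ≤ b j ∧ b j ≤ x + √x then x ^ (-σ) else 0) =
        ({j : ℕ | x ≤ b j ∧ b j ≤ x + √x}.ncard : ℝ) * x ^ (-σ) := by
      rw [Set.ncard_eq_toFinset_card _ hfin, Finset.sum_congr rfl (fun j hj => by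
        rw [Set.Finite.mem_toFinset] at hj
        exact if_pos hj : ∀ j ∈ hfin.toFinset, (if x ≤ b j ∧ b j ≤ x + √x then x ^ (-σ) else 0) = x ^ (-σ))]
      simp
    rw [← h2]
    exact h1
  have hterm : ∀ j : ℕ, ‖(b j : ℂ) ^ (-s) * ((max (x + √x - b j) 0 - max (x - b j) 0 : ℝ) : ℂ) / ((√x : ℝ) : ℂ) -
      (if b j < x then (b j : ℂ) ^ (-s) else 0)‖ ≤ if x ≤ b j ∧ b j ≤ x + √x then x ^ (-σ) else 0 := by
    intro j
    have hh0' : ((√x : ℝ) : ℂ) ≠ 0 := by exact_mod_cast hh0.ne'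
    rcases lt_or_ge (b j) x with h | h
    · rw [if_pos h, max_eq_left (by linarith), max_eq_left (by linarith), if_neg (by
        rintro ⟨h1, _⟩
        linarith)]
      have e : x + √x - b j - (x - b j) = √x := by ring
      rw [e, mul_div_cancel_right₀ _ hh0', sub_self, norm_zero]
    · rw [if_neg (not_lt.2 h), sub_zero, max_eq_right (by linarith : x - b j ≤ 0), sub_zero]
      rcases le_or_gt (b j) (x + √x) with h2 | h2
      · rw [if_pos ⟨h, h2⟩, max_eq_left (by linarith), norm_div, norm_mul, hb.norm, Complex.norm_real,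
          Complex.norm_real, Real.norm_of_nonneg (by linarith : 0 ≤ x + √x - b j), Real.norm_of_nonneg hh0.le,
          mul_div_assoc]
        have e1 : (b j) ^ (-s.re) ≤ x ^ (-σ) := by
          calc (b j) ^ (-s.re) ≤ x ^ (-s.re) := Real.rpow_le_rpow_of_nonpos hx0 h (by linarith)
            _ ≤ x ^ (-σ) := Real.rpow_le_rpow_of_exponent_le hx (by linarith)
        have e2 : (x + √x - b j) / √x ≤ 1 := by rw [div_le_one hh0]; linarith
        have e3 : 0 ≤ (x + √x - b j) / √x := div_nonneg (by linarith) hh0.le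
        calc (b j) ^ (-s.re) * ((x + √x - b j) / √x) ≤ x ^ (-σ) * 1 :=
              mul_le_mul e1 e2 e3 (by positivity)
          _ = _ := mul_one _
      · rw [if_neg (by
          rintro ⟨_, h3⟩
          linarith), max_eq_right (by linarith)]
        simp
  refine (tsum_of_norm_bounded hind hterm).trans ?_
  have h3 := hC x hx
  calc ({j : ℕ | x ≤ b j ∧ b j ≤ x + √x}.ncard : ℝ) * x ^ (-σ) ≤ (C * x ^ (1 / 2 + ε)) * x ^ (-σ) :=
        mul_le_mul_of_nonneg_right h3 (by positivity)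
    _ = C * x ^ (1 / 2 + ε - σ) := by
        rw [mul_assoc, ← Real.rpow_add hx0]
        congr 2

end Pool.Agent.H49.RH
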