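import Pool.Agent.H49.RH.Tail2

/-!
# The partial sums over primes in a zero free half plane, III
-/

set_option autoImplicit false

open Complex MeasureTheory Filter Topology Set

namespace Pool.Agent.H49.RH

open Pool.Agent.H49.BP (ff fg ff_scale inv_ff norm_den den_ne cpow_quot line_int shift K_bd int_pow min_bd fin_le)

/-- the kernel on the line of real part `2` -/
noncomputable def KK (y t : ℝ) : ℂ := (y : ℂ) ^ (((2 : ℝ) : ℂ) + t * I + 1) /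
  ((((2 : ℝ) : ℂ) + t * I) * (((2 : ℝ) : ℂ) + t * I + 1))

theorem KK_int {y : ℝ} (hy : 1 ≤ y) : Integrable (KK y) ∧
    ((y - 1 : ℝ) : ℂ) = 1 / (2 * Real.pi) * ∫ t : ℝ, KK y t := by
  have h := riesz_w (l := fun _ => 1) (a := fun n => if n = 0 then 1 else 0) (fun _ => le_rfl) (by
    refine summable_of_hasFiniteSupport ((Set.finite_singleton 0).subset fun n hn => ?_)
    by_contra h
    exact hn (by simp at h ⊢; exact h)) hy
  have e : ∀ t : ℝ, (∑' n : ℕ, (if n = 0 then (1 : ℂ) else 0) * (((1 : ℝ)) : ℂ) ^ (-(((2 : ℝ) : ℂ) + t * I))) = 1 := by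
    intro t
    rw [tsum_eq_single 0 (fun n hn => by simp [hn])]
    simp
  have e2 : (fun t : ℝ => (∑' n : ℕ, (if n = 0 then (1 : ℂ) else 0) *
      (((1 : ℝ)) : ℂ) ^ (-(((2 : ℝ) : ℂ) + t * I))) * (y : ℂ) ^ (((2 : ℝ) : ℂ) + t * I + 1) /
      ((((2 : ℝ) : ℂ) + t * I) * (((2 : ℝ) : ℂ) + t * I + 1))) = KK y := by
    funext t
    rw [e t, one_mul]
    rfl
  rw [e2] at h
  refine ⟨h.1, ?_⟩
  have h2 := h.2.tsum_eq
  rw [tsum_eq_single 0 (fun n hn => by simp [hn])] at h2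
  rw [← h2]
  simp only [if_pos]
  rw [max_eq_left (by linarith), one_mul]

/-- the transform of one family -/
theorem riesz_fam {b : ℕ → ℝ} {b0 : ℝ} (hb : Fam b b0) {s : ℂ} (hs : 0 ≤ s.re) {y : ℝ} (hy : 1 ≤ y) :
    Integrable (fun t : ℝ => (∑' j, (b j : ℂ) ^ (-(s + (((2 : ℝ) : ℂ) + t * I)))) * KK y t) ∧
    HasSum (fun j => (b j : ℂ) ^ (-s) * ((max (y - b j) 0 : ℝ) : ℂ)) (1 / (2 * Real.pi) *
      ∫ t : ℝ, (∑' j, (b j : ℂ) ^ (-(s + (((2 : ℝ) : ℂ) + t * I)))) * KK y t) := by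
  have h := riesz_w (l := b) (a := fun j => (b j : ℂ) ^ (-s)) (fun j => (hb.one_lt j).le) (by
    refine Summable.of_nonneg_of_le (fun j => ?_) (fun j => ?_) (hb.sum 2 (by norm_num))
    · have := hb.pos j
      positivity
    · rw [hb.norm]
      have h1 : (b j) ^ (-s.re) ≤ 1 := Real.rpow_le_one_of_one_le_of_nonpos (hb.one_lt j).le (by linarith)
      have h2 : 0 ≤ (b j) ^ (-2 : ℝ) := Real.rpow_nonneg (hb.pos j).le _
      exact mul_le_of_le_one_left h2 h1) hy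
  have e : (fun t : ℝ => (∑' j, (b j : ℂ) ^ (-s) * (b j : ℂ) ^ (-(((2 : ℝ) : ℂ) + t * I))) *
      (y : ℂ) ^ (((2 : ℝ) : ℂ) + t * I + 1) / ((((2 : ℝ) : ℂ) + t * I) * (((2 : ℝ) : ℂ) + t * I + 1))) =
      fun t : ℝ => (∑' j, (b j : ℂ) ^ (-(s + (((2 : ℝ) : ℂ) + t * I)))) * KK y t := by
    funext t
    unfold KK
    rw [mul_div_assoc]
    congr 1
    refine tsum_congr fun j => ?_
    have hn0 : (b j : ℂ) ≠ 0 := by exact_mod_cast (hb.pos j).ne'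
    rw [← Complex.cpow_add _ _ hn0]
    congr 1
    ring
  rw [e] at h
  exact h

/-- the Riesz means of the difference -/
theorem riesz_diff {b : ℕ → ℝ} {b0 : ℝ} (hb : Fam b b0) {F : ℂ → ℂ}
    (hFe : ∀ s : ℂ, 1 < s.re → F s = (∑' j, (pr j : ℂ) ^ (-s)) - ∑' j, (b j : ℂ) ^ (-s)) {s : ℂ} (hs : 0 ≤ s.re)
    {y : ℝ} (hy : 1 ≤ y) : ∃ A B : ℂ, HasSum (fun j => (pr j : ℂ) ^ (-s) * ((max (y - pr j) 0 : ℝ) : ℂ)) A ∧
      HasSum (fun j => (b j : ℂ) ^ (-s) * ((max (y - b j) 0 : ℝ) : ℂ)) B ∧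
      A - B - F s * ((y - 1 : ℝ) : ℂ) = 1 / (2 * Real.pi) * ∫ t : ℝ, Wf F s y (((2 : ℝ) : ℂ) + t * I) := by
  obtain ⟨i1, h1⟩ := riesz_fam pr_fam hs hy
  obtain ⟨i2, h2⟩ := riesz_fam hb hs hy
  obtain ⟨i3, h3⟩ := KK_int hy
  refine ⟨_, _, h1, h2, ?_⟩
  have e : ∀ t : ℝ, Wf F s y (((2 : ℝ) : ℂ) + t * I) =
      (∑' j, (pr j : ℂ) ^ (-(s + (((2 : ℝ) : ℂ) + t * I)))) * KK y t -
      (∑' j, (b j : ℂ) ^ (-(s + (((2 : ℝ) : ℂ) + t * I)))) * KK y t - F s * KK y t := by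
    intro t
    have hz0 : (((2 : ℝ) : ℂ) + t * I) ≠ 0 := by
      intro h
      have := congrArg Complex.re h
      simp at this
    unfold Wf KK
    rw [Ps_ne F s hz0, hFe (s + (((2 : ℝ) : ℂ) + t * I)) (by simp; linarith)]
    field_simp
  simp_rw [e]
  rw [integral_sub, integral_sub, integral_const_mul, h3]
  · ring
  · exact i1
  · exact i2
  · exact i1.sub i2
  · exact i3.const_mul _

/-- the partial sums converge with a power saving, uniformly up to a small multiple of the logarithm -/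
theorem tail {b : ℕ → ℝ} {b0 : ℝ} (hb : Fam b b0) (hbs : Short b) (hps : Short pr) {F : ℂ → ℂ} {θ : ℝ}
    (hθ : 1 / 2 ≤ θ) (hF : DifferentiableOn ℂ F {s | θ < s.re}) (hsl : Slow F θ)
    (hFe : ∀ s : ℂ, 1 < s.re → F s = (∑' j, (pr j : ℂ) ^ (-s)) - ∑' j, (b j : ℂ) ^ (-s)) {σ : ℝ} (hσ : θ < σ) :
    ∃ κ : ℝ, 0 < κ ∧ ∀ ε : ℝ, 0 < ε → ∃ C : ℝ, 0 ≤ C ∧ ∀ s : ℂ, σ ≤ s.re → ∀ x : ℝ, 1 ≤ x →
      ‖F s - (PS pr x s - PS b x s)‖ ≤ x ^ (-κ) * (ε * Real.log (|s.im| + 3) + C) := by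
  set κ := min (σ - θ) 1 / 4 with hκd
  have hκ : 0 < κ := by
    have : 0 < min (σ - θ) 1 := lt_min (by linarith) one_pos
    positivity
  have hκ1 : 4 * κ ≤ σ - θ := by
    have := min_le_left (σ - θ) 1
    rw [hκd]; linarith
  have hκ2 : 4 * κ ≤ 1 := by
    have := min_le_right (σ - θ) 1
    rw [hκd]; linarith
  obtain ⟨K, hK0, hK⟩ := main_bound hF hκ hκ1 hκ2 hsl
  obtain ⟨CP, hCP0, hCP⟩ := hps κ hκ
  obtain ⟨CB, hCB0, hCB⟩ := hbs κ hκ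
  refine ⟨κ, hκ, fun ε hε => ?_⟩
  set ε1 := ε / (K + 1) with hε1
  have hε10 : 0 < ε1 := by positivity
  have hKε : K * ε1 ≤ ε := by
    rw [hε1, mul_div_assoc', div_le_iff₀ (by positivity)]
    nlinarith
  obtain ⟨C1, hC10, hC1⟩ := hsl (σ - 2 * κ) ε1 (by linarith) hε10
  refine ⟨K * (ε1 + C1) + (CP + CB), by positivity, fun s hs x hx => ?_⟩
  have hx0 : 0 < x := by linarith
  have hh0 : 0 < √x := Real.sqrt_pos.2 hx0
  have hh0' : ((√x : ℝ) : ℂ) ≠ 0 := by exact_mod_cast hh0.ne'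
  set ℓ := Real.log (|s.im| + 3) with hℓ
  have hℓ1 : 1 ≤ ℓ := log_ge_one _
  have hs0 : 0 ≤ s.re := by linarith
  obtain ⟨A2, B2, hA2, hB2, e2⟩ := riesz_diff hb hFe hs0 (y := x + √x) (by linarith)
  obtain ⟨A1, B1, hA1, hB1, e1⟩ := riesz_diff hb hFe hs0 (y := x) hx
  have hA := hA2.sub hA1
  have hB := hB2.sub hB1
  have hA' : HasSum (fun j => (pr j : ℂ) ^ (-s) * ((max (x + √x - pr j) 0 - max (x - pr j) 0 : ℝ) : ℂ)) (A2 - A1) := by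
    refine hA.congr_fun fun j => ?_
    push_cast
    ring
  have hB' : HasSum (fun j => (b j : ℂ) ^ (-s) * ((max (x + √x - b j) 0 - max (x - b j) 0 : ℝ) : ℂ)) (B2 - B1) := by
    refine hB.congr_fun fun j => ?_
    push_cast
    ring
  have f1 := edge pr_fam (σ := σ) (by linarith) hCP hs hx hA'
  have f2 := edge hb (σ := σ) (by linarith) hCB hs hx hB'
  obtain ⟨_, g1⟩ := Wf_shift hF hκ hκ1 hκ2 hsl hs (y := x + √x) (by linarith)
  obtain ⟨_, g2⟩ := Wf_shift hF hκ hκ1 hκ2 hsl hs (y := x) hx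
  have f3 := hK ε1 C1 hε10.le hC10 hC1 s hs x hx
  rw [g1, g2] at f3
  set I2 := ∫ t : ℝ, Wf F s (x + √x) (((2 : ℝ) : ℂ) + t * I) with hI2
  set I1 := ∫ t : ℝ, Wf F s x (((2 : ℝ) : ℂ) + t * I) with hI1
  have hid : F s - (PS pr x s - PS b x s) = ((A2 - A1) / ((√x : ℝ) : ℂ) - PS pr x s) -
      ((B2 - B1) / ((√x : ℝ) : ℂ) - PS b x s) - 1 / (2 * Real.pi) * (I2 - I1) / ((√x : ℝ) : ℂ) := by
    have e3 : (A2 - A1) - (B2 - B1) - F s * ((√x : ℝ) : ℂ) = 1 / (2 * Real.pi) * (I2 - I1) := by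
      have e4 : F s * ((x + √x - 1 : ℝ) : ℂ) - F s * ((x - 1 : ℝ) : ℂ) = F s * ((√x : ℝ) : ℂ) := by
        push_cast
        ring
      linear_combination e2 - e1 + e4
    rw [← e3]
    field_simp
    ring
  have hpi : ‖(1 / (2 * Real.pi) : ℂ)‖ ≤ 1 := by
    rw [norm_div, norm_mul, Complex.norm_real, Real.norm_of_nonneg Real.pi_pos.le]
    simp only [norm_one, RCLike.norm_ofNat]
    rw [div_le_one (by positivity)]
    linarith [Real.pi_gt_three]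
  have f4 : ‖1 / (2 * Real.pi) * (I2 - I1) / ((√x : ℝ) : ℂ)‖ ≤ K * x ^ (-κ) * (ε1 * ℓ + ε1 + C1) := by
    rw [norm_div, norm_mul, Complex.norm_real, Real.norm_of_nonneg hh0.le, div_le_iff₀ hh0]
    calc ‖(1 / (2 * Real.pi) : ℂ)‖ * ‖I2 - I1‖ ≤ 1 * (K * √x * x ^ (-κ) * (ε1 * ℓ + ε1 + C1)) :=
          mul_le_mul hpi f3 (norm_nonneg _) zero_le_one
      _ = _ := by ring
  have hpow : x ^ (1 / 2 + κ - σ) ≤ x ^ (-κ) := Real.rpow_le_rpow_of_exponent_le hx (by linarith)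
  have hxκ : 0 < x ^ (-κ) := by positivity
  rw [hid]
  calc ‖((A2 - A1) / ((√x : ℝ) : ℂ) - PS pr x s) - ((B2 - B1) / ((√x : ℝ) : ℂ) - PS b x s) -
        1 / (2 * Real.pi) * (I2 - I1) / ((√x : ℝ) : ℂ)‖
      ≤ (CP * x ^ (1 / 2 + κ - σ) + CB * x ^ (1 / 2 + κ - σ)) + K * x ^ (-κ) * (ε1 * ℓ + ε1 + C1) :=
        (norm_sub_le _ _).trans (add_le_add ((norm_sub_le _ _).trans (add_le_add f1 f2)) f4)
    _ ≤ (CP * x ^ (-κ) + CB * x ^ (-κ)) + K * x ^ (-κ) * (ε1 * ℓ + ε1 + C1) := by gcongr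
    _ = x ^ (-κ) * ((K * ε1) * ℓ + (K * (ε1 + C1) + (CP + CB))) := by ring
    _ ≤ x ^ (-κ) * (ε * ℓ + (K * (ε1 + C1) + (CP + CB))) := by
        refine mul_le_mul_of_nonneg_left ?_ hxκ.le
        have : (K * ε1) * ℓ ≤ ε * ℓ := mul_le_mul_of_nonneg_right hKε (by linarith)
        linarith

end Pool.Agent.H49.RH
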