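import Pool.Agent.H49.RH.Bdd
import Pool.Agent.H49.BP.Tz

/-!
# From the partial sums at `1` to a zero free half plane
-/

set_option autoImplicit false

open Complex MeasureTheory Filter Topology Set

namespace Pool.Agent.H49.RH

open Pool.Agent.H49.BP (gint one_le_gint fin_le ht zero_bot)

/-- the real partial sum -/
noncomputable def PR (b : ℕ → ℝ) (x : ℝ) : ℝ := ∑' j, if b j < x then (b j)⁻¹ else 0

theorem PR_sum {b : ℕ → ℝ} {b0 : ℝ} (hb : Fam b b0) (x : ℝ) :
    HasSum (fun j => if b j < x then (b j)⁻¹ else 0) (PR b x) := by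
  refine (summable_of_hasFiniteSupport ?_).hasSum
  refine (hb.fin x).subset fun j hj => ?_
  by_contra h
  refine hj (if_neg fun h2 => h (le_of_lt h2))

theorem PS_one {b : ℕ → ℝ} (x : ℝ) : PS b x 1 = (PR b x : ℂ) := by
  unfold PS PR
  rw [Complex.ofReal_tsum]
  refine tsum_congr fun j => ?_
  split_ifs
  · exact cpow_neg_one'
  · simp

theorem PR_mono {b : ℕ → ℝ} {b0 : ℝ} (hb : Fam b b0) : Monotone (PR b) := by
  intro x y hxy
  refine hasSum_le (fun j => ?_) (PR_sum hb x) (PR_sum hb y)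
  have := inv_nonneg.2 (hb.pos j).le
  split_ifs with h1 h2
  · exact le_rfl
  · exact absurd (lt_of_lt_of_le h1 hxy) h2
  · exact this
  · exact le_rfl

/-- the transform of the partial sums -/
theorem PR_trans {b : ℕ → ℝ} {b0 : ℝ} (hb : Fam b b0) {w : ℂ} (hw : 0 < w.re) :
    IntegrableOn (fun x : ℝ => (x : ℂ) ^ (-w - 1) * (PR b x : ℂ)) (Ioi 1) ∧
      w * ∫ x in Ioi (1 : ℝ), (x : ℂ) ^ (-w - 1) * (PR b x : ℂ) = ∑' j, (b j : ℂ) ^ (-(1 + w)) := by
  have hw0 : w ≠ 0 := by
    intro h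
    rw [h] at hw
    simp at hw
  let F : ℕ → ℝ → ℂ := fun j => indicator (Ioi (b j)) (fun x : ℝ => (((b j)⁻¹ : ℝ) : ℂ) * (x : ℂ) ^ (-w - 1))
  have hbase : ∀ c : ℝ, 0 < c → IntegrableOn (fun x : ℝ => (x : ℂ) ^ (-w - 1)) (Ioi c) := by
    intro c hc
    exact integrableOn_Ioi_cpow_of_lt (by simp; linarith) hc
  have hsub : ∀ j, Ioi (1 : ℝ) ∩ Ioi (b j) = Ioi (b j) := fun j =>
    inter_eq_self_of_subset_right fun x hx => lt_trans (hb.one_lt j) hx
  have hFi : ∀ j, Integrable (F j) (volume.restrict (Ioi 1)) := by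
    intro j
    rw [integrable_indicator_iff measurableSet_Ioi, IntegrableOn, Measure.restrict_restrict measurableSet_Ioi,
      inter_comm, hsub]
    exact ((hbase (b j) (hb.pos j)).const_mul _)
  have hnorm : ∀ j, ∫ x in Ioi (1 : ℝ), ‖F j x‖ = (b j)⁻¹ * ((b j) ^ (-w.re) / w.re) := by
    intro j
    have e : (fun x => ‖F j x‖) = indicator (Ioi (b j)) (fun x : ℝ => ‖(((b j)⁻¹ : ℝ) : ℂ) * (x : ℂ) ^ (-w - 1)‖) := by
      funext x
      simp only [F]
      rw [norm_indicator_eq_indicator_norm]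
    rw [e, setIntegral_indicator measurableSet_Ioi, hsub]
    have e2 : ∫ x in Ioi (b j), ‖(((b j)⁻¹ : ℝ) : ℂ) * (x : ℂ) ^ (-w - 1)‖ =
        ∫ x in Ioi (b j), (b j)⁻¹ * x ^ (-w.re - 1) := by
      refine setIntegral_congr_fun measurableSet_Ioi fun x hx => ?_
      have hx0 : 0 < x := by
        have : b j < x := hx
        linarith [hb.pos j]
      rw [norm_mul, Complex.norm_real, Real.norm_of_nonneg (inv_nonneg.2 (hb.pos j).le),
        Complex.norm_cpow_eq_rpow_re_of_pos hx0]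
      simp
    rw [e2, integral_const_mul, integral_Ioi_rpow_of_lt (by linarith) (hb.pos j)]
    have e3 : -w.re - 1 + 1 = -w.re := by ring
    rw [e3, neg_div_neg_eq]
  have hsq : Summable fun j => (b j)⁻¹ * ((b j) ^ (-w.re) / w.re) := by
    have h1 : Summable fun j => (b j) ^ (-(1 + w.re)) / w.re := (hb.sum _ (by linarith)).div_const _
    refine h1.congr fun j => ?_
    rw [neg_add, Real.rpow_add (hb.pos j), Real.rpow_neg_one]
    ring
  have hsum : Summable fun j => ∫ x in Ioi (1 : ℝ), ‖F j x‖ := by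
    simp only [hnorm]
    exact hsq
  have hH := hasSum_integral_of_summable_integral_norm hFi hsum
  have hpt : ∀ x : ℝ, HasSum (fun j => F j x) ((x : ℂ) ^ (-w - 1) * (PR b x : ℂ)) := by
    intro x
    have h1 := (Complex.hasSum_ofReal.2 (PR_sum hb x)).mul_left ((x : ℂ) ^ (-w - 1))
    refine h1.congr_fun fun j => ?_
    simp only [F]
    by_cases h : b j < x
    · rw [indicator_of_mem (show x ∈ Ioi (b j) from h), if_pos h, mul_comm]
    · rw [indicator_of_notMem (show x ∉ Ioi (b j) from h), if_neg h]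
      simp
  have hval : ∀ j, ∫ x in Ioi (1 : ℝ), F j x = (b j : ℂ) ^ (-(1 + w)) / w := by
    intro j
    simp only [F]
    rw [setIntegral_indicator measurableSet_Ioi, hsub, integral_const_mul,
      integral_Ioi_cpow_of_lt (by simp; linarith) (hb.pos j)]
    have e3 : -w - 1 + 1 = -w := by ring
    have hn0 : (b j : ℂ) ≠ 0 := by exact_mod_cast (hb.pos j).ne'
    rw [e3, neg_div_neg_eq, mul_div_assoc', neg_add, Complex.cpow_add _ _ hn0, cpow_neg_one']
  have hint : Integrable (fun x : ℝ => (x : ℂ) ^ (-w - 1) * (PR b x : ℂ)) (volume.restrict (Ioi 1)) := by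
    have hm : AEStronglyMeasurable (fun x : ℝ => (x : ℂ) ^ (-w - 1) * (PR b x : ℂ)) (volume.restrict (Ioi 1)) := by
      refine (hbase 1 one_pos).aestronglyMeasurable.mul ?_
      exact (Complex.measurable_ofReal.comp (PR_mono hb).measurable).aestronglyMeasurable
    refine ⟨hm, ?_⟩
    have h2 : ∫⁻ x in Ioi (1 : ℝ), ‖(x : ℂ) ^ (-w - 1) * (PR b x : ℂ)‖ₑ ≤ ∫⁻ x in Ioi (1 : ℝ), ∑' j, ‖F j x‖ₑ := by
      refine lintegral_mono fun x => ?_
      rw [← (hpt x).tsum_eq]
      exact enorm_tsum_le_tsum_enorm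
    rw [lintegral_tsum fun j => (hFi j).aestronglyMeasurable.enorm] at h2
    refine lt_of_le_of_lt h2 ?_
    have h3 : ∀ j, ∫⁻ x in Ioi (1 : ℝ), ‖F j x‖ₑ = ENNReal.ofReal ((b j)⁻¹ * ((b j) ^ (-w.re) / w.re)) := by
      intro j
      rw [← hnorm j, ← ofReal_integral_norm_eq_lintegral_enorm (hFi j)]
    simp only [h3]
    rw [← ENNReal.ofReal_tsum_of_nonneg (fun j => by
      have := hb.pos j
      positivity) hsq]
    exact ENNReal.ofReal_lt_top
  refine ⟨hint, ?_⟩
  have h4 : ∫ x in Ioi (1 : ℝ), (x : ℂ) ^ (-w - 1) * (PR b x : ℂ) = ∫ x in Ioi (1 : ℝ), ∑' j, F j x := by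
    refine integral_congr_ae (Eventually.of_forall fun x => ?_)
    exact (hpt x).tsum_eq.symm
  rw [h4, ← hH.tsum_eq]
  simp only [hval]
  rw [tsum_div_const, mul_div_cancel₀ _ hw0]

/-- the error of the partial sums, as a function on the line -/
noncomputable def gg (b : ℕ → ℝ) (l : ℝ) (x : ℝ) : ℂ := if 1 < x then ((PR pr x - PR b x - l : ℝ) : ℂ) else 0

theorem gg_meas {b : ℕ → ℝ} {b0 : ℝ} (hb : Fam b b0) (l : ℝ) : Measurable (gg b l) := by
  unfold gg
  refine Measurable.ite measurableSet_Ioi ?_ measurable_const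
  exact Complex.measurable_ofReal.comp (((PR_mono pr_fam).measurable.sub (PR_mono hb).measurable).sub
    measurable_const)

theorem free_of_rate {b : ℕ → ℝ} {b0 : ℝ} {G : ℂ → ℂ} (hb : Dat b b0 G) {l a C : ℝ} (ha0 : 0 < a)
    (ha : a ≤ 1 / 2) (h : ∀ x : ℝ, 1 ≤ x → |PR pr x - PR b x - l| ≤ C * x ^ (-a)) :
    ∀ s : ℂ, 1 - a < s.re → riemannZeta s ≠ 0 := by
  have hC0 : 0 ≤ C := by
    have := (abs_nonneg _).trans (h 1 le_rfl)
    rw [Real.one_rpow, mul_one] at this
    exact this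
  have hgb : ∀ x : ℝ, 0 < x → ‖gg b l x‖ ≤ C * x ^ (-a) := by
    intro x hx
    unfold gg
    split_ifs with h1
    · rw [Complex.norm_real]
      exact h x h1.le
    · rw [norm_zero]
      positivity
  have hloc : LocallyIntegrableOn (gg b l) (Ioi 0) := by
    have h1 : LocallyIntegrableOn (fun x : ℝ => C * x ^ (-a)) (Ioi 0) := by
      refine ContinuousOn.locallyIntegrableOn ?_ measurableSet_Ioi
      intro x hx
      have hx0 : (0 : ℝ) < x := hx
      exact ((Real.continuousAt_rpow_const x _ (Or.inl hx0.ne')).const_mul C).continuousWithinAt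
    refine h1.mono (gg_meas hb.fam l).aestronglyMeasurable (Eventually.of_forall fun x => ?_)
    by_cases hx : 1 < x
    · rw [Real.norm_of_nonneg (by positivity)]
      exact hgb x (by linarith)
    · unfold gg
      rw [if_neg hx, norm_zero]
      exact norm_nonneg _
  have htop : gg b l =O[atTop] (fun x : ℝ => x ^ (-a)) := by
    refine Asymptotics.IsBigO.of_bound C ?_
    filter_upwards [eventually_gt_atTop 0] with x hx
    rw [Real.norm_of_nonneg (by positivity)]
    exact hgb x hx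
  set F : ℂ → ℂ := fun s => (s - 1) * mellin (gg b l) (-(s - 1)) + l with hF
  have hFd : DifferentiableOn ℂ F {s | 1 - a < s.re} := by
    intro s hs
    have hs' : 1 - a < s.re := hs
    have hmel := mellin_differentiableAt_of_isBigO_rpow (a := a) (b := -s.re) (s := -(s - 1)) hloc htop
      (by simp; linarith)
      (zero_bot (fun u hu => by unfold gg; rw [if_neg (not_lt.2 hu)]) _) (by simp)
    have h2 : DifferentiableAt ℂ (fun s : ℂ => mellin (gg b l) (-(s - 1))) s :=
      DifferentiableAt.comp (f := fun s : ℂ => -(s - 1)) s hmel (by fun_prop)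
    exact (((differentiableAt_id.sub_const 1).mul h2).add_const _).differentiableWithinAt
  have hFe : ∀ s : ℂ, 1 < s.re → F s = (∑' j, (pr j : ℂ) ^ (-s)) - ∑' j, (b j : ℂ) ^ (-s) := by
    intro s hs
    set w := s - 1 with hw
    have hw0 : 0 < w.re := by rw [hw]; simpa using hs
    have hwne : w ≠ 0 := by
      intro h
      rw [h] at hw0
      simp at hw0
    obtain ⟨i1, e1⟩ := PR_trans pr_fam hw0
    obtain ⟨i2, e2⟩ := PR_trans hb.fam hw0
    have i3 : IntegrableOn (fun x : ℝ => (x : ℂ) ^ (-w - 1) * (l : ℂ)) (Ioi 1) :=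
      (integrableOn_Ioi_cpow_of_lt (by simp; linarith) one_pos).mul_const _
    have e3 : ∫ x in Ioi (1 : ℝ), (x : ℂ) ^ (-w - 1) * (l : ℂ) = l / w := by
      rw [integral_mul_const, integral_Ioi_cpow_of_lt (by simp; linarith) one_pos]
      have e4 : -w - 1 + 1 = -w := by ring
      rw [e4, Complex.ofReal_one, Complex.one_cpow, neg_div_neg_eq]
      ring
    have e5 : mellin (gg b l) (-w) = ∫ x in Ioi (1 : ℝ), ((x : ℂ) ^ (-w - 1) * (PR pr x : ℂ) -
        (x : ℂ) ^ (-w - 1) * (PR b x : ℂ) - (x : ℂ) ^ (-w - 1) * (l : ℂ)) := by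
      unfold mellin
      have h1 : ∫ u in Ioi (0 : ℝ), (u : ℂ) ^ (-w - 1) • gg b l u =
          ∫ u in Ioi (1 : ℝ), (u : ℂ) ^ (-w - 1) • gg b l u := by
        refine setIntegral_eq_of_subset_of_forall_sdiff_eq_zero measurableSet_Ioi
          (Ioi_subset_Ioi zero_le_one) (fun t ht => ?_)
        have : ¬ 1 < t := fun h => ht.2 h
        unfold gg
        rw [if_neg this, smul_zero]
      rw [h1]
      refine setIntegral_congr_fun measurableSet_Ioi (fun t ht => ?_)
      unfold gg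
      rw [if_pos (show (1 : ℝ) < t from ht), smul_eq_mul]
      push_cast
      ring
    have e6 : F s = w * mellin (gg b l) (-w) + l := rfl
    have i12 : IntegrableOn (fun x : ℝ => (x : ℂ) ^ (-w - 1) * (PR pr x : ℂ) -
      (x : ℂ) ^ (-w - 1) * (PR b x : ℂ)) (Ioi 1) := i1.sub i2
    rw [e6, e5, integral_sub i12 i3, integral_sub i1 i2, e3, mul_sub, mul_sub, e1, e2,
      mul_div_cancel₀ _ hwne]
    have e7 : 1 + w = s := by rw [hw]; ring
    rw [e7]
    ring
  -- the identity
  have hv1 : ∀ j : ℕ, ‖(fun _ : ℕ => (1 : ℂ)) j‖ ≤ 1 := fun j => by simp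
  have hsub : {s : ℂ | 1 - a < s.re} ⊆ {s : ℂ | 1 / 2 < s.re} := fun s hs => by
    have : 1 - a < s.re := hs
    show 1 / 2 < s.re
    linarith
  set R : ℂ → ℂ := fun s => s * Complex.exp (G s + (F s + (hv pr (fun _ => 1) s - hv b (fun _ => 1) s))) with hR
  have hRd : DifferentiableOn ℂ R {s | 1 - a < s.re} :=
    differentiableOn_id.mul ((hb.diff.mono hsub).add (hFd.add (((pr_fam.hv_diff hv1).mono hsub).sub
      ((hb.fam.hv_diff hv1).mono hsub)))).cexp
  have hid : ∀ s : ℂ, 1 < s.re → Zs s = R s := by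
    intro s hs
    have hs1 : s ≠ 1 := by
      intro h
      rw [h] at hs
      simp at hs
    have hs0 : s ≠ 0 := by
      intro h
      rw [h] at hs
      simp at hs
      linarith
    have hs2 : s - 1 ≠ 0 := sub_ne_zero.2 hs1
    have e1 := hb.zeta s hs
    rw [hv_one hb.fam hs] at e1
    have e2 := zeta_pr hs
    rw [hv_one pr_fam hs] at e2
    rw [← Zs_eq hs1, ← e2]
    simp only [hR]
    rw [hFe s hs]
    have e3 : Complex.exp (G s) = (s - 1) / s * Complex.exp ((∑' j, (b j : ℂ) ^ (-s)) + hv b (fun _ => 1) s) := by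
      rw [e1]
      field_simp
    have e4 : G s + ((∑' j, (pr j : ℂ) ^ (-s)) - (∑' j, (b j : ℂ) ^ (-s)) +
        (hv pr (fun _ => 1) s - hv b (fun _ => 1) s)) = G s +
        (((∑' j, (pr j : ℂ) ^ (-s)) + hv pr (fun _ => 1) s) - ((∑' j, (b j : ℂ) ^ (-s)) + hv b (fun _ => 1) s)) := by
      ring
    rw [e4, Complex.exp_add (G s), Complex.exp_sub, e3]
    have := Complex.exp_ne_zero ((∑' j, (b j : ℂ) ^ (-s)) + hv b (fun _ => 1) s)
    field_simp
  have hZ : ∀ s : ℂ, 1 - a < s.re → Zs s = R s := by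
    intro s hs
    have h1 : AnalyticOnNhd ℂ Zs {s | 1 - a < s.re} := fun z _ => Zs_differentiable.analyticAt z
    have h2 : AnalyticOnNhd ℂ R {s | 1 - a < s.re} := hRd.analyticOnNhd (hp_open _)
    refine h1.eqOn_of_preconnected_of_eventuallyEq h2 (hp_conn _) (z₀ := 2) (by simp; linarith) ?_ hs
    have : {s : ℂ | 1 < s.re} ∈ 𝓝 (2 : ℂ) := (hp_open 1).mem_nhds (by simp)
    filter_upwards [this] with z hz
    exact hid z hz
  intro s hs hz
  by_cases hs1 : s = 1
  · rw [hs1] at hz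
    exact riemannZeta_one_ne_zero hz
  · have h1 := hZ s hs
    rw [← Zs_eq hs1, hz, mul_zero] at h1
    have hs0 : s ≠ 0 := by
      intro h
      rw [h] at hs
      simp at hs
      linarith
    exact absurd h1.symm (mul_ne_zero hs0 (Complex.exp_ne_zero _))

end Pool.Agent.H49.RH
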